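import Pool.Agent.Lib.MP_d610d0_nt.CH.V.Defs

set_option autoImplicit false

/-!
Section V (Vinogradov's method): statements of the pieces, with complete proofs in words.
-/

namespace Pool.Agent.CH.V

open Finset Filter

/-- [V un] Proof: put `n(g) = #{x ∈ Ω : Φ x = g}`, `n_t(g)` the same for `Ω t`. Then
`col Ω Φ = ∑_{g ∈ image Φ Ω} n(g)^2` and `n(g) ≤ ∑_{t ∈ T} n_t(g)` (union bound), so
`n(g)^2 ≤ |T| ∑_t n_t(g)^2` (Cauchy-Schwarz, `sq_sum_le_card_mul_sum_sq`). -/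
def S_un : Prop := ∀ (ι G τ : Type) [DecidableEq ι] [DecidableEq G] (T : Finset τ)
  (Ωt : τ → Finset ι) (Ω : Finset ι) (Φ : ι → G), (∀ x ∈ Ω, ∃ t ∈ T, x ∈ Ωt t) →
  col Ω Φ ≤ T.card * ∑ t ∈ T, col (Ωt t) Φ

/-- [V inh] Inhomogeneous systems. Proof: the number is `∑_g n(g) n(g - h)` over all `g` in a finite set
(`n(g) = #{x ∈ Ω : Φ x = g}`), and `n(g) n(g-h) ≤ (n(g)^2 + n(g-h)^2)/2`, sum `≤ ∑ n(g)^2 = col`. -/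
def S_inh : Prop := ∀ (ι : Type) (k : ℕ) (Ω : Finset ι) (Φ : ι → Fin k → ℤ) (h : Fin k → ℤ),
  ((Ω ×ˢ Ω).filter (fun p => Φ p.1 = Φ p.2 + h)).card ≤ col Ω Φ

/-- [V four] The Fourier formula. Proof: the finitely many vectors
`v = (ΦA x + PS w) - (ΦA x' + PS w')`, `x, x' ∈ A`, `w, w' ∈ Tup s B`, have coordinates of absolute value
`< Q` for some natural number `Q ≥ 1`. Take the frequencies `a ∈ (Fin k → ZMod Q)` (`M = Q^k` of them,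
enumerate them with `Fintype.equivFin`) and `fr a v = ∏_m stdAddChar (a m * (v m : ZMod Q))`
(`ZMod.stdAddChar`). Then `∑_a fr a v = ∏_m ∑_{c : ZMod Q} stdAddChar (c * v m)` is `Q^k` if all
`v m = 0` in `ZMod Q`, and `0` otherwise (`AddChar.sum_mulShift` / orthogonality of additive
characters). Expand `‖∑_x fr a (ΦA x)‖^2 ∏_l ‖∑_{y ∈ Ss l} fr a (ph k y)‖^2` as the double sum of
`fr a (ΦA x + PS w) * conj (fr a (ΦA x' + PS w'))` (`Finset.prod_univ_sum` for the product of the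
sums) and exchange the summations; a vector `v` as above is `0` iff it is `0` modulo `Q`. -/
def S_four : Prop := ∀ (α : Type) (k s : ℕ) (A : Finset α) (ΦA : α → Fin k → ℤ) (B : Finset ℤ),
  ∃ (M : ℕ) (fr : Fin M → (Fin k → ℤ) → ℂ), 0 < M ∧
    (∀ i v w, fr i (v + w) = fr i v * fr i w) ∧ (∀ i v, ‖fr i v‖ = 1) ∧
    ∀ Ss : Fin s → Finset ℤ, (∀ l, Ss l ⊆ B) →
      (M : ℝ) * (colx k s A ΦA Ss : ℝ) = ∑ i, ‖∑ x ∈ A, fr i (ΦA x)‖ ^ 2 *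
        ∏ l, ‖∑ y ∈ Ss l, fr i (ph k y)‖ ^ 2

/-- [V hoA] (uses V four) Proof: with `B = S`, `F_i = ∑_{y ∈ S} fr i (ph k y)`, `F_{t,i}` the same over
`S_t` (the `S_t` are pairwise disjoint with union `S`): `‖F_i‖^(2s) = ‖∑_t F_{t,i}‖^(2s) ≤
|T|^(2s-1) ∑_t ‖F_{t,i}‖^(2s)` (power mean, `inner_le_nnorm_mul_nnorm` or
`Real.inner_le_Lp_mul_Lq`, simplest `Finset.pow_sum_div_card_le_sum_pow` /
`inner_pow_le`; for `s = 0` trivial). Multiply by `‖∑_A fr‖^2 ≥ 0` and sum over `i`: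
`colx S ≤ |T|^(2s-1) ∑_t colx (S_t) ≤ |T|^(2s) max_t`. -/
def S_hoA : Prop := S_four → ∀ (α τ : Type) [DecidableEq τ] (k s : ℕ) (A : Finset α)
  (ΦA : α → Fin k → ℤ) (T : Finset τ) (St : τ → Finset ℤ) (S : Finset ℤ), T.Nonempty →
  (∀ x ∈ S, ∃ t ∈ T, x ∈ St t) → (∀ t ∈ T, St t ⊆ S) →
  (∀ t ∈ T, ∀ t' ∈ T, t ≠ t' → Disjoint (St t) (St t')) →
  ∃ t ∈ T, colx k s A ΦA (fun _ => S) ≤ T.card ^ (2 * s) * colx k s A ΦA (fun _ => St t)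

/-- [V hoB] (uses V four) Proof: apply V four with `A` a one point set, `ΦA = 0` (then `colx` is
`col (piFinset Ss) (PS k)`, transport along `Unit × _`), `B = ⋃ Ss l`. By the inequality of the
arithmetic and geometric means `∏_l a_l ≤ (1/s) ∑_l a_l^s` for `a_l = ‖F_{l,i}‖^2 ≥ 0` (e.g.
`Real.inner_le_nnorm_mul_nnorm`..., `Real.geom_mean_le_arith_mean`), so
`col ≤ (1/s) ∑_l Jn s k (Ss l) ≤ max_l`. -/
def S_hoB : Prop := S_four → ∀ (k s : ℕ) (Ss : Fin s → Finset ℤ), 1 ≤ s →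
  ∃ l, col (Fintype.piFinset Ss) (PS k) ≤ Jn s k (Ss l)

/-- [V shx] Translation invariance of mixed systems. Proof: the map
`(x, w) ↦ (x + c, w + c)` is a bijection from `A × Tup s S` to the translated set, and
`PS k x + PS k w = PS k x' + PS k w'` iff the same holds for the translated tuples: for each degree
`m ≤ k`, `∑_i (x_i + c)^m + ∑_l (w_l + c)^m = ∑_j C(m,j) c^(m-j) (∑_i x_i^j + ∑_l w_l^j)`, the term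
`j = 0` is `(r + s) c^m` for both tuples; so equality for all degrees `1..k` is preserved, and the
inverse translation gives the converse. -/
def S_shx : Prop := ∀ (r s k : ℕ) (A : Finset (Fin r → ℤ)) (S : Finset ℤ) (c : ℤ),
  colx k s (A.image (fun x i => x i + c)) (PS k) (fun _ => S.image (fun y => y + c))
    = colx k s A (PS k) (fun _ => S)

/-- [V shd] Translation and dilation invariance, and monotonicity. Proof: as V shx (without `A`); for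
the dilation by `p ≠ 0` the power sums of degree `m` are multiplied by `p^m`. Monotonicity: more
pairs. -/
def S_shd : Prop := ∀ (s k : ℕ) (S S' : Finset ℤ) (c p : ℤ), p ≠ 0 →
  Jn s k (S.image (fun y => c + p * y)) = Jn s k S ∧ (S ⊆ S' → Jn s k S ≤ Jn s k S')

/-- [V sa] (uses V shd) Proof: let `a' ∈ {1, ..., p}` be the representative of `a`. Every element of
`Sa N p a` is `a' + p u` with an integer `0 ≤ u`, `p u ≤ N - a' ≤ N - 1`, so `u ∈ [0, N/p]`, an interval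
of `N/p + 1` integers, which is a translate of `{1, ..., N/p+1}`. Use V shd twice. -/
def S_sa : Prop := S_shd → ∀ (s k N p : ℕ) (a : ZMod p), 1 ≤ p → Jn s k (Sa N p a) ≤ JN s k (N / p + 1)

/-- [V tr] (uses V inh) Proof: `Tup (s+k) S` is `Tup s S × Tup k S` (`Fin.append`), and for fixed
`x_2, y_2 ∈ Tup k S` (at most `(|S|^k)^2` pairs) the number of `(x_1, y_1) ∈ (Tup s S)^2` with
`PS x_1 = PS y_1 + h`, `h = PS y_2 - PS x_2`, is at most `Jn s k S` by V inh. `|Icc 1 N| = N`. The second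
claim is trivial. -/
def S_tr : Prop := S_inh → ∀ (s k N : ℕ),
  JN (s + k) k N ≤ N ^ (2 * k) * JN s k N ∧ JN s k N ≤ N ^ (2 * s)

/-- [V nwt] Newton's identities modulo a prime power. Proof: let `R = ZMod (p^k)`; all `1 ≤ m ≤ k < p` are
units of `R`. By Newton's identities (`MvPolynomial.mul_esymm_eq_sum`, or
`MvPolynomial.sum_antidiagonal_card_esymm_psum_eq_zero`, evaluated at `x`, `y` with `aeval`), by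
induction on `m`, `m * esymm_m(x)` is a polynomial in `esymm_j(x)`, `j < m`, and the power sums of degree
`≤ m`; so `esymm_m(x) = esymm_m(y)` for all `m ≤ k`. Hence `∏ (X - x_i) = ∏ (X - y_i)`
(`Multiset.prod_X_sub_C_eq_sum_esymm` / `MvPolynomial.prod_C_add_X_eq_sum_esymm`). -/
def S_nwt : Prop := ∀ (k p : ℕ), p.Prime → k < p → ∀ x y : Fin k → ZMod (p ^ k),
  (∀ m : ℕ, 1 ≤ m → m ≤ k → ∑ i, x i ^ m = ∑ i, y i ^ m) →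
  ∏ i, (Polynomial.X - Polynomial.C (x i)) = ∏ i, (Polynomial.X - Polynomial.C (y i))

open Classical in
/-- [V fact] (uses V nwt) Proof: fix one solution `x` (if there is none the count is 0). For another
solution `y`, V nwt gives the equality of the polynomials; evaluate at `y_j`: `∏_i (y_j - x_i) = 0` in
`R = ZMod (p^k)`. An element of `R` is a unit iff its image in `ZMod p` is not zero (`R` is local,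
`ZMod.isUnit_iff_coprime`/`ZMod.castHom`). Since `x_i - x_i'` is a unit for `i ≠ i'`, `y_j ≡ x_i (mod p)`
for at most one `i`; the other factors are units; hence `y_j = x_i` for exactly one `i = σ(j)` (`k ≥ 1`),
and `σ` is injective since the `y_j` are distinct. So `y = x ∘ σ` for a permutation `σ` of `Fin k`: at
most `k!` solutions. -/
def S_fact : Prop := S_nwt → ∀ (k p : ℕ) [Fact p.Prime], 1 ≤ k → k < p → ∀ g : Fin k → ZMod (p ^ k),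
  ((univ : Finset (Fin k → ZMod (p ^ k))).filter (fun x =>
    (∀ i j, i ≠ j → IsUnit (x i - x j)) ∧ ∀ m : Fin k, ∑ i, x i ^ ((m : ℕ) + 1) = g m)).card
      ≤ k.factorial

open Classical in
/-- [V pad] (uses V fact) The number of solutions of a system of congruences. Proof: `S` is contained in
an interval of `p^k` consecutive integers, so the reduction `S → ZMod (p^k)` is injective, and a tuple
`x ∈ Dist k p S` is mapped to a tuple with `x_i - x_j` unit (not divisible by `p`) for `i ≠ j`. The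
vector `g = (∑_i x_i^(m+1))_m ∈ (ZMod (p^k))^k` satisfies `g_m ≡ h_m (mod p^(m+1))`; the number of such
`g` is `∏_{m<k} p^(k-m-1) = p^(k(k-1)/2)` (each residue class mod `p^(m+1)` has `p^(k-m-1)` lifts to
`ZMod (p^k)`), and for each of them there are at most `k!` tuples (V fact). -/
def S_pad : Prop := S_fact → ∀ (k p : ℕ), p.Prime → 1 ≤ k → k < p → ∀ (c : ℤ) (S : Finset ℤ),
  S ⊆ Ioc c (c + (p : ℤ) ^ k) → ∀ h : Fin k → ℤ,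
  ((Dist k p S).filter (fun x => ∀ m : Fin k, (p : ℤ) ^ ((m : ℕ) + 1) ∣
    (∑ i, x i ^ ((m : ℕ) + 1)) - h m)).card ≤ k.factorial * p ^ (k * (k - 1) / 2)

/-- [V colA] (uses V shx, V shd, V inh, V pad) Proof: translate by `c = - a'`, `a' ∈ ℤ` a representative
of `a` (V shx): the set `Dist k p (Icc 1 N)` becomes `Dist k p S'`, `S' = Icc (1-a') (N-a')`, contained in
an interval of `N ≤ p^k` integers, and `Sa N p a` becomes `p • U` with a finite set `U` of integers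
contained in an interval of `N/p + 1` integers. For a pair of elements `(x, w), (x', w')` counted by
`colx`, `w = p u`, `w' = p u'`: `∑ x_i^m - ∑ x'_i^m = p^m (∑ u'_l^m - ∑ u_l^m)` for `1 ≤ m ≤ k`. There
are at most `N^k` tuples `x'`; for each of them, `x` satisfies the congruences of V pad with
`h = PS k x'`: at most `k! p^(k(k-1)/2)` tuples; and for given `x, x'` the number of `(u, u')` with
given difference of power sums is at most `Jn s k U ≤ JN s k (N/p+1)` (V inh, V shd). -/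
def S_colA : Prop := S_shx → S_shd → S_inh → S_fact → S_pad → ∀ (k s p N : ℕ), p.Prime → 1 ≤ k →
  k < p → N ≤ p ^ k → ∀ a : ZMod p,
  colx k s (Dist k p (Icc 1 (N : ℤ))) (PS k) (fun _ => Sa N p a)
    ≤ N ^ k * (k.factorial * p ^ (k * (k - 1) / 2)) * JN s k (N / p + 1)

open Classical in
/-- [V good] (uses V un) Proof: let `Ω` be the set of `x ∈ Tup (s+k) (Icc 1 N)` whose entries take at
least `k` distinct residues mod `p`. For such `x` there is a `k`-element set `I ⊆ Fin (s+k)` on which the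
residues are pairwise distinct. By V un with the `C(s+k,k)` sets `I`,
`col Ω (PS k) ≤ C(s+k,k) ∑_I col Ω_I (PS k)`, and each `col Ω_I (PS k)` equals
`colx k s (Dist k p (Icc 1 N)) (PS k) (fun _ => Icc 1 N)` (reorder the coordinates: `I ≃ Fin k`,
complement `≃ Fin s`; `PS` does not depend on the order). -/
def S_good : Prop := S_un → ∀ (k s p N : ℕ), p.Prime →
  col ((Tup (s + k) (Icc 1 (N : ℤ))).filter (fun x =>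
    k ≤ (univ.image (fun i => ((x i : ℤ) : ZMod p))).card)) (PS k)
    ≤ (s + k).choose k ^ 2 * colx k s (Dist k p (Icc 1 (N : ℤ))) (PS k) (fun _ => Icc 1 (N : ℤ))

open Classical in
/-- [V bad] (uses V un, V hoB, V sa) Proof: let `Ω` be the set of `x ∈ Tup m (Icc 1 N)`, `m = s + k`,
whose entries take fewer than `k` distinct residues mod `p`. The residue pattern `f : Fin m → ZMod p` of
`x` has at most `k - 1` values, so it is `g ∘ h` with `h : Fin m → Fin (k-1)`, `g : Fin (k-1) → ZMod p`: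
at most `p^(k-1) (k-1)^m ≤ p^(k-1) k^m` patterns (`m ≥ 1`, `k ≥ 2`). By V un,
`col Ω ≤ |T| ∑_f col (piFinset (fun i => Sa N p (f i))) (PS k)`, `T` the set of these patterns, and each
term is at most `Jn m k (Sa N p (f l))` for some `l` (V hoB), hence at most `JN m k (N/p+1)` (V sa). -/
def S_bad : Prop := S_un → S_four → S_hoB → S_shd → S_sa → ∀ (k s p N : ℕ), p.Prime → 2 ≤ k →
  col ((Tup (s + k) (Icc 1 (N : ℤ))).filter (fun x =>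
    (univ.image (fun i => ((x i : ℤ) : ZMod p))).card < k)) (PS k)
    ≤ (p ^ (k - 1) * k ^ (s + k)) ^ 2 * JN (s + k) k (N / p + 1)

/-- [V rec] (uses V un, V four, V hoA, V good, V bad, V colA) The recursive inequality. Proof: by V un with
the two parts of V good and V bad, `JN (s+k) k N ≤ 2 (col good + col bad)`. For the good part use V hoA
with `A = Dist k p (Icc 1 N)`, `S = Icc 1 N`, `T = univ : Finset (ZMod p)`, `S_a = Sa N p a` (`|T| = p`),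
then V colA. -/
def S_rec : Prop := S_un → S_four → S_hoA → S_hoB → S_shx → S_shd → S_inh → S_sa → S_fact → S_pad →
  S_colA → S_good → S_bad → ∀ (k s p N : ℕ), p.Prime → 2 ≤ k → k < p → N ≤ p ^ k →
  JN (s + k) k N ≤ 2 * ((s + k).choose k ^ 2 * (p ^ (2 * s) *
      (N ^ k * (k.factorial * p ^ (k * (k - 1) / 2)) * JN s k (N / p + 1)))
    + (p ^ (k - 1) * k ^ (s + k)) ^ 2 * JN (s + k) k (N / p + 1))

/-- [V step] (uses V rec, V tr) One step of the induction. Let `κ = k(k+1)/2`. Proof: (a) `N < k^(6k)`: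
`JN ≤ N^(2(s+k)) ≤ N^(2(s+k) - κ + δ') N^κ` with `δ' = δ (1 - 1/k) ≥ 0` and `N^κ ≤ (k^(6k))^κ`.
(b) `N ≥ k^(6k)`: put `y = N^(1/k) ≥ k^6`, take a prime `p` with `⌊y⌋ < p ≤ 2 ⌊y⌋`
(`Nat.exists_prime_lt_and_le_two_mul`), so `y < p ≤ 2 y`, `N ≤ p^k`, `k < p`, `N/p + 1 ≤ 2 N/p` (`N ≥ p`).
With `N' = N/p+1` (natural division), `J' = JN s k N' ≤ C (2N/p)^(2s-κ+δ)`.
First term of V rec: `C(s+k,k)^2 ≤ (s+k)^(2k)`, `k! ≤ k^k`,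
`p^(2s) N^k p^(k(k-1)/2) J' ≤ C 2^(2s) N^(k+2s-κ+δ) p^(k(k-1)/2 + κ - δ)` (as `δ ≤ κ`), the exponent of
`p` is `k^2 - δ` and `p^(k^2-δ) ≤ 2^(k^2) N^(k - δ/k)`. So it is at most
`E = C (s+k)^(2k) k^k 2^(2s+k^2) N^(2(s+k)-κ+δ')`.
Second term: `JN (s+k) k N' ≤ N'^(2k) J'` (V tr), so it is at most
`4^k k^(2s+2k) p^(-2) N^(2k) J' ≤ p^(2s+k(k-1)/2) N^k J'` because `N^k ≤ p^(k^2)`, `k^2 - 2s ≤ -s`
(`s ≥ k^2`), `p ≥ k^6`, `4^k k^(2s+2k) ≤ k^(6s)`; so it is also `≤ E` (`C(s+k,k) ≥ 1`, `k! ≥ 1`).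
Total `≤ 4 E`. -/
def S_step : Prop := (∀ (k s p N : ℕ), p.Prime → 2 ≤ k → k < p → N ≤ p ^ k →
  JN (s + k) k N ≤ 2 * ((s + k).choose k ^ 2 * (p ^ (2 * s) *
      (N ^ k * (k.factorial * p ^ (k * (k - 1) / 2)) * JN s k (N / p + 1)))
    + (p ^ (k - 1) * k ^ (s + k)) ^ 2 * JN (s + k) k (N / p + 1))) →
  (∀ (s k N : ℕ), JN (s + k) k N ≤ N ^ (2 * k) * JN s k N ∧ JN s k N ≤ N ^ (2 * s)) →
  ∀ (k s : ℕ) (C δ : ℝ), 7 ≤ k → k ^ 2 ≤ s → 1 ≤ C → 0 ≤ δ → δ ≤ (k : ℝ) * (k + 1) / 2 →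
  (∀ N : ℕ, 1 ≤ N → (JN s k N : ℝ) ≤ C * (N : ℝ) ^ (2 * (s : ℝ) - (k : ℝ) * (k + 1) / 2 + δ)) →
  ∀ N : ℕ, 1 ≤ N → (JN (s + k) k N : ℝ) ≤
    max (((k : ℝ) ^ (6 * k)) ^ (k * (k + 1) / 2))
      (C * (4 * ((s : ℝ) + k) ^ (2 * k) * (k : ℝ) ^ k * 2 ^ (2 * s + k ^ 2))) *
    (N : ℝ) ^ (2 * ((s : ℝ) + k) - (k : ℝ) * (k + 1) / 2 + δ * (1 - 1 / k))

/-- [V fac] Numerical inequalities. Proof: take logarithms. (1) `3 k^2 (k+1) log k ≤ k^5` (`log k ≤ k/3`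
for `k ≥ 7`... e.g. `3 (k+1) log k ≤ k^3`, from `log k ≤ k - 1` and `3 (k+1)(k-1) ≤ k^3`).
(2) with `s + k ≤ b = k^3 + k^2`: `log 4 + 2k log b + k log k + (2b + k^2) log 2 ≤ 2 b`; `log 2 ≤ 0.6932`,
and `0.6136 b ≥ 1.39 + 2k log b + k log k + 0.6932 k^2` for `k ≥ 7`: use `log k ≤ k/7 + log 7 - 1 ≤
k/7 + 0.946` (tangent line) and `log b ≤ log (8/7) + 3 log k ≤ 0.134 + 3 log k`, so the right side is at
most `1.39 + 0.27 k + 7 k (k/7 + 0.946) + 0.7 k^2 = 1.39 + 6.9 k + 1.7 k^2`, and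
`0.6136 (k^3 + k^2) ≥ 0.6136 * 8 k^2 ≥ 4.9 k^2 ≥ 1.7 k^2 + 3.2 * 7 k`.
(3) `(k(k+1)/2) (1-1/k)^(k^2) ≤ (k(k+1)/2) exp(-k) ≤ 1/20` for `k ≥ 7`. -/
def S_fac : Prop := ∀ k : ℕ, 7 ≤ k →
  ((k : ℝ) ^ (6 * k)) ^ (k * (k + 1) / 2) ≤ Real.exp ((k : ℝ) ^ 5) ∧
  (∀ s : ℕ, s + k ≤ bb k → 4 * ((s : ℝ) + k) ^ (2 * k) * (k : ℝ) ^ k * 2 ^ (2 * s + k ^ 2)
    ≤ Real.exp (2 * (bb k : ℝ))) ∧
  (k : ℝ) * (k + 1) / 2 * (1 - 1 / (k : ℝ)) ^ (k ^ 2) ≤ 1 / 20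

/-- [V mvt] (uses V step, V tr, V fac) Vinogradov's mean value theorem. Proof: induction on `r ≤ k^2`:
`JN (k^2 + r k) k N ≤ exp(k^5 + 2 b r) N^(2s - κ + δ_r)`, `s = k^2 + r k`, `δ_r = κ (1-1/k)^r`, `κ = k(k+1)/2`.
`r = 0`: `JN ≤ N^(2s)` (V tr). Step: V step and V fac (`s + k ≤ b` for `r + 1 ≤ k^2`):
`max(exp(k^5), exp(k^5 + 2 b r) exp(2b))`. At `r = k^2`: `s = b`, `k^5 + 2 b k^2 = 3 k^5 + 2 k^4 ≤ 4 k^5`,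
`δ ≤ 1/20` (and `N ≥ 1`). -/
def S_mvt : Prop := (∀ (k s : ℕ) (C δ : ℝ), 7 ≤ k → k ^ 2 ≤ s → 1 ≤ C → 0 ≤ δ →
    δ ≤ (k : ℝ) * (k + 1) / 2 →
    (∀ N : ℕ, 1 ≤ N → (JN s k N : ℝ) ≤ C * (N : ℝ) ^ (2 * (s : ℝ) - (k : ℝ) * (k + 1) / 2 + δ)) →
    ∀ N : ℕ, 1 ≤ N → (JN (s + k) k N : ℝ) ≤
      max (((k : ℝ) ^ (6 * k)) ^ (k * (k + 1) / 2))
        (C * (4 * ((s : ℝ) + k) ^ (2 * k) * (k : ℝ) ^ k * 2 ^ (2 * s + k ^ 2))) *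
      (N : ℝ) ^ (2 * ((s : ℝ) + k) - (k : ℝ) * (k + 1) / 2 + δ * (1 - 1 / k))) →
  (∀ (s k N : ℕ), JN s k N ≤ N ^ (2 * s)) → S_fac →
  ∀ k : ℕ, 7 ≤ k → ∀ Y : ℕ, 1 ≤ Y →
    (JN (bb k) k Y : ℝ) ≤ Real.exp (4 * (k : ℝ) ^ 5) *
      (Y : ℝ) ^ (2 * (bb k : ℝ) - (k : ℝ) * (k + 1) / 2 + 1 / 20)

/-- [V b1] First Hoelder step. `Jr v = #{(y, y') ∈ Tup b (Icc 1 Y)^2 : PS y - PS y' = v}`. Proof: with
`g_x = ∑_y e(∑_m α_m (x y)^(m+1))`, `‖∑_x g_x‖^(2b) ≤ Y^(2b-1) ∑_x ‖g_x‖^(2b)` and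
`‖g_x‖^(2b) = ∑_{y, y'} e(∑_m α_m x^(m+1) (PS y - PS y')_m) = ∑_v Jr v e(∑_m α_m x^(m+1) v_m)`, `v` in the
box `|v_m| ≤ b Y^(m+1)` (outside `Jr v = 0`). Sum over `x` and take absolute values inside. -/
def S_b1 : Prop := ∀ (b k Y : ℕ) (α : Fin k → ℝ), 1 ≤ b →
  ‖TT k Y α‖ ^ (2 * b) ≤ (Y : ℝ) ^ (2 * b - 1) *
    ∑ v ∈ Fintype.piFinset (fun m : Fin k => Icc (-((b : ℤ) * Y ^ ((m : ℕ) + 1))) (b * Y ^ ((m : ℕ) + 1))),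
      (((Tup b (Icc 1 (Y : ℤ)) ×ˢ Tup b (Icc 1 (Y : ℤ))).filter
        (fun p => PS k p.1 = PS k p.2 + v)).card : ℝ) *
      ‖∑ x ∈ Icc 1 Y, ex (∑ m, α m * v m * (x : ℝ) ^ ((m : ℕ) + 1))‖

/-- [V b2] (uses V inh) Second Hoelder step. Proof: put `J(v) = card`, `g(v) = ‖∑_x ...‖`. Hoelder:
`(∑ J g)^(2b) ≤ (∑ J)^(2b-2) (∑ J g^b)^2` and `(∑ J g^b)^2 ≤ (∑ J^2)(∑ g^(2b))`. `∑_v J(v) ≤ Y^(2b)`
(number of pairs), `J(v) ≤ JN b k Y` (V inh), so `∑ J^2 ≤ JN b k Y * Y^(2b)`. Finally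
`g(v)^(2b) = ∑_w J(w) e(∑_m α_m v_m w_m)` (as in V b1, `w = PS x - PS x'`), so
`∑_v g(v)^(2b) ≤ ∑_w J(w) ‖∑_v e(∑_m α_m v_m w_m)‖ ≤ JN b k Y ∑_w ∏_m ‖∑_{|v| ≤ b Y^(m+1)} e(α_m w_m v)‖`
(`w` in the same box; a sum over a box of a product is the product of the sums)
`= JN b k Y ∏_m Sm (α_m) (b Y^(m+1))`. -/
def S_b2 : Prop := S_inh → ∀ (b k Y : ℕ) (α : Fin k → ℝ), 1 ≤ b →
  (∑ v ∈ Fintype.piFinset (fun m : Fin k => Icc (-((b : ℤ) * Y ^ ((m : ℕ) + 1))) (b * Y ^ ((m : ℕ) + 1))),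
      (((Tup b (Icc 1 (Y : ℤ)) ×ˢ Tup b (Icc 1 (Y : ℤ))).filter
        (fun p => PS k p.1 = PS k p.2 + v)).card : ℝ) *
      ‖∑ x ∈ Icc 1 Y, ex (∑ m, α m * v m * (x : ℝ) ^ ((m : ℕ) + 1))‖) ^ (2 * b)
    ≤ ((Y : ℝ) ^ (2 * b)) ^ (2 * b - 2) * ((JN b k Y : ℝ) * (Y : ℝ) ^ (2 * b)) *
      ((JN b k Y : ℝ) * ∏ m : Fin k, Sm (α m) (b * Y ^ ((m : ℕ) + 1)))

/-- [V bil] (uses V b1, V b2) Proof: raise V b1 to the power `2b` and insert V b2: the power of `Y` is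
`(2b-1) 2b + 2b (2b-2) + 2b = 8b^2 - 4b`. -/
def S_bil : Prop := S_inh → S_b1 → S_b2 → ∀ (b k Y : ℕ) (α : Fin k → ℝ), 1 ≤ b →
  ‖TT k Y α‖ ^ (4 * b ^ 2) ≤ (Y : ℝ) ^ (8 * b ^ 2 - 4 * b) * (JN b k Y : ℝ) ^ 2 *
    ∏ m : Fin k, Sm (α m) (b * Y ^ ((m : ℕ) + 1))

/-- [V geo] Geometric sums. Proof: trivially `≤ 2V+1`. If `β` is not an integer: the sum is a geometric
sum with ratio `e(β) ≠ 1`, so its norm is at most `2 / ‖e(β) - 1‖ = 1/|sin π β| ≤ 1/(2 |β - m|)` for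
`|β - m| ≤ 1/2` (`|sin π x| ≥ 2|x|` for `|x| ≤ 1/2`). -/
def S_geo : Prop := ∀ (β : ℝ) (V : ℕ) (m : ℤ), |β - m| ≤ 1 / 2 → β ≠ m →
  ‖∑ v ∈ Icc (-(V : ℤ)) V, ex (β * v)‖ ≤ min (2 * (V : ℝ) + 1) (1 / (2 * |β - m|))

/-- [V min] (uses V geo) Proof: for `w ∈ [-V, V]` let `m = round (α w)`; `|m| ≤ |α| V + 1/2`, so there are at
most `2 |α| V + 2` values of `m`. Fix `m`. The numbers `α w - m ∈ [-1/2, 1/2]` are spaced by `|α|`. At most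
two of the `w` have `|α w - m| < |α|` (contribution at most `2 (2V+1)`), for the others number them on each
side of `0` so that `|α w - m| ≥ i |α|`, `1 ≤ i ≤ 1/(2|α|)`; they contribute at most
`2 ∑_{i ≤ 1/|α|} 1/(2 i |α|) ≤ (1/|α|)(1 + log(1/|α|))`. -/
def S_min : Prop := S_geo → ∀ (α : ℝ) (V : ℕ), 1 ≤ V → 0 < |α| → |α| ≤ 1 / 2 →
  Sm α V ≤ (2 * V * |α| + 2) * (4 * V + 2 + (1 / |α|) * (1 + Real.log (1 / |α|)))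

/-- [V sj] (uses V min) The factor with a saving, `j = ⌈τ + 1/5⌉ ≥ 2` (so `j ≤ τ + 6/5`). With `c ∈ [N, 3N]`,
`|α| = t/(2π j c^j)`, `t = N^τ`, `V = b Y^j`, `Y = ⌊N^(2/5)⌋`. Proof: `|α| ≤ N^(τ-j)/(4π) ≤ N^(-1/5)/12`,
and `1/|α| ≤ 2π j 3^j N^(j-τ)`, `j - τ ≤ 6/5`. Put `Λ = log(1/|α|) ≤ 2 log N` for `log N ≥ C1 (τ+1)`.
By V min, `Sm ≤ 12 V^2 |α| + 12 V + 2V(1+Λ) + (2/|α|)(1+Λ)`; divide by `V^2`: `12|α| ≤ N^(-1/5)`;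
`(14 + 2Λ)/V ≤ (14 + 4 log N) / Y^2 ≤ N^(-1/5)`; and, by `Y ≥ N^(2/5)/2`,
`(2/|α|)(1+Λ)/V^2 ≤ 4π j 12^j (1 + 2 log N) N^(j/5-τ) ≤ N^(-1/5)`, since
`j/5 - τ ≤ 6/25 - 4τ/5 ≤ -0.48` and `4π j 12^j (1 + 2 log N) ≤ N^(0.28)` for `log N ≥ C1 (τ+1)`. -/
def S_sj : Prop := S_geo → S_min → ∃ C1 : ℝ, 1 ≤ C1 ∧ ∀ (τ : ℝ) (N b : ℕ) (c : ℝ), 9 / 10 ≤ τ →
  C1 * (τ + 1) ≤ Real.log N → (N : ℝ) ≤ c → c ≤ 3 * N → 1 ≤ b →
  Sm (al ((N : ℝ) ^ τ) c (⌈τ + 1 / 5⌉₊ - 1)) (b * ⌊(N : ℝ) ^ (2 / 5 : ℝ)⌋₊ ^ ⌈τ + 1 / 5⌉₊)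
    ≤ 3 * (b * (⌊(N : ℝ) ^ (2 / 5 : ℝ)⌋₊ : ℝ) ^ ⌈τ + 1 / 5⌉₊) ^ 2 * (N : ℝ) ^ (-(1 / 5 : ℝ))

/-- [V tb] (uses V bil, V mvt, V sj) The double sum. `k = kk τ ≥ 7`, `b = bb k`, `Y = ⌊N^(2/5)⌋ ≥ 1`. Proof: in
V bil bound the factor `m = ⌈τ+1/5⌉ - 1 < k` by V sj and the others trivially by
`Sm α V ≤ (2V+1)^2 ≤ 9 V^2`; so the product is at most `(9 b^2)^k Y^(k(k+1)) N^(-1/5)`. With V mvt,
`‖T‖^(4b^2) ≤ Y^(8b^2 - 4b) exp(8k^5) Y^(4b - k(k+1) + 1/10) (9b^2)^k Y^(k(k+1)) N^(-1/5)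
≤ Y^(8b^2) exp(8 k^5) (9 b^2)^k N^(1/25 - 1/5)` (`Y^(1/10) ≤ N^(1/25)`). Take the `4b^2`-th root:
`(exp(8k^5)(9b^2)^k)^(1/(4b^2)) ≤ 2` because `8 k^5 + k log(9 b^2) ≤ 4 b^2 log 2` (`b ≥ k^3`, `k ≥ 7`), and
`(4/25)/(4b^2) = 1/(25 b^2) ≥ 1/(33 k^6)` (`b = k^3 + k^2 ≤ (8/7) k^3`). -/
def S_tb : Prop := (∀ (b k Y : ℕ) (α : Fin k → ℝ), 1 ≤ b →
    ‖TT k Y α‖ ^ (4 * b ^ 2) ≤ (Y : ℝ) ^ (8 * b ^ 2 - 4 * b) * (JN b k Y : ℝ) ^ 2 *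
      ∏ m : Fin k, Sm (α m) (b * Y ^ ((m : ℕ) + 1))) →
  (∀ k : ℕ, 7 ≤ k → ∀ Y : ℕ, 1 ≤ Y → (JN (bb k) k Y : ℝ) ≤ Real.exp (4 * (k : ℝ) ^ 5) *
      (Y : ℝ) ^ (2 * (bb k : ℝ) - (k : ℝ) * (k + 1) / 2 + 1 / 20)) →
  ∀ C1 : ℝ, 1 ≤ C1 → (∀ (τ : ℝ) (N b : ℕ) (c : ℝ), 9 / 10 ≤ τ →
    C1 * (τ + 1) ≤ Real.log N → (N : ℝ) ≤ c → c ≤ 3 * N → 1 ≤ b →
    Sm (al ((N : ℝ) ^ τ) c (⌈τ + 1 / 5⌉₊ - 1)) (b * ⌊(N : ℝ) ^ (2 / 5 : ℝ)⌋₊ ^ ⌈τ + 1 / 5⌉₊)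
      ≤ 3 * (b * (⌊(N : ℝ) ^ (2 / 5 : ℝ)⌋₊ : ℝ) ^ ⌈τ + 1 / 5⌉₊) ^ 2 * (N : ℝ) ^ (-(1 / 5 : ℝ))) →
  ∀ (τ : ℝ) (N : ℕ) (c : ℝ), 9 / 10 ≤ τ → C1 * (τ + 1) ≤ Real.log N → (N : ℝ) ≤ c → c ≤ 3 * N →
    ‖TT (kk τ) ⌊(N : ℝ) ^ (2 / 5 : ℝ)⌋₊ (fun m => al ((N : ℝ) ^ τ) c m)‖
      ≤ 2 * (⌊(N : ℝ) ^ (2 / 5 : ℝ)⌋₊ : ℝ) ^ 2 * (N : ℝ) ^ (-(1 / (33 * (kk τ : ℝ) ^ 6)))

/-- [V tay] Taylor expansion. Proof: `pz t (c+z) = pz t c * exp(-i t log(1 + z/c))`, and with `w = z/c ∈ [0,1]`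
`|log(1+w) - ∑_{m<k} (-1)^m w^(m+1)/(m+1)| ≤ w^(k+1)/(k+1)` (alternating series, or Taylor's theorem);
`-t ∑_{m<k} (-1)^m z^(m+1)/((m+1) c^(m+1)) = 2π ∑ al t c m z^(m+1)`; finally
`|exp(i a) - exp(i b)| ≤ |a - b|`. -/
def S_tay : Prop := ∀ (t c z : ℝ) (k : ℕ), 0 ≤ t → 0 < c → 0 ≤ z → z ≤ c →
  ‖pz t (c + z) - pz t c * ex (∑ m : Fin k, al t c m * z ^ ((m : ℕ) + 1))‖ ≤ t * (z / c) ^ (k + 1)

/-- [V Z] (uses V tb, V tay) Zeta sums. Proof: `Y = ⌊N^(2/5)⌋`, `t = N^τ`, `k = kk τ`. For `x, y ≤ Y`,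
`∑_{N<n≤N'} pz t (n+u)` and `∑_{N<n≤N'} pz t (n+xy+u)` differ by at most `2xy ≤ 2Y²` terms of modulus 1.
Average over `x, y`: `|S| ≤ Y^(-2) ∑_{N<n≤N'} ‖∑_{x,y} pz t (n+u+xy)‖ + 2Y²`. By V tay (`c = n+u`,
`xy ≤ Y² ≤ N ≤ c`), `‖∑_{x,y} pz t (n+u+xy)‖ ≤ ‖TT k Y (al t c)‖ + Y² t (Y²/N)^(k+1)`, and
`t (Y²/N)^(k+1) ≤ N^(τ-(k+1)/5) ≤ N^(-3/5)` (`k + 1 ≥ 5τ + 3`). With V tb:
`|S| ≤ 2 N^(1-1/(33k^6)) + N^(2/5) + 2 N^(4/5) ≤ 5 N^(1-1/(33k^6))` (`N' - N ≤ N`). (`N+u+... ≤ 3N`.) -/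
def S_Z : Prop := S_tay → ∀ C1 : ℝ, 1 ≤ C1 →
  (∀ (τ : ℝ) (N : ℕ) (c : ℝ), 9 / 10 ≤ τ → C1 * (τ + 1) ≤ Real.log N → (N : ℝ) ≤ c → c ≤ 3 * N →
    ‖TT (kk τ) ⌊(N : ℝ) ^ (2 / 5 : ℝ)⌋₊ (fun m => al ((N : ℝ) ^ τ) c m)‖
      ≤ 2 * (⌊(N : ℝ) ^ (2 / 5 : ℝ)⌋₊ : ℝ) ^ 2 * (N : ℝ) ^ (-(1 / (33 * (kk τ : ℝ) ^ 6)))) →
  ∀ (τ u : ℝ) (N N' : ℕ), 9 / 10 ≤ τ → C1 * (τ + 1) ≤ Real.log N → 0 ≤ u → u ≤ 1 → N ≤ N' →
    N' ≤ 2 * N → ‖∑ n ∈ Ioc N N', pz ((N : ℝ) ^ τ) ((n : ℝ) + u)‖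
      ≤ 5 * (N : ℝ) ^ (1 - 1 / (33 * (kk τ : ℝ) ^ 6))

/-- [V E] Long sums. Proof: `g(x) = pz t (x+u)`, `|g'(x)| = |t|/(x+u)`. For each `n ∈ (N, N']`,
`|g(n) - ∫_{n-1}^n g| ≤ ∫_{n-1}^n |g'| ≤ |t| (log(n+u) - log(n-1+u))`; the sum is at most
`|t| log((N'+u)/(N+u)) ≤ |t|`. And `∫_N^(N') g = [(x+u) g(x)/(1-it)]`, of modulus at most
`(N' + N + 2)/|t| ≤ 5N/|t|` (`|1-it| ≥ |t|`). -/
def S_E : Prop := ∀ (t u : ℝ) (N N' : ℕ), t ≠ 0 → 0 ≤ u → u ≤ 1 → 1 ≤ N → N ≤ N' → N' ≤ 2 * N →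
  ‖∑ n ∈ Ioc N N', pz t ((n : ℝ) + u)‖ ≤ 5 * N / |t| + |t|

/-- [V H] (uses V Z, V E) Proof: `pz (-t) = conj (pz t)`, so let `t > 0`. Put `τ = log t/log N`. If `τ < 9/10`, then
`t ≤ N^(9/10)` and V E gives `5N/t + t ≤ 5 N l^(-A-2) + N^(9/10) ≤ N l^(-A)` for large `l`
(`log N ≥ l^(9/10)`). If `τ ≥ 9/10`: `τ ≤ κ l / l^(9/10) = κ l^(1/10)`, so `C1 (τ+1) ≤ l^(9/10) ≤ log N`,
`kk τ ≤ 5 κ l^(1/10) + 3`, `33 (kk τ)^6 ≤ C l^(6/10)`, and V Z gives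
`5 N exp(- log N/(33 (kk τ)^6)) ≤ 5 N exp(-c l^(3/10)) ≤ N l^(-A)`. -/
def S_H : Prop := S_E → (∃ C1 : ℝ, 1 ≤ C1 ∧ ∀ (τ u : ℝ) (N N' : ℕ), 9 / 10 ≤ τ →
    C1 * (τ + 1) ≤ Real.log N → 0 ≤ u → u ≤ 1 → N ≤ N' → N' ≤ 2 * N →
    ‖∑ n ∈ Ioc N N', pz ((N : ℝ) ^ τ) ((n : ℝ) + u)‖
      ≤ 5 * (N : ℝ) ^ (1 - 1 / (33 * (kk τ : ℝ) ^ 6))) →
  ∀ (A : ℕ) (κ : ℝ), 1 ≤ κ → ∀ᶠ l : ℝ in atTop, ∀ (t u : ℝ) (N N' : ℕ),
    l ^ (A + 2) ≤ |t| → |t| ≤ Real.exp (κ * l) → 0 ≤ u → u ≤ 1 →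
    l ^ (9 / 10 : ℝ) ≤ Real.log N → N ≤ N' → N' ≤ 2 * N →
    ‖∑ n ∈ Ioc N N', pz t ((n : ℝ) + u)‖ ≤ N / l ^ A

/-- The result of the section. -/
def I_V : Prop := ∀ (A : ℕ) (κ : ℝ), 1 ≤ κ → ∀ᶠ l : ℝ in atTop, ∀ (t u : ℝ) (N N' : ℕ),
    l ^ (A + 2) ≤ |t| → |t| ≤ Real.exp (κ * l) → 0 ≤ u → u ≤ 1 →
    l ^ (9 / 10 : ℝ) ≤ Real.log N → N ≤ N' → N' ≤ 2 * N →
    ‖∑ n ∈ Ioc N N', pz t ((n : ℝ) + u)‖ ≤ N / l ^ A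

end Pool.Agent.CH.V
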