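import Mathlib

set_option autoImplicit false

/-!
Section V (Vinogradov's method): definitions.
-/

namespace Pool.Agent.CH.V

open Finset

/-- `e(x) = exp(2 π i x)`. -/
noncomputable def ex (x : ℝ) : ℂ := Complex.exp (2 * Real.pi * Complex.I * (x : ℂ))

/-- The vector `(x, x^2, ..., x^k)`. -/
def ph (k : ℕ) (x : ℤ) : Fin k → ℤ := fun m => x ^ ((m : ℕ) + 1)

/-- All `s`-tuples of elements of `S`. -/
noncomputable def Tup (s : ℕ) (S : Finset ℤ) : Finset (Fin s → ℤ) := Fintype.piFinset (fun _ => S)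

/-- The vector of the power sums of a tuple, of degrees `1, ..., k`. -/
def PS (k : ℕ) {s : ℕ} (x : Fin s → ℤ) : Fin k → ℤ := ∑ i, ph k (x i)

/-- The number of pairs of elements of `Ω` with the same value under `Φ`. -/
noncomputable def col {ι G : Type} [DecidableEq G] (Ω : Finset ι) (Φ : ι → G) : ℕ :=
  ((Ω ×ˢ Ω).filter (fun p => Φ p.1 = Φ p.2)).card

/-- The same for `A × S_0 × ... × S_(s-1)` with the map `ΦA + PS k`. -/
noncomputable def colx {α : Type} (k s : ℕ) (A : Finset α) (ΦA : α → Fin k → ℤ) (Ss : Fin s → Finset ℤ) : ℕ :=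
  col (A ×ˢ Fintype.piFinset Ss) (fun p => ΦA p.1 + PS k p.2)

/-- The number of solutions of Vinogradov's system with `2 s` variables in `S`, degrees `≤ k`. -/
noncomputable def Jn (s k : ℕ) (S : Finset ℤ) : ℕ := col (Tup s S) (PS k)

/-- The number of solutions of Vinogradov's system with `2 s` variables in `{1, ..., N}`. -/
noncomputable def JN (s k N : ℕ) : ℕ := Jn s k (Icc 1 (N : ℤ))

/-- The elements of `{1, ..., N}` in the residue class `a` modulo `p`. -/
noncomputable def Sa (N p : ℕ) (a : ZMod p) : Finset ℤ := (Icc 1 (N : ℤ)).filter (fun x : ℤ => (x : ZMod p) = a)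

/-- The `k`-tuples of elements of `S` which are pairwise distinct modulo `p`. -/
noncomputable def Dist (k p : ℕ) (S : Finset ℤ) : Finset (Fin k → ℤ) :=
  (Tup k S).filter (fun x => Function.Injective (fun i => ((x i : ℤ) : ZMod p)))

/-- `∑_{|w| ≤ V} |∑_{|v| ≤ V} e(α w v)|`. -/
noncomputable def Sm (α : ℝ) (V : ℕ) : ℝ :=
  ∑ w ∈ Icc (-(V : ℤ)) V, ‖∑ v ∈ Icc (-(V : ℤ)) V, ex (α * w * v)‖

/-- `∑_{x, y ≤ Y} e(∑_m α_m (x y)^(m+1))`. -/
noncomputable def TT (k Y : ℕ) (α : Fin k → ℝ) : ℂ :=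
  ∑ x ∈ Icc 1 Y, ∑ y ∈ Icc 1 Y, ex (∑ m, α m * ((x : ℝ) * y) ^ ((m : ℕ) + 1))

/-- `x^(-it)` for `x > 0`. -/
noncomputable def pz (t x : ℝ) : ℂ := Complex.exp (-(Complex.I * ((t * Real.log x : ℝ) : ℂ)))

/-- The Taylor coefficients of `- (t/(2π)) log x` at `x = c`: the coefficient of `z^(m+1)`. -/
noncomputable def al (t c : ℝ) (m : ℕ) : ℝ :=
  -(t / (2 * Real.pi)) * ((-1) ^ m / (((m : ℝ) + 1) * c ^ (m + 1)))

/-- The degree used for `t = N^τ`. -/
noncomputable def kk (τ : ℝ) : ℕ := ⌈5 * τ⌉₊ + 2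

/-- The number of variables used for degree `k`. -/
def bb (k : ℕ) : ℕ := k ^ 3 + k ^ 2

end Pool.Agent.CH.V
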