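import Pool.Agent.Lib.MP_d610d0_nt.CH.V.Stm

set_option autoImplicit false

/-!
Piece E.
-/

namespace Pool.Agent.CH.V

open Finset Filter

theorem E_ne (t : ℝ) : (1 : ℂ) - t * Complex.I ≠ 0 := by
  intro h
  have := congrArg Complex.re h
  simp at this

theorem E_norm (t : ℝ) : |t| ≤ ‖(1 : ℂ) - t * Complex.I‖ := by
  have := Complex.abs_im_le_norm ((1 : ℂ) - t * Complex.I)
  simpa using this

theorem E_pz_norm (t x : ℝ) : ‖pz t x‖ = 1 := by
  unfold pz
  rw [Complex.norm_exp]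
  simp

theorem E_pz_sub (t x y : ℝ) : ‖pz t x - pz t y‖ ≤ |t| * |Real.log x - Real.log y| := by
  have h : pz t x - pz t y = pz t y *
      (Complex.exp (Complex.I * ((t * (Real.log y - Real.log x) : ℝ) : ℂ)) - 1) := by
    unfold pz
    rw [mul_sub, mul_one, ← Complex.exp_add]
    congr 2
    push_cast
    ring
  rw [h, norm_mul, E_pz_norm, one_mul]
  refine (Real.norm_exp_I_mul_ofReal_sub_one_le).trans ?_
  rw [Real.norm_eq_abs, abs_mul, abs_sub_comm]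

/-- the antiderivative -/
noncomputable def E_G (t u x : ℝ) : ℂ := ((x + u : ℝ) : ℂ) * pz t (x + u) / (1 - t * Complex.I)

theorem E_deriv (t u x : ℝ) (hx : 0 < x + u) : HasDerivAt (E_G t u) (pz t (x + u)) x := by
  have h1 : HasDerivAt (fun x : ℝ => x + u) 1 x := (hasDerivAt_id x).add_const u
  have h2 : HasDerivAt (fun x : ℝ => t * Real.log (x + u)) (t * (1 / (x + u))) x :=
    (h1.log hx.ne').const_mul t
  have h3 : HasDerivAt (fun x : ℝ => ((t * Real.log (x + u) : ℝ) : ℂ))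
      ((t * (1 / (x + u)) : ℝ) : ℂ) x := h2.ofReal_comp
  have h4 := ((h3.const_mul Complex.I).neg).cexp
  have h5 : HasDerivAt (fun x : ℝ => ((x + u : ℝ) : ℂ)) ((1 : ℝ) : ℂ) x := h1.ofReal_comp
  have h6 := (h5.mul h4).div_const (1 - (t : ℂ) * Complex.I)
  have hne : (x : ℂ) + u ≠ 0 := by
    intro h
    have : ((x + u : ℝ) : ℂ) = 0 := by push_cast; exact h
    rw [Complex.ofReal_eq_zero] at this
    exact hx.ne' this
  have e : pz t (x + u) = (((1 : ℝ) : ℂ) *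
      Complex.exp (-(Complex.I * ((t * Real.log (x + u) : ℝ) : ℂ))) +
      ((x + u : ℝ) : ℂ) * (Complex.exp (-(Complex.I * ((t * Real.log (x + u) : ℝ) : ℂ))) *
        (-(Complex.I * ((t * (1 / (x + u)) : ℝ) : ℂ))))) / (1 - (t : ℂ) * Complex.I) := by
    rw [eq_div_iff (E_ne t)]
    unfold pz
    generalize Complex.exp (-(Complex.I * ((t * Real.log (x + u) : ℝ) : ℂ))) = E
    push_cast
    field_simp
    ring
  rw [e]
  exact h6

theorem E_step (t u : ℝ) (n : ℕ) (hu : 0 < (n : ℝ) + u) :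
    ‖pz t (((n + 1 : ℕ) : ℝ) + u) - (E_G t u ((n + 1 : ℕ) : ℝ) - E_G t u n)‖ ≤
      |t| * (Real.log (((n + 1 : ℕ) : ℝ) + u) - Real.log ((n : ℝ) + u)) := by
  have hd : ∀ x ∈ Set.Icc (n : ℝ) ((n + 1 : ℕ) : ℝ),
      HasDerivWithinAt (fun x : ℝ => pz t (((n + 1 : ℕ) : ℝ) + u) * (x : ℂ) - E_G t u x)
        (pz t (((n + 1 : ℕ) : ℝ) + u) * ((1 : ℝ) : ℂ) - pz t (x + u))
        (Set.Icc (n : ℝ) ((n + 1 : ℕ) : ℝ)) x := by
    intro x hx
    have h1 : HasDerivAt (fun x : ℝ => (x : ℂ)) ((1 : ℝ) : ℂ) x := (hasDerivAt_id x).ofReal_comp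
    exact ((h1.const_mul (pz t (((n + 1 : ℕ) : ℝ) + u))).sub
      (E_deriv t u x (by linarith [hx.1]))).hasDerivWithinAt
  have hb : ∀ x ∈ Set.Ico (n : ℝ) ((n + 1 : ℕ) : ℝ),
      ‖pz t (((n + 1 : ℕ) : ℝ) + u) * ((1 : ℝ) : ℂ) - pz t (x + u)‖ ≤
        |t| * (Real.log (((n + 1 : ℕ) : ℝ) + u) - Real.log ((n : ℝ) + u)) := by
    intro x hx
    rw [Complex.ofReal_one, mul_one]
    refine (E_pz_sub _ _ _).trans ?_
    apply mul_le_mul_of_nonneg_left _ (abs_nonneg t)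
    have h1 : Real.log ((n : ℝ) + u) ≤ Real.log (x + u) :=
      Real.log_le_log hu (by linarith [hx.1])
    have h2 : Real.log (x + u) ≤ Real.log (((n + 1 : ℕ) : ℝ) + u) :=
      Real.log_le_log (by linarith [hx.1]) (by linarith [hx.2])
    rw [abs_of_nonneg (by linarith)]
    linarith
  have hle : (n : ℝ) ≤ ((n + 1 : ℕ) : ℝ) := by push_cast; linarith
  have := norm_image_sub_le_of_norm_deriv_le_segment' hd hb ((n + 1 : ℕ) : ℝ)
    ⟨hle, le_refl _⟩
  have e1 : (((n + 1 : ℕ) : ℝ) - (n : ℝ)) = 1 := by push_cast; ring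
  rw [e1, mul_one] at this
  refine le_trans (le_of_eq ?_) this
  congr 1
  push_cast
  ring

theorem E_sum (t u : ℝ) (N : ℕ) (hu : 0 < (N : ℝ) + u) (m : ℕ) (hm : N ≤ m) :
    ‖∑ n ∈ Ioc N m, pz t ((n : ℝ) + u) - (E_G t u m - E_G t u N)‖ ≤
      |t| * (Real.log ((m : ℝ) + u) - Real.log ((N : ℝ) + u)) := by
  induction m, hm using Nat.le_induction with
  | base => simp
  | succ m hm ih =>
    have h0 : (N : ℝ) ≤ m := by exact_mod_cast hm
    have h1 := E_step t u m (by linarith)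
    have e : ∑ n ∈ Ioc N (m + 1), pz t ((n : ℝ) + u) =
        ∑ n ∈ Ioc N m, pz t ((n : ℝ) + u) + pz t (((m + 1 : ℕ) : ℝ) + u) := by
      rw [← Finset.insert_Ioc_right_eq_Ioc_add_one hm, Finset.sum_insert (by simp), add_comm]
    rw [e]
    have e2 : ∑ n ∈ Ioc N m, pz t ((n : ℝ) + u) + pz t (((m + 1 : ℕ) : ℝ) + u) -
        (E_G t u ((m + 1 : ℕ) : ℝ) - E_G t u N) =
        (∑ n ∈ Ioc N m, pz t ((n : ℝ) + u) - (E_G t u m - E_G t u N)) +
        (pz t (((m + 1 : ℕ) : ℝ) + u) - (E_G t u ((m + 1 : ℕ) : ℝ) - E_G t u m)) := by ring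
    rw [e2]
    refine (norm_add_le _ _).trans ?_
    linarith

theorem E_G_norm (t u x : ℝ) (ht : t ≠ 0) (hx : 0 ≤ x + u) : ‖E_G t u x‖ ≤ (x + u) / |t| := by
  unfold E_G
  rw [norm_div, norm_mul, E_pz_norm, mul_one, Complex.norm_real, Real.norm_of_nonneg hx]
  exact div_le_div_of_nonneg_left hx (abs_pos.2 ht) (E_norm t)

theorem p_E : S_E := by
  intro t u N N' ht hu hu1 hN hNN' hN'
  have hN1 : (1 : ℝ) ≤ N := by exact_mod_cast hN
  have h1 : (N : ℝ) ≤ N' := by exact_mod_cast hNN'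
  have h2 : (N' : ℝ) ≤ 2 * N := by exact_mod_cast hN'
  have h3 := E_sum t u N (by linarith) N' hNN'
  have h4 : Real.log ((N' : ℝ) + u) - Real.log ((N : ℝ) + u) ≤ 1 := by
    rw [← Real.log_div (by linarith) (by linarith)]
    have h5 : ((N' : ℝ) + u) / ((N : ℝ) + u) ≤ 2 := by
      rw [div_le_iff₀ (by linarith)]
      linarith
    have h6 := Real.log_le_sub_one_of_pos (x := ((N' : ℝ) + u) / ((N : ℝ) + u))
      (by apply div_pos <;> linarith)
    linarith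
  have h7 := E_G_norm t u N' ht (by linarith)
  have h8 := E_G_norm t u N ht (by linarith)
  have htp : 0 < |t| := abs_pos.2 ht
  have h9 : ((N' : ℝ) + u) / |t| + ((N : ℝ) + u) / |t| ≤ 5 * N / |t| := by
    rw [← add_div]
    apply div_le_div_of_nonneg_right _ htp.le
    linarith
  have h10 : |t| * (Real.log ((N' : ℝ) + u) - Real.log ((N : ℝ) + u)) ≤ |t| := by
    nlinarith
  calc ‖∑ n ∈ Ioc N N', pz t ((n : ℝ) + u)‖
      = ‖(∑ n ∈ Ioc N N', pz t ((n : ℝ) + u) - (E_G t u N' - E_G t u N)) +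
          (E_G t u N' - E_G t u N)‖ := by rw [sub_add_cancel]
    _ ≤ ‖∑ n ∈ Ioc N N', pz t ((n : ℝ) + u) - (E_G t u N' - E_G t u N)‖ +
          ‖E_G t u N' - E_G t u N‖ := norm_add_le _ _
    _ ≤ |t| + (‖E_G t u N'‖ + ‖E_G t u N‖) := by
        apply add_le_add (h3.trans h10) (norm_sub_le _ _)
    _ ≤ 5 * N / |t| + |t| := by linarith

end Pool.Agent.CH.V
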