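import Pool.Agent.Lib.MP_d610d0_nt.CH.V.Stm

set_option autoImplicit false

/-!
Piece Z.
-/

namespace Pool.Agent.CH.V

open Finset Filter

theorem Z_pz_norm (t x : ℝ) : ‖pz t x‖ = 1 := by
  unfold pz
  rw [Complex.norm_exp]
  simp

theorem Z_tele (f : ℕ → ℂ) (N N' : ℕ) (hN : N ≤ N') :
    ∑ n ∈ Ioc N N', (f n - f (n + 1)) = f (N + 1) - f (N' + 1) := by
  induction N', hN using Nat.le_induction with
  | base => simp
  | succ m hm ih =>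
    rw [Finset.sum_Ioc_succ_top hm, ih]
    ring

theorem Z_shift (g : ℕ → ℂ) (hg : ∀ n, ‖g n‖ ≤ 1) (N N' : ℕ) (hN : N ≤ N') (h : ℕ) :
    ‖∑ n ∈ Ioc N N', g n - ∑ n ∈ Ioc N N', g (n + h)‖ ≤ 2 * (h : ℝ) := by
  induction h with
  | zero => simp
  | succ h ih =>
    have h1 : ∑ n ∈ Ioc N N', g n - ∑ n ∈ Ioc N N', g (n + (h + 1))
        = (∑ n ∈ Ioc N N', g n - ∑ n ∈ Ioc N N', g (n + h))
          + ∑ n ∈ Ioc N N', (g (n + h) - g (n + 1 + h)) := by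
      rw [Finset.sum_sub_distrib]
      have : ∀ n, g (n + (h + 1)) = g (n + 1 + h) := fun n => by congr 1; ring
      simp only [this]
      ring
    rw [h1, Z_tele (fun n => g (n + h)) N N' hN]
    have h2 := hg (N + 1 + h)
    have h3 := hg (N' + 1 + h)
    have h4 := norm_add_le (∑ n ∈ Ioc N N', g n - ∑ n ∈ Ioc N N', g (n + h))
      (g (N + 1 + h) - g (N' + 1 + h))
    have h5 := norm_sub_le (g (N + 1 + h)) (g (N' + 1 + h))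
    push_cast
    linarith

/-- The inner double sum. -/
theorem Z_inner (htay : S_tay) (t c M : ℝ) (k Y : ℕ) (ht : 0 ≤ t) (hM : 0 < M) (hMc : M ≤ c)
    (hY : (Y : ℝ) ^ 2 ≤ M) :
    ‖∑ x ∈ Icc 1 Y, ∑ y ∈ Icc 1 Y, pz t (c + (x : ℝ) * y)‖
      ≤ ‖TT k Y (fun m => al t c m)‖ + (Y : ℝ) ^ 2 * (t * ((Y : ℝ) ^ 2 / M) ^ (k + 1)) := by
  have hc : 0 < c := lt_of_lt_of_le hM hMc
  have h1 : ∑ x ∈ Icc 1 Y, ∑ y ∈ Icc 1 Y, pz t (c + (x : ℝ) * y)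
      = pz t c * TT k Y (fun m => al t c m)
        + ∑ x ∈ Icc 1 Y, ∑ y ∈ Icc 1 Y, (pz t (c + (x : ℝ) * y)
          - pz t c * ex (∑ m : Fin k, al t c m * ((x : ℝ) * y) ^ ((m : ℕ) + 1))) := by
    unfold TT
    rw [Finset.mul_sum, ← Finset.sum_add_distrib]
    refine Finset.sum_congr rfl fun x _ => ?_
    rw [Finset.mul_sum, ← Finset.sum_add_distrib]
    refine Finset.sum_congr rfl fun y _ => ?_
    ring
  rw [h1]
  refine (norm_add_le _ _).trans ?_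
  apply add_le_add
  · rw [norm_mul, Z_pz_norm, one_mul]
  · have hterm : ∀ x ∈ Icc 1 Y, ∀ y ∈ Icc 1 Y, ‖pz t (c + (x : ℝ) * y)
          - pz t c * ex (∑ m : Fin k, al t c m * ((x : ℝ) * y) ^ ((m : ℕ) + 1))‖
          ≤ t * ((Y : ℝ) ^ 2 / M) ^ (k + 1) := by
      intro x hx y hy
      rw [Finset.mem_Icc] at hx hy
      have hx' : (x : ℝ) ≤ Y := by exact_mod_cast hx.2
      have hy' : (y : ℝ) ≤ Y := by exact_mod_cast hy.2
      have hx0 : (0 : ℝ) ≤ x := by positivity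
      have hy0 : (0 : ℝ) ≤ y := by positivity
      have hxy : (x : ℝ) * y ≤ (Y : ℝ) ^ 2 := by nlinarith
      have h2 := htay t c ((x : ℝ) * y) k ht hc (by positivity) (by linarith)
      refine h2.trans ?_
      apply mul_le_mul_of_nonneg_left _ ht
      apply pow_le_pow_left₀ (by positivity)
      exact div_le_div₀ (by positivity) hxy hM hMc
    calc ‖∑ x ∈ Icc 1 Y, ∑ y ∈ Icc 1 Y, (pz t (c + (x : ℝ) * y)
          - pz t c * ex (∑ m : Fin k, al t c m * ((x : ℝ) * y) ^ ((m : ℕ) + 1)))‖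
        ≤ ∑ x ∈ Icc 1 Y, ∑ y ∈ Icc 1 Y, t * ((Y : ℝ) ^ 2 / M) ^ (k + 1) := by
          refine (norm_sum_le _ _).trans ?_
          apply Finset.sum_le_sum
          intro x hx
          refine (norm_sum_le _ _).trans ?_
          apply Finset.sum_le_sum
          intro y hy
          exact hterm x hx y hy
      _ = (Y : ℝ) ^ 2 * (t * ((Y : ℝ) ^ 2 / M) ^ (k + 1)) := by
          simp only [Finset.sum_const, Nat.card_Icc, nsmul_eq_mul]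
          simp
          ring

/-- The averaging argument. -/
theorem Z_avg (t u : ℝ) (N N' Y : ℕ) (hN : N ≤ N') (B : ℝ)
    (hB : ∀ n ∈ Ioc N N', ‖∑ x ∈ Icc 1 Y, ∑ y ∈ Icc 1 Y, pz t (((n : ℝ) + u) + (x : ℝ) * y)‖ ≤ B) :
    (Y : ℝ) ^ 2 * ‖∑ n ∈ Ioc N N', pz t ((n : ℝ) + u)‖
      ≤ 2 * (Y : ℝ) ^ 4 + ((N' : ℝ) - N) * B := by
  set S : ℂ := ∑ n ∈ Ioc N N', pz t ((n : ℝ) + u) with hS
  have h1 : ((Y : ℂ) ^ 2) * S = ∑ x ∈ Icc 1 Y, ∑ y ∈ Icc 1 Y,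
        (S - ∑ n ∈ Ioc N N', pz t (((n + x * y : ℕ) : ℝ) + u))
      + ∑ n ∈ Ioc N N', ∑ x ∈ Icc 1 Y, ∑ y ∈ Icc 1 Y, pz t (((n : ℝ) + u) + (x : ℝ) * y) := by
    have h2 : ∑ n ∈ Ioc N N', ∑ x ∈ Icc 1 Y, ∑ y ∈ Icc 1 Y, pz t (((n : ℝ) + u) + (x : ℝ) * y)
        = ∑ x ∈ Icc 1 Y, ∑ y ∈ Icc 1 Y, ∑ n ∈ Ioc N N', pz t (((n + x * y : ℕ) : ℝ) + u) := by
      rw [Finset.sum_comm]
      refine Finset.sum_congr rfl fun x _ => ?_
      rw [Finset.sum_comm]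
      refine Finset.sum_congr rfl fun y _ => ?_
      refine Finset.sum_congr rfl fun n _ => ?_
      congr 1
      push_cast
      ring
    rw [h2, ← Finset.sum_add_distrib]
    have h3 : ∀ x ∈ Icc 1 Y, (∑ y ∈ Icc 1 Y,
        (S - ∑ n ∈ Ioc N N', pz t (((n + x * y : ℕ) : ℝ) + u))
        + ∑ y ∈ Icc 1 Y, ∑ n ∈ Ioc N N', pz t (((n + x * y : ℕ) : ℝ) + u)) = (Y : ℂ) * S := by
      intro x _
      rw [← Finset.sum_add_distrib]
      simp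
    rw [Finset.sum_congr rfl h3]
    simp
    ring
  have h4 : ‖((Y : ℂ) ^ 2) * S‖ = (Y : ℝ) ^ 2 * ‖S‖ := by
    rw [norm_mul, norm_pow, Complex.norm_natCast]
  rw [← h4, h1]
  refine (norm_add_le _ _).trans ?_
  apply add_le_add
  · have hterm : ∀ x ∈ Icc 1 Y, ∀ y ∈ Icc 1 Y,
        ‖S - ∑ n ∈ Ioc N N', pz t (((n + x * y : ℕ) : ℝ) + u)‖ ≤ 2 * (Y : ℝ) ^ 2 := by
      intro x hx y hy
      rw [Finset.mem_Icc] at hx hy
      have h5 := Z_shift (fun n => pz t ((n : ℝ) + u)) (fun n => (Z_pz_norm _ _).le) N N' hN (x * y)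
      have h6 : ((x * y : ℕ) : ℝ) ≤ (Y : ℝ) ^ 2 := by
        have : x * y ≤ Y ^ 2 := by nlinarith [hx.2, hy.2]
        exact_mod_cast this
      refine h5.trans ?_
      linarith
    calc ‖∑ x ∈ Icc 1 Y, ∑ y ∈ Icc 1 Y,
        (S - ∑ n ∈ Ioc N N', pz t (((n + x * y : ℕ) : ℝ) + u))‖
        ≤ ∑ x ∈ Icc 1 Y, ∑ y ∈ Icc 1 Y, 2 * (Y : ℝ) ^ 2 := by
          refine (norm_sum_le _ _).trans ?_
          apply Finset.sum_le_sum
          intro x hx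
          refine (norm_sum_le _ _).trans ?_
          apply Finset.sum_le_sum
          intro y hy
          exact hterm x hx y hy
      _ = 2 * (Y : ℝ) ^ 4 := by
          simp only [Finset.sum_const, Nat.card_Icc, nsmul_eq_mul]
          simp
          ring
  · calc ‖∑ n ∈ Ioc N N', ∑ x ∈ Icc 1 Y, ∑ y ∈ Icc 1 Y, pz t (((n : ℝ) + u) + (x : ℝ) * y)‖
        ≤ ∑ n ∈ Ioc N N', B := by
          refine (norm_sum_le _ _).trans ?_
          exact Finset.sum_le_sum hB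
      _ = ((N' : ℝ) - N) * B := by
          rw [Finset.sum_const, Nat.card_Ioc, nsmul_eq_mul, Nat.cast_sub hN]

theorem p_Z : S_Z := by
  intro htay C1 hC1 hT τ u N N' hτ hlog hu0 hu1 hNN' hN'
  -- N ≥ 2
  have hlog1 : (1 : ℝ) < Real.log N := by nlinarith
  have hN1 : (1 : ℝ) < (N : ℝ) := by
    by_contra hcon
    push Not at hcon
    have := Real.log_nonpos (by positivity) hcon
    linarith
  have hN0 : (0 : ℝ) < (N : ℝ) := by linarith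
  set Y := ⌊(N : ℝ) ^ (2 / 5 : ℝ)⌋₊ with hY
  have hYle : (Y : ℝ) ≤ (N : ℝ) ^ (2 / 5 : ℝ) := Nat.floor_le (by positivity)
  have hY1 : 1 ≤ Y := by
    rw [hY, Nat.one_le_floor_iff]
    exact Real.one_le_rpow hN1.le (by norm_num)
  have hY1' : (1 : ℝ) ≤ (Y : ℝ) := by exact_mod_cast hY1
  have hY2 : (Y : ℝ) ^ 2 ≤ (N : ℝ) ^ (4 / 5 : ℝ) := by
    calc (Y : ℝ) ^ 2 ≤ ((N : ℝ) ^ (2 / 5 : ℝ)) ^ 2 := pow_le_pow_left₀ (by positivity) hYle _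
      _ = (N : ℝ) ^ (4 / 5 : ℝ) := by
        rw [← Real.rpow_natCast, ← Real.rpow_mul hN0.le]; norm_num
  have hYN : (Y : ℝ) ^ 2 ≤ (N : ℝ) := by
    refine hY2.trans ?_
    calc (N : ℝ) ^ (4 / 5 : ℝ) ≤ (N : ℝ) ^ (1 : ℝ) :=
          Real.rpow_le_rpow_of_exponent_le hN1.le (by norm_num)
      _ = N := Real.rpow_one _
  set k := kk τ with hk
  have hk5 : 5 * τ + 3 ≤ (k : ℝ) + 1 := by
    rw [hk]; unfold kk
    push_cast
    have := Nat.le_ceil (5 * τ)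
    linarith
  have hk1 : 1 ≤ k := by rw [hk]; unfold kk; omega
  have hk1' : (1 : ℝ) ≤ (k : ℝ) := by exact_mod_cast hk1
  set δ : ℝ := 1 / (33 * (k : ℝ) ^ 6) with hδ
  have hδ5 : δ ≤ 1 / 5 := by
    rw [hδ]
    apply one_div_le_one_div_of_le (by norm_num)
    have : (1 : ℝ) ≤ (k : ℝ) ^ 6 := one_le_pow₀ hk1'
    linarith
  set t : ℝ := (N : ℝ) ^ τ with ht
  have ht0 : 0 ≤ t := by positivity
  have herr : t * ((Y : ℝ) ^ 2 / N) ^ (k + 1) ≤ (N : ℝ) ^ (-(3 / 5) : ℝ) := by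
    have h1 : (Y : ℝ) ^ 2 / N ≤ (N : ℝ) ^ (-(1 / 5) : ℝ) := by
      rw [div_le_iff₀ hN0]
      refine hY2.trans (le_of_eq ?_)
      nth_rewrite 3 [← Real.rpow_one (N : ℝ)]
      rw [← Real.rpow_add hN0]; norm_num
    have h2 : ((Y : ℝ) ^ 2 / N) ^ (k + 1) ≤ ((N : ℝ) ^ (-(1 / 5) : ℝ)) ^ (k + 1) :=
      pow_le_pow_left₀ (by positivity) h1 _
    calc t * ((Y : ℝ) ^ 2 / N) ^ (k + 1) ≤ (N : ℝ) ^ τ * ((N : ℝ) ^ (-(1 / 5) : ℝ)) ^ (k + 1) :=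
          mul_le_mul_of_nonneg_left h2 ht0
      _ = (N : ℝ) ^ (τ - (k + 1) / 5) := by
          rw [← Real.rpow_natCast, ← Real.rpow_mul hN0.le, ← Real.rpow_add hN0]
          congr 1; push_cast; ring
      _ ≤ (N : ℝ) ^ (-(3 / 5) : ℝ) := by
          apply Real.rpow_le_rpow_of_exponent_le hN1.le
          linarith
  set B : ℝ := 2 * (Y : ℝ) ^ 2 * (N : ℝ) ^ (-δ) + (Y : ℝ) ^ 2 * (N : ℝ) ^ (-(3 / 5) : ℝ) with hBdef
  have hB : ∀ n ∈ Ioc N N', ‖∑ x ∈ Icc 1 Y, ∑ y ∈ Icc 1 Y, pz t (((n : ℝ) + u) + (x : ℝ) * y)‖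
      ≤ B := by
    intro n hn
    rw [Finset.mem_Ioc] at hn
    have hn1 : (N : ℝ) ≤ (n : ℝ) := by exact_mod_cast hn.1.le
    have hn2 : (n : ℝ) ≤ 2 * N := by exact_mod_cast (hn.2.trans hN')
    have hc1 : (N : ℝ) ≤ (n : ℝ) + u := by linarith
    have hc2 : (n : ℝ) + u ≤ 3 * N := by linarith
    have h1 := Z_inner htay t ((n : ℝ) + u) N k Y ht0 hN0 hc1 hYN
    have h2 := hT τ N ((n : ℝ) + u) hτ hlog hc1 hc2
    refine h1.trans ?_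
    rw [hBdef]
    apply add_le_add h2
    exact mul_le_mul_of_nonneg_left herr (by positivity)
  have hav := Z_avg t u N N' Y hNN' B hB
  have hB0 : 0 ≤ B := by rw [hBdef]; positivity
  have hNN : ((N' : ℝ) - N) ≤ N := by
    have : (N' : ℝ) ≤ 2 * N := by exact_mod_cast hN'
    linarith
  have h3 : (Y : ℝ) ^ 2 * ‖∑ n ∈ Ioc N N', pz t ((n : ℝ) + u)‖ ≤ (Y : ℝ) ^ 2 *
      (2 * (Y : ℝ) ^ 2 + N * (2 * (N : ℝ) ^ (-δ) + (N : ℝ) ^ (-(3 / 5) : ℝ))) := by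
    refine hav.trans ?_
    have h4 : ((N' : ℝ) - N) * B ≤ N * B := mul_le_mul_of_nonneg_right hNN hB0
    have h5 : (Y : ℝ) ^ 2 *
      (2 * (Y : ℝ) ^ 2 + N * (2 * (N : ℝ) ^ (-δ) + (N : ℝ) ^ (-(3 / 5) : ℝ)))
      = 2 * (Y : ℝ) ^ 4 + N * B := by rw [hBdef]; ring
    rw [h5]
    linarith
  have h6 := le_of_mul_le_mul_left h3 (by positivity)
  refine h6.trans ?_
  have h7 : (N : ℝ) * (N : ℝ) ^ (-δ) = (N : ℝ) ^ (1 - δ) := by
    nth_rewrite 1 [← Real.rpow_one (N : ℝ)]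
    rw [← Real.rpow_add hN0]; congr 1
  have h8 : (N : ℝ) * (N : ℝ) ^ (-(3 / 5) : ℝ) ≤ (N : ℝ) ^ (1 - δ) := by
    nth_rewrite 1 [← Real.rpow_one (N : ℝ)]
    rw [← Real.rpow_add hN0]
    apply Real.rpow_le_rpow_of_exponent_le hN1.le
    linarith
  have h9 : (Y : ℝ) ^ 2 ≤ (N : ℝ) ^ (1 - δ) := by
    refine hY2.trans ?_
    apply Real.rpow_le_rpow_of_exponent_le hN1.le
    linarith
  have h10 : (N : ℝ) * (2 * (N : ℝ) ^ (-δ) + (N : ℝ) ^ (-(3 / 5) : ℝ))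
      = 2 * ((N : ℝ) * (N : ℝ) ^ (-δ)) + (N : ℝ) * (N : ℝ) ^ (-(3 / 5) : ℝ) := by ring
  rw [h10, h7]
  linarith

end Pool.Agent.CH.V
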