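import Pool.Agent.Lib.MP_d610d0_nt.CH.V.Stm

set_option autoImplicit false

/-!
Piece b1.
-/

namespace Pool.Agent.CH.V

open Finset Filter

theorem b1_ex_add (x y : ℝ) : ex (x + y) = ex x * ex y := by
  unfold ex
  rw [← Complex.exp_add]; congr 1; push_cast; ring

theorem b1_ex_zero : ex 0 = 1 := by
  unfold ex; simp

theorem b1_ex_neg (x : ℝ) : (starRingEnd ℂ) (ex x) = ex (-x) := by
  unfold ex
  rw [← Complex.exp_conj]; congr 1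
  simp only [map_mul, Complex.conj_I, Complex.conj_ofReal, Complex.ofReal_neg]
  rw [show (starRingEnd ℂ) (2 : ℂ) = 2 from map_ofNat _ 2]
  ring

theorem b1_ex_sum {ι : Type} (S : Finset ι) (f : ι → ℝ) : ex (∑ i ∈ S, f i) = ∏ i ∈ S, ex (f i) := by
  classical
  induction S using Finset.induction_on with
  | empty => simp [b1_ex_zero]
  | insert a S ha ih => rw [Finset.sum_insert ha, Finset.prod_insert ha, b1_ex_add, ih]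

theorem b1_holder {ι : Type} (S : Finset ι) (f : ι → ℂ) (n : ℕ) (hn : 1 ≤ n) :
    ‖∑ i ∈ S, f i‖ ^ n ≤ (S.card : ℝ) ^ (n - 1) * ∑ i ∈ S, ‖f i‖ ^ n := by
  obtain ⟨m, rfl⟩ : ∃ m, n = m + 1 := ⟨n - 1, by omega⟩
  have h1 : ‖∑ i ∈ S, f i‖ ^ (m + 1) ≤ (∑ i ∈ S, ‖f i‖) ^ (m + 1) :=
    pow_le_pow_left₀ (norm_nonneg _) (norm_sum_le _ _) _
  refine h1.trans ?_
  exact pow_sum_le_card_mul_sum_pow (fun i _ => norm_nonneg _) m

/-- The linear form. -/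
theorem b1_lin_sum {k b : ℕ} (c : Fin k → ℝ) (y : Fin b → ℤ) :
    (∑ m, c m * ((PS k y m : ℤ) : ℝ)) = ∑ i, ∑ m, c m * ((ph k (y i) m : ℤ) : ℝ) := by
  rw [Finset.sum_comm]
  refine Finset.sum_congr rfl fun m _ => ?_
  unfold PS
  rw [Finset.sum_apply, Int.cast_sum, Finset.mul_sum]

theorem b1_gpow {k : ℕ} (b Y : ℕ) (c : Fin k → ℝ) :
    (∑ y ∈ Icc (1 : ℤ) Y, ex (∑ m, c m * ((ph k y m : ℤ) : ℝ))) ^ b
      = ∑ y ∈ Tup b (Icc (1 : ℤ) Y), ex (∑ m, c m * ((PS k y m : ℤ) : ℝ)) := by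
  rw [Finset.sum_pow']
  unfold Tup
  refine Finset.sum_congr rfl fun y _ => ?_
  rw [b1_lin_sum, b1_ex_sum]

theorem b1_PS_bound {k b Y : ℕ} (y : Fin b → ℤ) (hy : y ∈ Tup b (Icc (1 : ℤ) Y)) (m : Fin k) :
    0 ≤ PS k y m ∧ PS k y m ≤ b * (Y : ℤ) ^ ((m : ℕ) + 1) := by
  unfold Tup at hy
  rw [Fintype.mem_piFinset] at hy
  unfold PS
  rw [Finset.sum_apply]
  constructor
  · apply Finset.sum_nonneg
    intro i _
    unfold ph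
    have := Finset.mem_Icc.mp (hy i)
    have h0 : 0 ≤ y i := by linarith [this.1]
    positivity
  · have h1 : ∑ i : Fin b, ph k (y i) m ≤ ∑ i : Fin b, (Y : ℤ) ^ ((m : ℕ) + 1) := by
      apply Finset.sum_le_sum
      intro i _
      unfold ph
      have := Finset.mem_Icc.mp (hy i)
      have h0 : 0 ≤ y i := by linarith [this.1]
      exact pow_le_pow_left₀ h0 this.2 _
    simpa using h1

theorem b1_expand {k : ℕ} (b Y : ℕ) (c : Fin k → ℝ) :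
    (((‖∑ y ∈ Icc (1 : ℤ) Y, ex (∑ m, c m * ((ph k y m : ℤ) : ℝ))‖ ^ (2 * b) : ℝ)) : ℂ)
      = ∑ v ∈ Fintype.piFinset (fun m : Fin k =>
          Icc (-((b : ℤ) * Y ^ ((m : ℕ) + 1))) (b * Y ^ ((m : ℕ) + 1))),
        ((((Tup b (Icc 1 (Y : ℤ)) ×ˢ Tup b (Icc 1 (Y : ℤ))).filter
          (fun p => PS k p.1 = PS k p.2 + v)).card : ℝ) : ℂ) * ex (∑ m, c m * ((v m : ℤ) : ℝ)) := by
  set g : ℂ := ∑ y ∈ Icc (1 : ℤ) Y, ex (∑ m, c m * ((ph k y m : ℤ) : ℝ)) with hg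
  have h1 : (((‖g‖ ^ (2 * b) : ℝ)) : ℂ) = g ^ b * (starRingEnd ℂ) (g ^ b) := by
    rw [Complex.mul_conj', norm_pow]
    push_cast
    rw [← pow_mul, mul_comm]
  rw [h1, hg, b1_gpow, map_sum, Finset.sum_mul_sum, ← Finset.sum_product']
  have h2 : ∀ p ∈ Tup b (Icc (1 : ℤ) Y) ×ˢ Tup b (Icc (1 : ℤ) Y),
      ex (∑ m, c m * ((PS k p.1 m : ℤ) : ℝ)) * (starRingEnd ℂ) (ex (∑ m, c m * ((PS k p.2 m : ℤ) : ℝ)))
        = ex (∑ m, c m * (((PS k p.1 - PS k p.2) m : ℤ) : ℝ)) := by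
    intro p _
    rw [b1_ex_neg, ← b1_ex_add]
    congr 1
    rw [← Finset.sum_neg_distrib, ← Finset.sum_add_distrib]
    refine Finset.sum_congr rfl fun m _ => ?_
    rw [Pi.sub_apply]
    push_cast
    ring
  rw [Finset.sum_congr rfl h2]
  have h3 : ∀ p ∈ Tup b (Icc (1 : ℤ) Y) ×ˢ Tup b (Icc (1 : ℤ) Y),
      PS k p.1 - PS k p.2 ∈ Fintype.piFinset (fun m : Fin k =>
          Icc (-((b : ℤ) * (Y : ℤ) ^ ((m : ℕ) + 1))) (b * (Y : ℤ) ^ ((m : ℕ) + 1))) := by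
    intro p hp
    rw [Finset.mem_product] at hp
    rw [Fintype.mem_piFinset]
    intro m
    have ha := b1_PS_bound (k := k) p.1 hp.1 m
    have hb := b1_PS_bound (k := k) p.2 hp.2 m
    rw [Finset.mem_Icc, Pi.sub_apply]
    constructor <;> linarith [ha.1, ha.2, hb.1, hb.2]
  rw [← Finset.sum_fiberwise_of_maps_to h3]
  refine Finset.sum_congr rfl fun v _ => ?_
  have h4 : ∀ p ∈ (Tup b (Icc (1 : ℤ) Y) ×ˢ Tup b (Icc (1 : ℤ) Y)).filter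
      (fun p => PS k p.1 - PS k p.2 = v),
      ex (∑ m, c m * (((PS k p.1 - PS k p.2) m : ℤ) : ℝ)) = ex (∑ m, c m * ((v m : ℤ) : ℝ)) := by
    intro p hp
    rw [(Finset.mem_filter.mp hp).2]
  rw [Finset.sum_congr rfl h4, Finset.sum_const, nsmul_eq_mul]
  congr 1
  have h5 : (Tup b (Icc (1 : ℤ) Y) ×ˢ Tup b (Icc (1 : ℤ) Y)).filter
      (fun p => PS k p.1 - PS k p.2 = v) = (Tup b (Icc (1 : ℤ) Y) ×ˢ Tup b (Icc (1 : ℤ) Y)).filter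
      (fun p => PS k p.1 = PS k p.2 + v) := by
    apply Finset.filter_congr
    intro p _
    rw [sub_eq_iff_eq_add, add_comm v]
  rw [h5]
  push_cast
  rfl

theorem b1_inner (k Y x : ℕ) (α : Fin k → ℝ) :
    ∑ y ∈ Icc 1 Y, ex (∑ m, α m * ((x : ℝ) * y) ^ ((m : ℕ) + 1))
      = ∑ y ∈ Icc (1 : ℤ) Y,
        ex (∑ m, (α m * (x : ℝ) ^ ((m : ℕ) + 1)) * ((ph k y m : ℤ) : ℝ)) := by
  apply Finset.sum_bij (fun (y : ℕ) _ => (y : ℤ))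
  · intro y hy
    rw [Finset.mem_Icc] at hy ⊢
    constructor <;> exact_mod_cast (by omega)
  · intro a _ b _ h
    exact_mod_cast h
  · intro z hz
    rw [Finset.mem_Icc] at hz
    refine ⟨z.toNat, ?_, ?_⟩
    · rw [Finset.mem_Icc]; omega
    · omega
  · intro y hy
    congr 1
    refine Finset.sum_congr rfl fun m _ => ?_
    unfold ph
    push_cast
    rw [mul_pow]
    ring

theorem p_b1 : S_b1 := by
  intro b k Y α hb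
  have h0 : ‖TT k Y α‖ ^ (2 * b) ≤ (Y : ℝ) ^ (2 * b - 1) *
      ∑ x ∈ Icc 1 Y, ‖∑ y ∈ Icc 1 Y, ex (∑ m, α m * ((x : ℝ) * y) ^ ((m : ℕ) + 1))‖ ^ (2 * b) := by
    unfold TT
    have := b1_holder (Icc 1 Y) (fun x => ∑ y ∈ Icc 1 Y, ex (∑ m, α m * ((x : ℝ) * y) ^ ((m : ℕ) + 1)))
      (2 * b) (by omega)
    simpa using this
  refine h0.trans ?_
  apply mul_le_mul_of_nonneg_left _ (by positivity)
  set box := Fintype.piFinset (fun m : Fin k =>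
    Icc (-((b : ℤ) * (Y : ℤ) ^ ((m : ℕ) + 1))) (b * (Y : ℤ) ^ ((m : ℕ) + 1))) with hbox
  set J : (Fin k → ℤ) → ℝ := fun v => (((Tup b (Icc 1 (Y : ℤ)) ×ˢ Tup b (Icc 1 (Y : ℤ))).filter
          (fun p => PS k p.1 = PS k p.2 + v)).card : ℝ) with hJ
  have hJ0 : ∀ v, 0 ≤ J v := fun v => by rw [hJ]; positivity
  have h1 : (((∑ x ∈ Icc 1 Y, ‖∑ y ∈ Icc 1 Y, ex (∑ m, α m * ((x : ℝ) * y) ^ ((m : ℕ) + 1))‖
      ^ (2 * b) : ℝ)) : ℂ) = ∑ v ∈ box, ((J v : ℝ) : ℂ) *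
        ∑ x ∈ Icc 1 Y, ex (∑ m, α m * v m * (x : ℝ) ^ ((m : ℕ) + 1)) := by
    rw [Complex.ofReal_sum]
    have h2 : ∀ x ∈ Icc 1 Y,
        (((‖∑ y ∈ Icc 1 Y, ex (∑ m, α m * ((x : ℝ) * y) ^ ((m : ℕ) + 1))‖ ^ (2 * b) : ℝ)) : ℂ)
        = ∑ v ∈ box, ((J v : ℝ) : ℂ) * ex (∑ m, α m * v m * (x : ℝ) ^ ((m : ℕ) + 1)) := by
      intro x _
      rw [b1_inner, b1_expand]
      refine Finset.sum_congr rfl fun v _ => ?_
      congr 2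
      refine Finset.sum_congr rfl fun m _ => ?_
      ring
    rw [Finset.sum_congr rfl h2, Finset.sum_comm]
    refine Finset.sum_congr rfl fun v _ => ?_
    rw [Finset.mul_sum]
  have h3 : (0 : ℝ) ≤ ∑ x ∈ Icc 1 Y, ‖∑ y ∈ Icc 1 Y, ex (∑ m, α m * ((x : ℝ) * y) ^ ((m : ℕ) + 1))‖
      ^ (2 * b) := Finset.sum_nonneg fun _ _ => by positivity
  calc (∑ x ∈ Icc 1 Y, ‖∑ y ∈ Icc 1 Y, ex (∑ m, α m * ((x : ℝ) * y) ^ ((m : ℕ) + 1))‖ ^ (2 * b))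
      = ‖(((∑ x ∈ Icc 1 Y, ‖∑ y ∈ Icc 1 Y, ex (∑ m, α m * ((x : ℝ) * y) ^ ((m : ℕ) + 1))‖
          ^ (2 * b) : ℝ)) : ℂ)‖ := by
        rw [Complex.norm_real, Real.norm_eq_abs, abs_of_nonneg h3]
    _ = ‖∑ v ∈ box, ((J v : ℝ) : ℂ) *
        ∑ x ∈ Icc 1 Y, ex (∑ m, α m * v m * (x : ℝ) ^ ((m : ℕ) + 1))‖ := by rw [h1]
    _ ≤ ∑ v ∈ box, ‖((J v : ℝ) : ℂ) *
        ∑ x ∈ Icc 1 Y, ex (∑ m, α m * v m * (x : ℝ) ^ ((m : ℕ) + 1))‖ := norm_sum_le _ _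
    _ = ∑ v ∈ box, J v * ‖∑ x ∈ Icc 1 Y, ex (∑ m, α m * v m * (x : ℝ) ^ ((m : ℕ) + 1))‖ := by
        refine Finset.sum_congr rfl fun v _ => ?_
        rw [norm_mul, Complex.norm_real, Real.norm_eq_abs, abs_of_nonneg (hJ0 v)]

end Pool.Agent.CH.V
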