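import Pool.Agent.Lib.MP_d610d0_nt.CH.V.Stm
import Pool.Agent.Lib.MP_d610d0_nt.CH.V.p_b1

set_option autoImplicit false

/-!
Piece b2.
-/

namespace Pool.Agent.CH.V

open Finset Filter

/-- Weighted power mean. -/
theorem b2_mean {ι : Type} (S : Finset ι) (J g : ι → ℝ) (hJ : ∀ i ∈ S, 0 ≤ J i)
    (hg : ∀ i ∈ S, 0 ≤ g i) (b : ℕ) (hb : 1 ≤ b) :
    (∑ i ∈ S, J i * g i) ^ b ≤ (∑ i ∈ S, J i) ^ (b - 1) * ∑ i ∈ S, J i * g i ^ b := by
  have h0 : 0 ≤ ∑ i ∈ S, J i := Finset.sum_nonneg hJ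
  rcases h0.eq_or_lt with h | h
  · have hz : ∀ i ∈ S, J i = 0 := (Finset.sum_eq_zero_iff_of_nonneg hJ).1 h.symm
    have h1 : ∑ i ∈ S, J i * g i = 0 := Finset.sum_eq_zero fun i hi => by rw [hz i hi, zero_mul]
    have h2 : ∑ i ∈ S, J i * g i ^ b = 0 :=
      Finset.sum_eq_zero fun i hi => by rw [hz i hi, zero_mul]
    rw [h1, h2, zero_pow (by omega), mul_zero]
  · set T := ∑ i ∈ S, J i with hT
    have h1 := Real.pow_arith_mean_le_arith_mean_pow S (fun i => J i / T) g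
      (fun i hi => div_nonneg (hJ i hi) h.le) (by rw [← Finset.sum_div, ← hT, div_self h.ne'])
      hg b
    have h2 : ∑ i ∈ S, J i / T * g i = (∑ i ∈ S, J i * g i) / T := by
      rw [Finset.sum_div]; exact Finset.sum_congr rfl fun i _ => by ring
    have h3 : ∑ i ∈ S, J i / T * g i ^ b = (∑ i ∈ S, J i * g i ^ b) / T := by
      rw [Finset.sum_div]; exact Finset.sum_congr rfl fun i _ => by ring
    rw [h2, h3, div_pow, div_le_div_iff₀ (pow_pos h _) h] at h1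
    obtain ⟨c, rfl⟩ : ∃ c, b = c + 1 := ⟨b - 1, by omega⟩
    rw [pow_succ T, ← mul_assoc] at h1
    have h4 := le_of_mul_le_mul_right h1 h
    rw [Nat.add_sub_cancel, mul_comm (T ^ c)]
    exact h4

theorem b2_mean_sq {ι : Type} (S : Finset ι) (J g : ι → ℝ) (hJ : ∀ i ∈ S, 0 ≤ J i)
    (hg : ∀ i ∈ S, 0 ≤ g i) (b : ℕ) (hb : 1 ≤ b) :
    (∑ i ∈ S, J i * g i) ^ (2 * b) ≤ (∑ i ∈ S, J i) ^ (2 * b - 2) * ((∑ i ∈ S, J i ^ 2) *
      ∑ i ∈ S, g i ^ (2 * b)) := by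
  have h1 := b2_mean S J g hJ hg b hb
  have h2 : 0 ≤ ∑ i ∈ S, J i * g i :=
    Finset.sum_nonneg fun i hi => mul_nonneg (hJ i hi) (hg i hi)
  have h3 := pow_le_pow_left₀ (pow_nonneg h2 b) h1 2
  rw [← pow_mul, mul_pow, ← pow_mul] at h3
  have h4 : (∑ i ∈ S, J i * g i ^ b) ^ 2 ≤ (∑ i ∈ S, J i ^ 2) * ∑ i ∈ S, (g i ^ b) ^ 2 :=
    Finset.sum_mul_sq_le_sq_mul_sq S J (fun i => g i ^ b)
  have h5 : ∑ i ∈ S, (g i ^ b) ^ 2 = ∑ i ∈ S, g i ^ (2 * b) :=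
    Finset.sum_congr rfl fun i _ => by rw [← pow_mul, mul_comm]
  rw [h5] at h4
  have h6 : (b - 1) * 2 = 2 * b - 2 := by omega
  rw [h6, mul_comm b 2] at h3
  refine h3.trans (mul_le_mul_of_nonneg_left h4 ?_)
  exact pow_nonneg (Finset.sum_nonneg hJ) _

theorem b2_card (b Y : ℕ) : (Tup b (Icc (1 : ℤ) Y)).card = Y ^ b := by
  unfold Tup
  rw [Fintype.card_piFinset]
  simp

theorem b2_sum (b k Y : ℕ) :
    (∑ v ∈ Fintype.piFinset (fun m : Fin k =>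
        Icc (-((b : ℤ) * Y ^ ((m : ℕ) + 1))) (b * Y ^ ((m : ℕ) + 1))),
      (((Tup b (Icc 1 (Y : ℤ)) ×ˢ Tup b (Icc 1 (Y : ℤ))).filter
        (fun p => PS k p.1 = PS k p.2 + v)).card : ℝ)) = (Y : ℝ) ^ (2 * b) := by
  classical
  have h3 : ∀ p ∈ Tup b (Icc (1 : ℤ) Y) ×ˢ Tup b (Icc (1 : ℤ) Y),
      PS k p.1 - PS k p.2 ∈ Fintype.piFinset (fun m : Fin k =>
          Icc (-((b : ℤ) * (Y : ℤ) ^ ((m : ℕ) + 1))) (b * (Y : ℤ) ^ ((m : ℕ) + 1))) := by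
    intro p hp
    rw [Finset.mem_product] at hp
    rw [Fintype.mem_piFinset]
    intro m
    have ha := b1_PS_bound (k := k) p.1 hp.1 m
    have hb := b1_PS_bound (k := k) p.2 hp.2 m
    rw [Finset.mem_Icc, Pi.sub_apply]
    constructor <;> linarith [ha.1, ha.2, hb.1, hb.2]
  have h4 := Finset.card_eq_sum_card_fiberwise h3
  rw [Finset.card_product, b2_card] at h4
  have h5 : ∀ v : Fin k → ℤ, ((Tup b (Icc (1 : ℤ) Y) ×ˢ Tup b (Icc (1 : ℤ) Y)).filter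
      (fun p => PS k p.1 = PS k p.2 + v)).card =
      ((Tup b (Icc (1 : ℤ) Y) ×ˢ Tup b (Icc (1 : ℤ) Y)).filter
      (fun p => PS k p.1 - PS k p.2 = v)).card := by
    intro v
    congr 1
    apply Finset.filter_congr
    intro p _
    rw [sub_eq_iff_eq_add, add_comm v]
  rw [← Nat.cast_sum, Finset.sum_congr rfl fun v _ => h5 v, ← h4]
  push_cast
  rw [two_mul, pow_add]

theorem b2_box {k : ℕ} (t : Fin k → Finset ℤ) (f : Fin k → ℤ → ℝ) :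
    (∑ v ∈ Fintype.piFinset t, ex (∑ m, f m (v m))) = ∏ m : Fin k, ∑ v ∈ t m, ex (f m v) := by
  classical
  rw [Finset.prod_univ_sum]
  exact Finset.sum_congr rfl fun v _ => b1_ex_sum _ _

theorem p_b2 : S_b2 := by
  classical
  intro hinh b k Y α hb
  set box := Fintype.piFinset (fun m : Fin k =>
    Icc (-((b : ℤ) * (Y : ℤ) ^ ((m : ℕ) + 1))) (b * (Y : ℤ) ^ ((m : ℕ) + 1))) with hbox
  set J : (Fin k → ℤ) → ℝ := fun v => (((Tup b (Icc 1 (Y : ℤ)) ×ˢ Tup b (Icc 1 (Y : ℤ))).filter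
          (fun p => PS k p.1 = PS k p.2 + v)).card : ℝ) with hJ
  set g : (Fin k → ℤ) → ℝ := fun v =>
    ‖∑ x ∈ Icc 1 Y, ex (∑ m, α m * v m * (x : ℝ) ^ ((m : ℕ) + 1))‖ with hg
  have hJ0 : ∀ v, 0 ≤ J v := fun v => by rw [hJ]; positivity
  have hg0 : ∀ v, 0 ≤ g v := fun v => norm_nonneg _
  have hJN : ∀ v, J v ≤ (JN b k Y : ℝ) := by
    intro v
    have := hinh (Fin b → ℤ) k (Tup b (Icc 1 (Y : ℤ))) (PS k) v
    have h' : ((((Tup b (Icc 1 (Y : ℤ)) ×ˢ Tup b (Icc 1 (Y : ℤ))).filter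
          (fun p => PS k p.1 = PS k p.2 + v)).card : ℕ) : ℝ) ≤ ((JN b k Y : ℕ) : ℝ) := by
      exact Nat.cast_le.2 this
    exact h'
  have hS : ∑ v ∈ box, J v = (Y : ℝ) ^ (2 * b) := b2_sum b k Y
  have hS2 : ∑ v ∈ box, J v ^ 2 ≤ (JN b k Y : ℝ) * (Y : ℝ) ^ (2 * b) := by
    rw [← hS, Finset.mul_sum]
    refine Finset.sum_le_sum fun v _ => ?_
    rw [sq]
    exact mul_le_mul_of_nonneg_right (hJN v) (hJ0 v)
  -- the inner sum
  have hgc : ∀ v : Fin k → ℤ, ((g v ^ (2 * b) : ℝ) : ℂ) =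
      ∑ w ∈ box, ((J w : ℝ) : ℂ) * ex (∑ m, α m * (w m : ℝ) * (v m : ℝ)) := by
    intro v
    have h1 : ∑ x ∈ Icc 1 Y, ex (∑ m, α m * v m * (x : ℝ) ^ ((m : ℕ) + 1)) =
        ∑ y ∈ Icc (1 : ℤ) Y, ex (∑ m, (α m * v m) * ((ph k y m : ℤ) : ℝ)) := by
      have := b1_inner k Y 1 (fun m => α m * v m)
      simpa using this
    rw [hg]
    simp only
    rw [h1, b1_expand]
    refine Finset.sum_congr rfl fun w _ => ?_
    congr 2
    exact Finset.sum_congr rfl fun m _ => by ring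
  have hG : ∑ v ∈ box, g v ^ (2 * b) ≤
      (JN b k Y : ℝ) * ∏ m : Fin k, Sm (α m) (b * Y ^ ((m : ℕ) + 1)) := by
    have h1 : ((∑ v ∈ box, g v ^ (2 * b) : ℝ) : ℂ) =
        ∑ w ∈ box, ((J w : ℝ) : ℂ) * ∑ v ∈ box, ex (∑ m, α m * (w m : ℝ) * (v m : ℝ)) := by
      rw [Complex.ofReal_sum, Finset.sum_congr rfl fun v _ => hgc v, Finset.sum_comm]
      exact Finset.sum_congr rfl fun w _ => by rw [Finset.mul_sum]
    have h2 : ∀ w : Fin k → ℤ, ∑ v ∈ box, ex (∑ m, α m * (w m : ℝ) * (v m : ℝ)) =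
        ∏ m : Fin k, ∑ v ∈ Icc (-((b : ℤ) * (Y : ℤ) ^ ((m : ℕ) + 1))) (b * (Y : ℤ) ^ ((m : ℕ) + 1)),
          ex (α m * (w m : ℝ) * (v : ℝ)) := by
      intro w
      exact b2_box _ (fun m v => α m * (w m : ℝ) * (v : ℝ))
    have h0 : (0 : ℝ) ≤ ∑ v ∈ box, g v ^ (2 * b) :=
      Finset.sum_nonneg fun v _ => pow_nonneg (hg0 v) _
    calc ∑ v ∈ box, g v ^ (2 * b) = ‖((∑ v ∈ box, g v ^ (2 * b) : ℝ) : ℂ)‖ := by
          rw [Complex.norm_real, Real.norm_eq_abs, abs_of_nonneg h0]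
      _ ≤ ∑ w ∈ box, ‖((J w : ℝ) : ℂ) *
            ∑ v ∈ box, ex (∑ m, α m * (w m : ℝ) * (v m : ℝ))‖ := by
          rw [h1]; exact norm_sum_le _ _
      _ = ∑ w ∈ box, J w * ∏ m : Fin k,
            ‖∑ v ∈ Icc (-((b : ℤ) * (Y : ℤ) ^ ((m : ℕ) + 1))) (b * (Y : ℤ) ^ ((m : ℕ) + 1)),
              ex (α m * (w m : ℝ) * (v : ℝ))‖ := by
          refine Finset.sum_congr rfl fun w _ => ?_
          rw [norm_mul, Complex.norm_real, Real.norm_eq_abs, abs_of_nonneg (hJ0 w), h2, norm_prod]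
      _ ≤ ∑ w ∈ box, (JN b k Y : ℝ) * ∏ m : Fin k,
            ‖∑ v ∈ Icc (-((b : ℤ) * (Y : ℤ) ^ ((m : ℕ) + 1))) (b * (Y : ℤ) ^ ((m : ℕ) + 1)),
              ex (α m * (w m : ℝ) * (v : ℝ))‖ := by
          refine Finset.sum_le_sum fun w _ => mul_le_mul_of_nonneg_right (hJN w) ?_
          exact Finset.prod_nonneg fun m _ => norm_nonneg _
      _ = (JN b k Y : ℝ) * ∏ m : Fin k, Sm (α m) (b * Y ^ ((m : ℕ) + 1)) := by
          rw [← Finset.mul_sum]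
          congr 1
          unfold Sm
          rw [Finset.prod_univ_sum]
          have hb' : (Fintype.piFinset fun m : Fin k =>
              Icc (-((b * Y ^ ((m : ℕ) + 1) : ℕ) : ℤ)) ((b * Y ^ ((m : ℕ) + 1) : ℕ) : ℤ)) = box := by
            rw [hbox]
            congr 1
          rw [hb']
          push_cast <;> rfl
  have hmain := b2_mean_sq box J g (fun v _ => hJ0 v) (fun v _ => hg0 v) b hb
  rw [hS] at hmain
  refine hmain.trans ?_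
  rw [mul_assoc]
  refine mul_le_mul_of_nonneg_left ?_ (by positivity)
  refine mul_le_mul hS2 hG (Finset.sum_nonneg fun v _ => pow_nonneg (hg0 v) _) (by positivity)

end Pool.Agent.CH.V
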