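import Pool.Agent.Lib.MP_d610d0_nt.CH.V.Stm

set_option autoImplicit false

/-!
Piece bad.
-/

namespace Pool.Agent.CH.V

open Finset Filter

theorem p_bad : S_bad := by
  intro hun hfour hoB hshd hsa k s p N hp hk
  have : NeZero p := ⟨hp.ne_zero⟩
  classical
  set Ω := (Tup (s + k) (Icc 1 (N : ℤ))).filter (fun x =>
    (univ.image (fun i => ((x i : ℤ) : ZMod p))).card < k) with hΩ
  have h1 : ∀ x ∈ Ω, ∃ t ∈ (univ : Finset ((Fin (k - 1) → ZMod p) × (Fin (s + k) → Fin (k - 1)))),
      x ∈ Fintype.piFinset (fun i => Sa N p (t.1 (t.2 i))) := by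
    intro x hx
    rw [hΩ, mem_filter, Tup, Fintype.mem_piFinset] at hx
    obtain ⟨hx1, hx2⟩ := hx
    have hc : Fintype.card (univ.image (fun i => ((x i : ℤ) : ZMod p)) : Finset (ZMod p)) ≤
        Fintype.card (Fin (k - 1)) := by
      rw [Fintype.card_coe, Fintype.card_fin]; omega
    obtain ⟨e⟩ := Function.Embedding.nonempty_of_card_le hc
    refine ⟨(Function.extend e Subtype.val 0,
      fun i => e ⟨((x i : ℤ) : ZMod p), mem_image_of_mem _ (mem_univ i)⟩), mem_univ _, ?_⟩
    rw [Fintype.mem_piFinset]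
    intro i
    rw [Sa, mem_filter]
    refine ⟨hx1 i, ?_⟩
    show ((x i : ℤ) : ZMod p) = Function.extend e Subtype.val 0
      (e ⟨((x i : ℤ) : ZMod p), mem_image_of_mem _ (mem_univ i)⟩)
    rw [e.injective.extend_apply]
  have h2 := hun _ _ _ univ (fun t : (Fin (k - 1) → ZMod p) × (Fin (s + k) → Fin (k - 1)) =>
    Fintype.piFinset (fun i => Sa N p (t.1 (t.2 i)))) Ω (PS k) h1
  have h3 : ∀ t : (Fin (k - 1) → ZMod p) × (Fin (s + k) → Fin (k - 1)),
      col (Fintype.piFinset (fun i => Sa N p (t.1 (t.2 i)))) (PS k) ≤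
        JN (s + k) k (N / p + 1) := by
    intro t
    obtain ⟨l, hl⟩ := hoB hfour k (s + k) (fun i => Sa N p (t.1 (t.2 i))) (by omega)
    exact hl.trans (hsa hshd (s + k) k N p _ hp.one_le)
  have h4 : (univ : Finset ((Fin (k - 1) → ZMod p) × (Fin (s + k) → Fin (k - 1)))).card ≤
      p ^ (k - 1) * k ^ (s + k) := by
    rw [card_univ, Fintype.card_prod, Fintype.card_fun, Fintype.card_fun, ZMod.card,
      Fintype.card_fin, Fintype.card_fin]
    gcongr
    omega
  refine h2.trans ?_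
  calc _ ≤ (univ : Finset ((Fin (k - 1) → ZMod p) × (Fin (s + k) → Fin (k - 1)))).card *
        ((univ : Finset ((Fin (k - 1) → ZMod p) × (Fin (s + k) → Fin (k - 1)))).card *
          JN (s + k) k (N / p + 1)) := by
        gcongr
        exact (sum_le_card_nsmul _ _ _ (fun t _ => h3 t)).trans (by rw [smul_eq_mul])
    _ ≤ (p ^ (k - 1) * k ^ (s + k)) * ((p ^ (k - 1) * k ^ (s + k)) *
          JN (s + k) k (N / p + 1)) := by gcongr
    _ = _ := by ring

end Pool.Agent.CH.V
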