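import Pool.Agent.Lib.MP_d610d0_nt.CH.V.Stm

set_option autoImplicit false

/-!
Piece bil.
-/

namespace Pool.Agent.CH.V

open Finset Filter

lemma bil_exp (b : ℕ) (hb : 1 ≤ b) (y : ℝ) :
    (y ^ (2 * b - 1)) ^ (2 * b) * (y ^ (2 * b)) ^ (2 * b - 2) * y ^ (2 * b)
      = y ^ (8 * b ^ 2 - 4 * b) := by
  rw [← pow_mul, ← pow_mul, ← pow_add, ← pow_add]
  congr 1
  obtain ⟨c, rfl⟩ : ∃ c, b = c + 1 := ⟨b - 1, by omega⟩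
  have a1 : 2 * (c + 1) - 1 = 2 * c + 1 := by omega
  have a2 : 2 * (c + 1) - 2 = 2 * c := by omega
  have a3 : 8 * (c + 1) ^ 2 - 4 * (c + 1) = 8 * c ^ 2 + 12 * c + 4 := by
    have : 8 * (c + 1) ^ 2 = 8 * c ^ 2 + 12 * c + 4 + 4 * (c + 1) := by ring
    omega
  rw [a1, a2, a3]
  ring

lemma bil_aux (b : ℕ) (hb : 1 ≤ b) (t y X J P : ℝ) (ht : 0 ≤ t) (hy : 0 ≤ y)
    (h1 : t ^ (2 * b) ≤ y ^ (2 * b - 1) * X)
    (h2 : X ^ (2 * b) ≤ (y ^ (2 * b)) ^ (2 * b - 2) * (J * y ^ (2 * b)) * (J * P)) :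
    t ^ (4 * b ^ 2) ≤ y ^ (8 * b ^ 2 - 4 * b) * J ^ 2 * P := by
  have e1 : t ^ (4 * b ^ 2) = (t ^ (2 * b)) ^ (2 * b) := by
    rw [← pow_mul]
    congr 1
    ring
  rw [e1]
  have h3 : (t ^ (2 * b)) ^ (2 * b) ≤ (y ^ (2 * b - 1) * X) ^ (2 * b) :=
    pow_le_pow_left₀ (pow_nonneg ht _) h1 _
  refine h3.trans ?_
  rw [mul_pow]
  have h4 : (y ^ (2 * b - 1)) ^ (2 * b) * X ^ (2 * b) ≤
      (y ^ (2 * b - 1)) ^ (2 * b) * ((y ^ (2 * b)) ^ (2 * b - 2) * (J * y ^ (2 * b)) * (J * P)) :=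
    mul_le_mul_of_nonneg_left h2 (pow_nonneg (pow_nonneg hy _) _)
  refine h4.trans (le_of_eq ?_)
  rw [← bil_exp b hb y]
  ring

theorem p_bil : S_bil := by
  intro hinh hb1 hb2 b k Y α hb
  exact bil_aux b hb _ _ _ _ _ (norm_nonneg _) (Nat.cast_nonneg Y) (hb1 b k Y α hb)
    (hb2 hinh b k Y α hb)

end Pool.Agent.CH.V
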