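import Pool.Agent.Lib.MP_d610d0_nt.CH.V.Stm

set_option autoImplicit false

/-!
Piece colA.
-/

namespace Pool.Agent.CH.V

open Finset Filter

private theorem colA_PS (k s : ℕ) (x : Fin s → ℤ) (m : Fin k) :
    PS k x m = ∑ i, x i ^ ((m : ℕ) + 1) := by
  unfold PS ph
  rw [Finset.sum_apply]

/-- the representative in `{1, ..., p}` -/
private theorem colA_rep (N p : ℕ) (hp : 1 ≤ p) (a : ZMod p) : ∃ b : ℤ, 1 ≤ b ∧ b ≤ p ∧
    (∀ y ∈ Sa N p a, (p : ℤ) ∣ y - b) ∧
    Sa N p a ⊆ (Icc 1 (((N / p + 1 : ℕ)) : ℤ)).image (fun v => (b - p) + (p : ℤ) * v) := by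
  have hne : NeZero p := ⟨by omega⟩
  have hcast : ((((a - 1).val : ℤ) + 1 : ℤ) : ZMod p) = a := by
    push_cast
    rw [ZMod.natCast_zmod_val]; ring
  have hlt := ZMod.val_lt (a - 1)
  have h1 : ∀ y ∈ Sa N p a, (p : ℤ) ∣ y - (((a - 1).val : ℤ) + 1) := by
    intro y hy
    rw [Sa, mem_filter] at hy
    apply (ZMod.intCast_zmod_eq_zero_iff_dvd _ _).1
    rw [Int.cast_sub, hcast, hy.2, sub_self]
  refine ⟨((a - 1).val : ℤ) + 1, by omega, by omega, h1, ?_⟩
  intro y hy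
  obtain ⟨u, hu⟩ := h1 y hy
  rw [Sa, mem_filter, mem_Icc] at hy
  obtain ⟨⟨hy1, hy2⟩, _⟩ := hy
  have hp0 : (0 : ℤ) < p := by exact_mod_cast hp
  have hu0 : 0 ≤ u := by
    by_contra h
    have : (p : ℤ) * u ≤ (p : ℤ) * (-1) := mul_le_mul_of_nonneg_left (by omega) hp0.le
    have h3 : (((a - 1).val : ℕ) : ℤ) < p := by exact_mod_cast hlt
    linarith
  have hu1 : u ≤ ((N / p : ℕ) : ℤ) := by
    push_cast
    rw [Int.le_ediv_iff_mul_le hp0]
    have h3 : (0 : ℤ) ≤ ((a - 1).val : ℤ) := by positivity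
    nlinarith
  rw [mem_image]
  refine ⟨u + 1, ?_, by linear_combination -hu⟩
  rw [mem_Icc]
  push_cast at hu1 ⊢
  constructor <;> linarith

theorem p_colA : S_colA := by
  intro hshx hshd hinh hfact hpad k s p N hp hk hkp hN a
  classical
  obtain ⟨b, hb1, hb2, hb3, hb4⟩ := colA_rep N p hp.one_le a
  have hp0 : (p : ℤ) ≠ 0 := by exact_mod_cast hp.ne_zero
  set S' := (Sa N p a).image (fun y => y + (-b)) with hS'
  set A' := (Dist k p (Icc 1 (N : ℤ))).image (fun x i => x i + (-b)) with hA'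
  rw [← hshx k s k (Dist k p (Icc 1 (N : ℤ))) (Sa N p a) (-b)]
  -- the number of solutions in `S'`
  have hJ : Jn s k S' ≤ JN s k (N / p + 1) := by
    have e1 : S' = (Sa N p a).image (fun y => (-b) + 1 * y) := by
      rw [hS']; congr 1; funext y; ring
    rw [e1, (hshd s k (Sa N p a) ∅ (-b) 1 one_ne_zero).1]
    refine ((hshd s k (Sa N p a) _ 0 1 one_ne_zero).2 hb4).trans ?_
    rw [(hshd s k (Icc 1 (((N / p + 1 : ℕ)) : ℤ)) ∅ (b - p) p hp0).1]
    exact le_refl _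
  have hdv : ∀ w ∈ Tup s S', ∀ l, (p : ℤ) ∣ w l := by
    intro w hw l
    rw [Tup, Fintype.mem_piFinset] at hw
    have := hw l
    rw [hS', mem_image] at this
    obtain ⟨y, hy, hyw⟩ := this
    rw [← hyw, ← sub_eq_add_neg]
    exact hb3 y hy
  have hAD : ∀ x ∈ A', x ∈ Dist k p (Icc (1 - b) ((N : ℤ) - b)) := by
    intro x hx
    rw [hA', mem_image] at hx
    obtain ⟨y, hy, rfl⟩ := hx
    rw [Dist, mem_filter, Tup, Fintype.mem_piFinset] at hy ⊢
    refine ⟨fun i => ?_, ?_⟩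
    · have := mem_Icc.1 (hy.1 i)
      rw [mem_Icc]
      constructor <;> linarith
    · intro i j hij
      apply hy.2
      simpa using hij
  have hAc : A'.card ≤ N ^ k := by
    refine card_image_le.trans ((card_filter_le _ _).trans ?_)
    rw [Tup, Fintype.card_piFinset_const, Int.card_Icc]
    simp
  -- pairs `(x', x)`
  set B := (A' ×ˢ A').filter (fun q : (Fin k → ℤ) × (Fin k → ℤ) =>
    ∀ m : Fin k, (p : ℤ) ^ ((m : ℕ) + 1) ∣ (∑ i, q.2 i ^ ((m : ℕ) + 1)) - PS k q.1 m) with hB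
  have hBc : B.card ≤ N ^ k * (k.factorial * p ^ (k * (k - 1) / 2)) := by
    have h1 : ∀ q ∈ B, q.1 ∈ A' := fun q hq => (mem_product.1 (mem_filter.1 hq).1).1
    rw [card_eq_sum_card_fiberwise h1]
    refine (sum_le_card_nsmul _ _ (k.factorial * p ^ (k * (k - 1) / 2)) ?_).trans ?_
    · intro x' _
      have h2 := hpad hfact k p hp hk hkp (-b) (Icc (1 - b) ((N : ℤ) - b)) (by
        intro y hy
        rw [mem_Icc] at hy
        rw [mem_Ioc]
        have : (N : ℤ) ≤ (p : ℤ) ^ k := by exact_mod_cast hN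
        constructor <;> linarith) (PS k x')
      refine le_trans ?_ h2
      apply card_le_card_of_injOn (fun q => q.2)
      · intro q hq
        rw [mem_coe, mem_filter, hB, mem_filter, mem_product] at hq
        rw [mem_coe, mem_filter]
        refine ⟨hAD _ hq.1.1.2, ?_⟩
        rw [← hq.2]
        exact hq.1.2
      · intro q hq q' hq' h
        rw [mem_coe, mem_filter] at hq hq'
        exact Prod.ext (hq.2.trans hq'.2.symm) h
    · rw [smul_eq_mul]
      gcongr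
  -- the fibres
  unfold colx col
  have hmap : ∀ z ∈ ((A' ×ˢ Fintype.piFinset (fun _ : Fin s => S')) ×ˢ
      (A' ×ˢ Fintype.piFinset (fun _ : Fin s => S'))).filter (fun z =>
        PS k z.1.1 + PS k z.1.2 = PS k z.2.1 + PS k z.2.2), (z.2.1, z.1.1) ∈ B := by
    intro z hz
    rw [mem_filter, mem_product, mem_product, mem_product] at hz
    obtain ⟨⟨⟨hz1, hz2⟩, hz3, hz4⟩, hz5⟩ := hz
    rw [hB, mem_filter, mem_product]
    refine ⟨⟨hz3, hz1⟩, fun m => ?_⟩
    have h5 := congrFun hz5 m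
    rw [Pi.add_apply, Pi.add_apply] at h5
    have h6 : (∑ i, z.1.1 i ^ ((m : ℕ) + 1)) - PS k z.2.1 m =
        (∑ l, z.2.2 l ^ ((m : ℕ) + 1)) - ∑ l, z.1.2 l ^ ((m : ℕ) + 1) := by
      rw [← colA_PS k k z.1.1 m, ← colA_PS k s z.2.2 m, ← colA_PS k s z.1.2 m]
      linarith
    show (p : ℤ) ^ ((m : ℕ) + 1) ∣ (∑ i, z.1.1 i ^ ((m : ℕ) + 1)) - PS k z.2.1 m
    rw [h6]
    apply dvd_sub
    · exact dvd_sum (fun l _ => pow_dvd_pow_of_dvd (hdv _ hz4 l) _)
    · exact dvd_sum (fun l _ => pow_dvd_pow_of_dvd (hdv _ hz2 l) _)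
  rw [card_eq_sum_card_fiberwise hmap]
  refine (sum_le_card_nsmul _ _ (JN s k (N / p + 1)) ?_).trans ?_
  · intro q _
    refine le_trans ?_ hJ
    refine le_trans ?_ (hinh (Fin s → ℤ) k (Tup s S') (PS k) (PS k q.1 - PS k q.2))
    apply card_le_card_of_injOn (fun z => (z.1.2, z.2.2))
    · intro z hz
      rw [mem_coe, mem_filter, mem_filter, mem_product, mem_product, mem_product] at hz
      obtain ⟨⟨⟨⟨hz1, hz2⟩, hz3, hz4⟩, hz5⟩, hz6⟩ := hz
      rw [mem_coe, mem_filter, mem_product]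
      refine ⟨⟨hz2, hz4⟩, ?_⟩
      rw [← hz6]
      show PS k z.1.2 = PS k z.2.2 + (PS k z.2.1 - PS k z.1.1)
      have : PS k z.1.2 = (PS k z.1.1 + PS k z.1.2) - PS k z.1.1 := by abel
      rw [this, hz5]
      abel
    · intro z hz z' hz' h
      rw [mem_coe, mem_filter] at hz hz'
      have h1 := hz.2.trans hz'.2.symm
      simp only [Prod.mk.injEq] at h h1
      exact Prod.ext (Prod.ext h1.2 h.1) (Prod.ext h1.1 h.2)
  · rw [smul_eq_mul]
    gcongr

end Pool.Agent.CH.V
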