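import Pool.Agent.Lib.MP_d610d0_nt.CH.V.Stm

set_option autoImplicit false

/-!
Piece fac.
-/

namespace Pool.Agent.CH.V

open Finset Filter

theorem fac_one (k : ℕ) (hk : 7 ≤ k) :
    ((k : ℝ) ^ (6 * k)) ^ (k * (k + 1) / 2) ≤ Real.exp ((k : ℝ) ^ 5) := by
  have hk' : (7 : ℝ) ≤ k := by exact_mod_cast hk
  have h1 : (k : ℝ) ≤ Real.exp ((k : ℝ) - 1) := by
    have := Real.add_one_le_exp ((k : ℝ) - 1)
    linarith
  obtain ⟨m, hm⟩ := Nat.even_mul_succ_self k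
  have hm2 : k * (k + 1) / 2 = m := by omega
  have hm3 : 2 * (m : ℝ) = (k : ℝ) * (k + 1) := by
    have : ((k * (k + 1) : ℕ) : ℝ) = ((m + m : ℕ) : ℝ) := by rw [hm]
    push_cast at this
    linarith
  rw [hm2, ← pow_mul]
  calc (k : ℝ) ^ (6 * k * m) ≤ (Real.exp ((k : ℝ) - 1)) ^ (6 * k * m) :=
        pow_le_pow_left₀ (by positivity) h1 _
    _ = Real.exp (((6 * k * m : ℕ) : ℝ) * ((k : ℝ) - 1)) := by rw [← Real.exp_nat_mul]
    _ ≤ Real.exp ((k : ℝ) ^ 5) := by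
        apply Real.exp_le_exp.2
        push_cast
        have h2 : 6 * (k : ℝ) * m * ((k : ℝ) - 1) = 3 * (k : ℝ) * ((k : ℝ) * (k + 1)) * (k - 1) := by
          rw [← hm3]; ring
        rw [h2]
        have h3 : (k : ℝ) ^ 5 - 3 * (k : ℝ) * ((k : ℝ) * (k + 1)) * (k - 1) =
            (k : ℝ) ^ 2 * ((k : ℝ) ^ 2 * ((k : ℝ) - 3) + 3) := by ring
        have h4 : 0 ≤ (k : ℝ) ^ 2 * ((k : ℝ) ^ 2 * ((k : ℝ) - 3) + 3) := by
          have : 0 ≤ (k : ℝ) - 3 := by linarith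
          positivity
        linarith

theorem fac_two (k : ℕ) (hk : 7 ≤ k) (s : ℕ) (hs : s + k ≤ bb k) :
    4 * ((s : ℝ) + k) ^ (2 * k) * (k : ℝ) ^ k * 2 ^ (2 * s + k ^ 2) ≤ Real.exp (2 * (bb k : ℝ)) := by
  have hk' : (7 : ℝ) ≤ k := by exact_mod_cast hk
  have he1 : (2.7182818283 : ℝ) < Real.exp 1 := Real.exp_one_gt_d9
  have he2 : (7 : ℝ) ≤ Real.exp 2 := by
    have : Real.exp 2 = Real.exp 1 * Real.exp 1 := by rw [← Real.exp_add]; norm_num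
    rw [this]; nlinarith
  have hkexp : (k : ℝ) ≤ Real.exp ((k : ℝ) / 7 + 1) := by
    have h1 := Real.add_one_le_exp ((k : ℝ) / 7 - 1)
    have h2 : Real.exp ((k : ℝ) / 7 + 1) = Real.exp ((k : ℝ) / 7 - 1) * Real.exp 2 := by
      rw [← Real.exp_add]; congr 1; ring
    rw [h2]
    have h3 : (k : ℝ) = ((k : ℝ) / 7) * 7 := by ring
    have h4 : ((k : ℝ) / 7) * 7 ≤ Real.exp ((k : ℝ) / 7 - 1) * Real.exp 2 :=
      mul_le_mul (by linarith) he2 (by norm_num) (Real.exp_pos _).le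
    linarith
  have hb : (bb k : ℝ) = (k : ℝ) ^ 3 + (k : ℝ) ^ 2 := by simp [bb]
  have hbexp : (bb k : ℝ) ≤ Real.exp (3 * (k : ℝ) / 7 + 22 / 7) := by
    have h1 : Real.exp (3 * (k : ℝ) / 7 + 22 / 7) =
        Real.exp (1 / 7) * (Real.exp ((k : ℝ) / 7 + 1)) ^ 3 := by
      rw [← Real.exp_nat_mul, ← Real.exp_add]; congr 1; push_cast; ring
    rw [h1, hb]
    have h2 : (8 / 7 : ℝ) ≤ Real.exp (1 / 7) := by
      have := Real.add_one_le_exp (1 / 7 : ℝ)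
      linarith
    have h3 : (k : ℝ) ^ 3 ≤ (Real.exp ((k : ℝ) / 7 + 1)) ^ 3 := pow_le_pow_left₀ (by positivity) hkexp _
    have h4 : (8 / 7 : ℝ) * (k : ℝ) ^ 3 ≤ Real.exp (1 / 7) * (Real.exp ((k : ℝ) / 7 + 1)) ^ 3 :=
      mul_le_mul h2 h3 (by positivity) (Real.exp_pos _).le
    have h5 : (k : ℝ) ^ 2 ≤ (1 / 7 : ℝ) * (k : ℝ) ^ 3 := by nlinarith [sq_nonneg (k : ℝ)]
    linarith
  have hsb : (s : ℝ) + k ≤ bb k := by exact_mod_cast hs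
  have hs' : (s : ℝ) ≤ bb k := by
    have : (0 : ℝ) ≤ k := by positivity
    linarith
  have hlog2 : (2 : ℝ) ≤ Real.exp 0.6932 := by
    rw [← Real.log_le_iff_le_exp (by norm_num)]
    have := Real.log_two_lt_d9
    linarith
  have e1 : (4 : ℝ) ≤ Real.exp 2 := by linarith
  have e2 : ((s : ℝ) + k) ^ (2 * k) ≤ Real.exp (((2 * k : ℕ) : ℝ) * (3 * (k : ℝ) / 7 + 22 / 7)) := by
    rw [Real.exp_nat_mul]
    exact pow_le_pow_left₀ (by positivity) (hsb.trans hbexp) _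
  have e3 : (k : ℝ) ^ k ≤ Real.exp ((k : ℝ) * ((k : ℝ) / 7 + 1)) := by
    rw [Real.exp_nat_mul]
    exact pow_le_pow_left₀ (by positivity) hkexp _
  have e4 : (2 : ℝ) ^ (2 * s + k ^ 2) ≤ Real.exp (((2 * s + k ^ 2 : ℕ) : ℝ) * 0.6932) := by
    rw [Real.exp_nat_mul]
    exact pow_le_pow_left₀ (by positivity) hlog2 _
  calc 4 * ((s : ℝ) + k) ^ (2 * k) * (k : ℝ) ^ k * 2 ^ (2 * s + k ^ 2)
      ≤ Real.exp 2 * Real.exp (((2 * k : ℕ) : ℝ) * (3 * (k : ℝ) / 7 + 22 / 7)) *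
        Real.exp ((k : ℝ) * ((k : ℝ) / 7 + 1)) * Real.exp (((2 * s + k ^ 2 : ℕ) : ℝ) * 0.6932) := by
        gcongr
    _ = Real.exp (2 + ((2 * k : ℕ) : ℝ) * (3 * (k : ℝ) / 7 + 22 / 7) + (k : ℝ) * ((k : ℝ) / 7 + 1) +
        ((2 * s + k ^ 2 : ℕ) : ℝ) * 0.6932) := by
        rw [Real.exp_add, Real.exp_add, Real.exp_add]
    _ ≤ Real.exp (2 * (bb k : ℝ)) := by
        apply Real.exp_le_exp.2
        push_cast
        rw [hb] at hs' ⊢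
        nlinarith [mul_nonneg (sq_nonneg (k : ℝ)) (by linarith : (0 : ℝ) ≤ (k : ℝ) - 7),
          mul_nonneg (by linarith : (0 : ℝ) ≤ (k : ℝ)) (by linarith : (0 : ℝ) ≤ (k : ℝ) - 7)]

theorem fac_three (k : ℕ) (hk : 7 ≤ k) :
    (k : ℝ) * (k + 1) / 2 * (1 - 1 / (k : ℝ)) ^ (k ^ 2) ≤ 1 / 20 := by
  have hk' : (7 : ℝ) ≤ k := by exact_mod_cast hk
  have hk0 : (0 : ℝ) < k := by linarith
  have he1 : (2.7182818283 : ℝ) < Real.exp 1 := Real.exp_one_gt_d9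
  have he7 : (600 : ℝ) ≤ Real.exp 7 := by
    have h1 : Real.exp 7 = (Real.exp 1) ^ 7 := by rw [← Real.exp_nat_mul]; norm_num
    rw [h1]
    calc (600 : ℝ) ≤ (2.7 : ℝ) ^ 7 := by norm_num
      _ ≤ (Real.exp 1) ^ 7 := pow_le_pow_left₀ (by norm_num) (by linarith) _
  have hek : 10 * ((k : ℝ) * (k + 1)) ≤ Real.exp k := by
    have h1 : Real.exp (k : ℝ) = Real.exp 7 * Real.exp ((k : ℝ) - 7) := by
      rw [← Real.exp_add]; congr 1; ring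
    have h2 := Real.quadratic_le_exp_of_nonneg (by linarith : (0 : ℝ) ≤ (k : ℝ) - 7)
    rw [h1]
    have h3 : 600 * (1 + ((k : ℝ) - 7) + ((k : ℝ) - 7) ^ 2 / 2) ≤ Real.exp 7 * Real.exp ((k : ℝ) - 7) :=
      mul_le_mul he7 h2 (by nlinarith) (Real.exp_pos _).le
    nlinarith
  have hle : (1 - 1 / (k : ℝ)) ^ (k ^ 2) ≤ Real.exp (-(k : ℝ)) := by
    have h1 : 1 - 1 / (k : ℝ) ≤ Real.exp (-(1 / (k : ℝ))) := by
      have := Real.add_one_le_exp (-(1 / (k : ℝ)))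
      linarith
    have h0 : 0 ≤ 1 - 1 / (k : ℝ) := by
      have : 1 / (k : ℝ) ≤ 1 := by
        rw [div_le_one hk0]; linarith
      linarith
    calc (1 - 1 / (k : ℝ)) ^ (k ^ 2) ≤ (Real.exp (-(1 / (k : ℝ)))) ^ (k ^ 2) :=
          pow_le_pow_left₀ h0 h1 _
      _ = Real.exp (((k ^ 2 : ℕ) : ℝ) * (-(1 / (k : ℝ)))) := by rw [← Real.exp_nat_mul]
      _ = Real.exp (-(k : ℝ)) := by
          congr 1
          push_cast
          field_simp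
  calc (k : ℝ) * (k + 1) / 2 * (1 - 1 / (k : ℝ)) ^ (k ^ 2)
      ≤ (k : ℝ) * (k + 1) / 2 * Real.exp (-(k : ℝ)) := by gcongr
    _ ≤ 1 / 20 := by
        rw [Real.exp_neg, ← div_eq_mul_inv, div_le_iff₀ (Real.exp_pos _)]
        linarith

theorem p_fac : S_fac := by
  intro k hk
  exact ⟨fac_one k hk, fun s hs => fac_two k hk s hs, fac_three k hk⟩

end Pool.Agent.CH.V
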