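import Pool.Agent.Lib.MP_d610d0_nt.CH.V.Stm

set_option autoImplicit false

/-!
Piece fact.
-/

namespace Pool.Agent.CH.V

open Finset Filter

theorem fact_unit {p k : ℕ} [Fact p.Prime] (hk : 1 ≤ k) (a : ZMod (p ^ k)) :
    IsUnit a ↔ ZMod.castHom (dvd_pow_self p (by omega : k ≠ 0)) (ZMod p) a ≠ 0 := by
  have hp : p.Prime := Fact.out
  have : NeZero (p ^ k) := ⟨pow_ne_zero _ hp.ne_zero⟩
  constructor
  · intro h
    exact (h.map (ZMod.castHom (dvd_pow_self p (by omega : k ≠ 0)) (ZMod p))).ne_zero
  · intro h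
    have h1 : a = ((a.val : ℕ) : ZMod (p ^ k)) := (ZMod.natCast_zmod_val a).symm
    rw [h1, ZMod.isUnit_iff_coprime]
    rw [h1, map_natCast, Ne, ZMod.natCast_eq_zero_iff] at h
    exact Nat.Coprime.pow_right _ ((Nat.Prime.coprime_iff_not_dvd hp).mpr h).symm

theorem fact_match {p k : ℕ} [Fact p.Prime] (hk : 1 ≤ k) (x : Fin k → ZMod (p ^ k))
    (hx : ∀ i j, i ≠ j → IsUnit (x i - x j)) (z : ZMod (p ^ k)) (hz : ∏ i, (z - x i) = 0) :
    ∃ i, z = x i := by
  classical
  have hp : p.Prime := Fact.out
  have : Fact (1 < p ^ k) := ⟨Nat.one_lt_pow (by omega) hp.one_lt⟩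
  set π := ZMod.castHom (dvd_pow_self p (by omega : k ≠ 0)) (ZMod p) with hπ
  have h1 : ∃ i, π (z - x i) = 0 := by
    by_contra hcon
    push Not at hcon
    have h2 : IsUnit (∏ i, (z - x i)) := by
      rw [IsUnit.prod_univ_iff]
      intro i
      exact (fact_unit hk _).mpr (hcon i)
    rw [hz] at h2
    exact not_isUnit_zero h2
  obtain ⟨i, hi⟩ := h1
  refine ⟨i, ?_⟩
  rw [← Finset.mul_prod_erase univ _ (Finset.mem_univ i)] at hz
  have h3 : IsUnit (∏ j ∈ univ.erase i, (z - x j)) := by
    rw [IsUnit.prod_iff]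
    intro j hj
    rw [fact_unit hk]
    have hji : i ≠ j := (Finset.ne_of_mem_erase hj).symm
    have h4 := (fact_unit hk _).mp (hx i j hji)
    have h5 : z - x j = (z - x i) + (x i - x j) := by ring
    rw [h5, map_add]
    change π (z - x i) + _ ≠ 0
    rw [hi, zero_add]
    exact h4
  have h6 := h3.mul_left_eq_zero.mp hz
  exact sub_eq_zero.mp h6

theorem p_fact : S_fact := by
  classical
  intro hnwt k p hp' hk hkp g
  have hp : p.Prime := Fact.out
  have : Fact (1 < p ^ k) := ⟨Nat.one_lt_pow (by omega) hp.one_lt⟩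
  set F := ((univ : Finset (Fin k → ZMod (p ^ k))).filter (fun x =>
    (∀ i j, i ≠ j → IsUnit (x i - x j)) ∧ ∀ m : Fin k, ∑ i, x i ^ ((m : ℕ) + 1) = g m)) with hF
  rcases F.eq_empty_or_nonempty with he | ⟨x, hx⟩
  · have : F.card = 0 := by rw [he]; rfl
    omega
  · have hx' := (Finset.mem_filter.mp hx).2
    have hsub : F ⊆ (univ : Finset (Equiv.Perm (Fin k))).image (fun σ => fun j => x (σ j)) := by
      intro y hy
      have hy' := (Finset.mem_filter.mp hy).2
      have hpoly := hnwt k p hp hkp x y (by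
        intro m hm1 hmk
        have e1 := hx'.2 ⟨m - 1, by omega⟩
        have e2 := hy'.2 ⟨m - 1, by omega⟩
        have e3 : m - 1 + 1 = m := by omega
        simp only [e3] at e1 e2
        rw [e1, e2])
      have h1 : ∀ j, ∃ i, y j = x i := by
        intro j
        apply fact_match hk x hx'.1
        have h2 := congrArg (Polynomial.eval (y j)) hpoly
        rw [Polynomial.eval_prod, Polynomial.eval_prod] at h2
        simp only [Polynomial.eval_sub, Polynomial.eval_X, Polynomial.eval_C] at h2
        rw [h2]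
        exact Finset.prod_eq_zero (Finset.mem_univ j) (sub_self _)
      choose σ hσ using h1
      have hinj : Function.Injective σ := by
        intro i j hij
        by_contra hne
        have h3 := hy'.1 i j hne
        rw [hσ i, hσ j, hij, sub_self] at h3
        exact not_isUnit_zero h3
      rw [Finset.mem_image]
      refine ⟨Equiv.ofBijective σ (Finite.injective_iff_bijective.mp hinj), Finset.mem_univ _, ?_⟩
      funext j
      rw [Equiv.ofBijective_apply]
      exact (hσ j).symm
    calc F.card ≤ _ := Finset.card_le_card hsub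
      _ ≤ (univ : Finset (Equiv.Perm (Fin k))).card := Finset.card_image_le
      _ = k.factorial := by rw [Finset.card_univ, Fintype.card_perm, Fintype.card_fin]

end Pool.Agent.CH.V
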