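import Pool.Agent.Lib.MP_d610d0_nt.CH.V.Stm

set_option autoImplicit false

/-!
Piece four.
-/

namespace Pool.Agent.CH.V

open Finset Filter

/-- The characters. -/
private noncomputable def four_fr (Q k : ℕ) [NeZero Q] (a : Fin k → ZMod Q) (v : Fin k → ℤ) : ℂ :=
  ∏ m, (ZMod.stdAddChar (a m * (v m : ZMod Q)) : ℂ)

private theorem four_add (Q k : ℕ) [NeZero Q] (a : Fin k → ZMod Q) (v w : Fin k → ℤ) :
    four_fr Q k a (v + w) = four_fr Q k a v * four_fr Q k a w := by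
  unfold four_fr
  rw [← Finset.prod_mul_distrib]
  apply Finset.prod_congr rfl
  intro m _
  rw [Pi.add_apply, Int.cast_add, mul_add, AddChar.map_add_eq_mul]

private theorem four_zero (Q k : ℕ) [NeZero Q] (a : Fin k → ZMod Q) : four_fr Q k a 0 = 1 := by
  unfold four_fr
  apply Finset.prod_eq_one
  intro m _
  rw [Pi.zero_apply, Int.cast_zero, mul_zero, AddChar.map_zero_eq_one]

private theorem four_neg (Q k : ℕ) [NeZero Q] (a : Fin k → ZMod Q) (v : Fin k → ℤ) :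
    four_fr Q k a (-v) = (starRingEnd ℂ) (four_fr Q k a v) := by
  unfold four_fr
  rw [map_prod]
  apply Finset.prod_congr rfl
  intro m _
  rw [Pi.neg_apply, Int.cast_neg, mul_neg, AddChar.map_neg_eq_conj]

private theorem four_norm (Q k : ℕ) [NeZero Q] (a : Fin k → ZMod Q) (v : Fin k → ℤ) :
    ‖four_fr Q k a v‖ = 1 := by
  unfold four_fr
  rw [norm_prod]
  apply Finset.prod_eq_one
  intro m _
  exact AddChar.norm_apply _ _

private theorem four_sum (Q k : ℕ) [NeZero Q] (v : Fin k → ℤ) :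
    ∑ a : Fin k → ZMod Q, four_fr Q k a v =
      if ∀ m, (v m : ZMod Q) = 0 then ((Fintype.card (Fin k → ZMod Q) : ℕ) : ℂ) else 0 := by
  unfold four_fr
  have h1 : ∑ a : Fin k → ZMod Q, ∏ m, (ZMod.stdAddChar (a m * (v m : ZMod Q)) : ℂ) =
      ∏ m, ∑ c : ZMod Q, (ZMod.stdAddChar (c * (v m : ZMod Q)) : ℂ) := by
    rw [Finset.prod_univ_sum, Fintype.piFinset_univ]
  rw [h1]
  have h2 : ∀ m, ∑ c : ZMod Q, (ZMod.stdAddChar (c * (v m : ZMod Q)) : ℂ) =
      if (v m : ZMod Q) = 0 then ((Fintype.card (ZMod Q) : ℕ) : ℂ) else 0 := by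
    intro m
    rw [AddChar.sum_mulShift (v m : ZMod Q) (ZMod.isPrimitive_stdAddChar Q)]
    split_ifs <;> simp
  split_ifs with h
  · rw [Finset.prod_congr rfl (fun m _ => (h2 m).trans (if_pos (h m)))]
    simp
  · push Not at h
    obtain ⟨m, hm⟩ := h
    exact Finset.prod_eq_zero (Finset.mem_univ m) ((h2 m).trans (if_neg hm))

private theorem four_sumv (Q k s : ℕ) [NeZero Q] (a : Fin k → ZMod Q) (w : Fin s → ℤ) :
    four_fr Q k a (PS k w) = ∏ l, four_fr Q k a (ph k (w l)) := by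
  unfold PS
  have h : ∀ S : Finset (Fin s), four_fr Q k a (∑ l ∈ S, ph k (w l)) =
      ∏ l ∈ S, four_fr Q k a (ph k (w l)) := by
    intro S
    induction S using Finset.induction_on with
    | empty => rw [Finset.sum_empty, Finset.prod_empty, four_zero]
    | insert i S hi ih => rw [Finset.sum_insert hi, Finset.prod_insert hi, four_add, ih]
  exact h _

/-- The square of the norm of a sum. -/
private theorem four_sq {ι : Type} (Q k : ℕ) [NeZero Q] (Ω : Finset ι) (Φ : ι → Fin k → ℤ)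
    (a : Fin k → ZMod Q) : ((‖∑ p ∈ Ω, four_fr Q k a (Φ p)‖ ^ 2 : ℝ) : ℂ) =
      ∑ p ∈ Ω ×ˢ Ω, four_fr Q k a (Φ p.1 - Φ p.2) := by
  rw [Complex.ofReal_pow, ← Complex.mul_conj', map_sum, Finset.sum_mul_sum,
    Finset.sum_product]
  apply Finset.sum_congr rfl
  intro p _
  apply Finset.sum_congr rfl
  intro p' _
  rw [sub_eq_add_neg, four_add, four_neg]

theorem p_four : S_four := by
  intro α k s A ΦA B
  classical
  let Φ : α × (Fin s → ℤ) → Fin k → ℤ := fun p => ΦA p.1 + PS k p.2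
  let U : Finset (α × (Fin s → ℤ)) := A ×ˢ Fintype.piFinset (fun _ => B)
  obtain ⟨Q, hQ⟩ : ∃ Q : ℕ, Q = 2 * (∑ p ∈ U, ∑ m, (Φ p m).natAbs) + 1 := ⟨_, rfl⟩
  have : NeZero Q := ⟨by omega⟩
  have hsmall : ∀ p ∈ U, ∀ m, (Φ p m).natAbs ≤ ∑ p ∈ U, ∑ m, (Φ p m).natAbs := by
    intro p hp m
    calc (Φ p m).natAbs ≤ ∑ m, (Φ p m).natAbs :=
          Finset.single_le_sum (f := fun m => (Φ p m).natAbs) (fun _ _ => Nat.zero_le _)
            (Finset.mem_univ m)
      _ ≤ ∑ p ∈ U, ∑ m, (Φ p m).natAbs :=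
          Finset.single_le_sum (f := fun p => ∑ m, (Φ p m).natAbs) (fun _ _ => Nat.zero_le _) hp
  have heq : ∀ p ∈ U, ∀ p' ∈ U, (∀ m, (((Φ p - Φ p') m : ℤ) : ZMod Q) = 0) → Φ p = Φ p' := by
    intro p hp p' hp' h
    funext m
    have h1 := h m
    rw [ZMod.intCast_zmod_eq_zero_iff_dvd, Pi.sub_apply] at h1
    have h2 := hsmall p hp m
    have h3 := hsmall p' hp' m
    have h4 : Φ p m - Φ p' m = 0 := by
      apply Int.eq_zero_of_abs_lt_dvd h1
      rw [abs_lt]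
      constructor <;> omega
    omega
  let e := Fintype.equivFin (Fin k → ZMod Q)
  refine ⟨Fintype.card (Fin k → ZMod Q), fun i => four_fr Q k (e.symm i), Fintype.card_pos,
    fun i v w => four_add _ _ _ _ _, fun i v => four_norm _ _ _ _, ?_⟩
  intro Ss hSs
  have hsub : A ×ˢ Fintype.piFinset Ss ⊆ U := by
    apply Finset.product_subset_product_right
    exact Fintype.piFinset_subset _ _ hSs
  have e1 : ∑ i, ‖∑ x ∈ A, four_fr Q k (e.symm i) (ΦA x)‖ ^ 2 *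
        ∏ l, ‖∑ y ∈ Ss l, four_fr Q k (e.symm i) (ph k y)‖ ^ 2 =
      ∑ a : Fin k → ZMod Q, ‖∑ x ∈ A, four_fr Q k a (ΦA x)‖ ^ 2 *
        ∏ l, ‖∑ y ∈ Ss l, four_fr Q k a (ph k y)‖ ^ 2 :=
    Equiv.sum_comp e.symm (fun a => ‖∑ x ∈ A, four_fr Q k a (ΦA x)‖ ^ 2 *
        ∏ l, ‖∑ y ∈ Ss l, four_fr Q k a (ph k y)‖ ^ 2)
  rw [e1]
  have e2 : ∀ a : Fin k → ZMod Q, ‖∑ x ∈ A, four_fr Q k a (ΦA x)‖ ^ 2 *
        ∏ l, ‖∑ y ∈ Ss l, four_fr Q k a (ph k y)‖ ^ 2 =
      ‖∑ p ∈ A ×ˢ Fintype.piFinset Ss, four_fr Q k a (Φ p)‖ ^ 2 := by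
    intro a
    rw [Finset.prod_pow, ← mul_pow, ← norm_prod, ← norm_mul]
    congr 2
    rw [Finset.prod_univ_sum, Finset.sum_mul_sum, Finset.sum_product]
    apply Finset.sum_congr rfl
    intro x _
    apply Finset.sum_congr rfl
    intro w _
    show _ = four_fr Q k a (ΦA x + PS k w)
    rw [four_add, four_sumv]
  rw [Finset.sum_congr rfl (fun a _ => e2 a)]
  have e3 : ((∑ a : Fin k → ZMod Q,
      ‖∑ p ∈ A ×ˢ Fintype.piFinset Ss, four_fr Q k a (Φ p)‖ ^ 2 : ℝ) : ℂ) =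
      (((Fintype.card (Fin k → ZMod Q) : ℕ) : ℝ) * (colx k s A ΦA Ss : ℝ) : ℝ) := by
    rw [Complex.ofReal_sum, Finset.sum_congr rfl (fun a _ => four_sq Q k _ Φ a), Finset.sum_comm,
      Finset.sum_congr rfl (fun p _ => four_sum Q k (Φ p.1 - Φ p.2))]
    unfold colx col
    rw [Complex.ofReal_mul, Complex.ofReal_natCast, Complex.ofReal_natCast, mul_comm,
      ← nsmul_eq_mul, ← Finset.sum_const, Finset.sum_filter]
    apply Finset.sum_congr rfl
    intro p hp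
    obtain ⟨hp1, hp2⟩ := Finset.mem_product.1 hp
    by_cases h : Φ p.1 = Φ p.2
    · rw [if_pos (by intro m; rw [h]; simp), if_pos h]
    · rw [if_neg (fun hc => h (heq p.1 (hsub hp1) p.2 (hsub hp2) hc)), if_neg h]
  exact (Complex.ofReal_injective e3).symm

end Pool.Agent.CH.V
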