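import Pool.Agent.Lib.MP_d610d0_nt.CH.V.Stm

set_option autoImplicit false

/-!
Piece geo.
-/

namespace Pool.Agent.CH.V

open Finset Filter

theorem geo_norm_ex (x : ℝ) : ‖ex x‖ = 1 := by
  unfold ex
  have : (2 * Real.pi * Complex.I * (x : ℂ)) = ((2 * Real.pi * x : ℝ) : ℂ) * Complex.I := by
    push_cast; ring
  rw [this, Complex.norm_exp_ofReal_mul_I]

theorem geo_ex_add (x y : ℝ) : ex (x + y) = ex x * ex y := by
  unfold ex
  rw [← Complex.exp_add]
  congr 1
  push_cast; ring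

theorem geo_ex_int (m : ℤ) : ex (m : ℝ) = 1 := by
  unfold ex
  rw [Complex.exp_eq_one_iff]
  exact ⟨m, by push_cast; ring⟩

theorem geo_tel (δ : ℝ) (V : ℕ) : (ex δ - 1) * ∑ v ∈ Icc (-(V : ℤ)) V, ex (δ * v) =
    ex (δ * (V + 1)) - ex (-(δ * V)) := by
  induction V with
  | zero => simp [ex]
  | succ V ih =>
    have h : Icc (-((V + 1 : ℕ) : ℤ)) ((V + 1 : ℕ) : ℤ) =
        insert (-((V : ℤ) + 1)) (insert ((V : ℤ) + 1) (Icc (-(V : ℤ)) V)) := by
      ext x
      simp only [mem_Icc, mem_insert]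
      push_cast
      omega
    rw [h, Finset.sum_insert, Finset.sum_insert, mul_add, mul_add, ih]
    · push_cast
      have e1 : ex δ * ex (δ * ((V : ℝ) + 1)) = ex (δ * ((V : ℝ) + 1 + 1)) := by
        rw [← geo_ex_add]; congr 1; ring
      have e2 : ex δ * ex (δ * (-((V : ℝ) + 1))) = ex (-(δ * (V : ℝ))) := by
        rw [← geo_ex_add]; congr 1; ring
      have e3 : ex (δ * (-((V : ℝ) + 1))) = ex (-(δ * ((V : ℝ) + 1))) := by
        congr 1; ring
      rw [sub_mul, sub_mul, e1, e2, e3]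
      ring
    · simp only [mem_Icc]; omega
    · simp only [mem_Icc, mem_insert]; omega

theorem geo_low (δ : ℝ) (h : |δ| ≤ 1 / 2) : 4 * |δ| ≤ ‖ex δ - 1‖ := by
  have h1 : ex δ = Complex.exp (Complex.I * ((2 * Real.pi * δ : ℝ) : ℂ)) := by
    unfold ex; congr 1; push_cast; ring
  rw [h1, Complex.norm_exp_I_mul_ofReal_sub_one, Real.norm_eq_abs, abs_mul, abs_two]
  have h2 : 2 * Real.pi * δ / 2 = Real.pi * δ := by ring
  rw [h2]
  have h3 : 2 * |δ| ≤ |Real.sin (Real.pi * δ)| := by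
    have h4 : |Real.sin (Real.pi * δ)| = Real.sin (Real.pi * |δ|) := by
      have h5 : 0 ≤ Real.sin (Real.pi * |δ|) := by
        apply Real.sin_nonneg_of_nonneg_of_le_pi (by positivity)
        nlinarith [Real.pi_pos]
      rcases abs_cases δ with ⟨h6, _⟩ | ⟨h6, _⟩
      · rw [h6] at h5 ⊢; exact abs_of_nonneg h5
      · rw [h6] at h5 ⊢
        rw [mul_neg, Real.sin_neg] at h5 ⊢
        exact abs_of_nonpos (by linarith)
    rw [h4]
    have h7 := Real.mul_le_sin (x := Real.pi * |δ|) (by positivity) (by nlinarith [Real.pi_pos])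
    have h8 : 2 / Real.pi * (Real.pi * |δ|) = 2 * |δ| := by
      field_simp
    linarith
  linarith

theorem p_geo : S_geo := by
  intro β V m hm hne
  have hδ : 0 < |β - m| := abs_pos.mpr (sub_ne_zero.mpr hne)
  have hs : ∑ v ∈ Icc (-(V : ℤ)) V, ex (β * v) = ∑ v ∈ Icc (-(V : ℤ)) V, ex ((β - m) * v) := by
    apply Finset.sum_congr rfl
    intro v _
    have : β * v = (β - m) * v + ((m * v : ℤ) : ℝ) := by push_cast; ring
    rw [this, geo_ex_add, geo_ex_int, mul_one]
  rw [hs]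
  refine le_min ?_ ?_
  · refine (norm_sum_le _ _).trans ?_
    simp only [geo_norm_ex, sum_const, nsmul_eq_mul, mul_one, Int.card_Icc]
    have : ((V : ℤ) + 1 - (-(V : ℤ))).toNat = 2 * V + 1 := by omega
    rw [this]
    push_cast
    exact le_refl _
  · have h1 := geo_tel (β - m) V
    have h2 := congrArg norm h1
    rw [norm_mul] at h2
    have h3 : ‖ex ((β - m) * (V + 1)) - ex (-((β - m) * V))‖ ≤ 2 := by
      refine (norm_sub_le _ _).trans ?_
      rw [geo_norm_ex, geo_norm_ex]; norm_num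
    have h4 := geo_low (β - m) hm
    rw [le_div_iff₀ (by positivity)]
    have h5 : 4 * |β - m| * ‖∑ v ∈ Icc (-(V : ℤ)) V, ex ((β - m) * v)‖ ≤ 2 := by
      calc _ ≤ ‖ex (β - m) - 1‖ * ‖∑ v ∈ Icc (-(V : ℤ)) V, ex ((β - m) * v)‖ :=
            mul_le_mul_of_nonneg_right h4 (norm_nonneg _)
        _ ≤ 2 := by rw [h2]; exact h3
    linarith

end Pool.Agent.CH.V
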