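import Pool.Agent.Lib.MP_d610d0_nt.CH.V.Stm

set_option autoImplicit false

/-!
Piece good.
-/

namespace Pool.Agent.CH.V

open Finset Filter

private theorem good_col_le {ι ι' G : Type} [DecidableEq G] (Ω : Finset ι) (Ω' : Finset ι')
    (Φ : ι → G) (Φ' : ι' → G) (f : ι → ι') (hf : ∀ x ∈ Ω, f x ∈ Ω')
    (hinj : ∀ x ∈ Ω, ∀ y ∈ Ω, f x = f y → x = y) (hΦ : ∀ x ∈ Ω, Φ' (f x) = Φ x) :
    col Ω Φ ≤ col Ω' Φ' := by
  unfold col
  apply card_le_card_of_injOn (fun p : ι × ι => (f p.1, f p.2))
  · intro q hq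
    simp only [coe_filter, mem_product, Set.mem_ofPred_eq] at hq ⊢
    refine ⟨⟨hf _ hq.1.1, hf _ hq.1.2⟩, ?_⟩
    rw [hΦ _ hq.1.1, hΦ _ hq.1.2, hq.2]
  · intro q hq q' hq' h
    simp only [coe_filter, mem_product, Set.mem_ofPred_eq] at hq hq'
    simp only [Prod.mk.injEq] at h
    exact Prod.ext (hinj _ hq.1.1 _ hq'.1.1 h.1) (hinj _ hq.1.2 _ hq'.1.2 h.2)

theorem p_good : S_good := by
  intro hun k s p N hp
  classical
  set S : Finset ℤ := Icc 1 (N : ℤ) with hS
  set Ω := (Tup (s + k) S).filter (fun x =>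
    k ≤ (univ.image (fun i => ((x i : ℤ) : ZMod p))).card) with hΩ
  have h1 : ∀ x ∈ Ω, ∃ t ∈ powersetCard k (univ : Finset (Fin (s + k))),
      x ∈ (Tup (s + k) S).filter (fun x => Set.InjOn (fun i => ((x i : ℤ) : ZMod p)) t) := by
    intro x hx
    rw [hΩ, mem_filter] at hx
    obtain ⟨hx1, hx2⟩ := hx
    obtain ⟨u, hu1, hu2⟩ := exists_subset_card_eq hx2
    have hsurj : Set.SurjOn (fun i => ((x i : ℤ) : ZMod p))
        ((univ : Finset (Fin (s + k))) : Set (Fin (s + k))) (u : Set (ZMod p)) := by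
      intro a ha
      have := hu1 (mem_coe.1 ha)
      rw [mem_image] at this
      obtain ⟨i, hi, hia⟩ := this
      exact ⟨i, mem_coe.2 hi, hia⟩
    obtain ⟨t, ht1, ht2, ht3⟩ := Finset.exists_subset_injOn_image_eq_of_surjOn _ _ hsurj
    refine ⟨t, ?_, ?_⟩
    · rw [mem_powersetCard]
      refine ⟨subset_univ _, ?_⟩
      have h := card_image_of_injOn ht2
      rw [ht3, hu2] at h
      exact h.symm
    · rw [mem_filter]
      exact ⟨hx1, ht2⟩
  have h2 := hun _ _ _ (powersetCard k (univ : Finset (Fin (s + k))))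
    (fun t => (Tup (s + k) S).filter (fun x => Set.InjOn (fun i => ((x i : ℤ) : ZMod p)) t))
    Ω (PS k) h1
  have h3 : ∀ t ∈ powersetCard k (univ : Finset (Fin (s + k))),
      col ((Tup (s + k) S).filter (fun x => Set.InjOn (fun i => ((x i : ℤ) : ZMod p)) t)) (PS k) ≤
        colx k s (Dist k p S) (PS k) (fun _ => S) := by
    intro t ht
    rw [mem_powersetCard] at ht
    have hc1 : Fintype.card {i // i ∈ t} = k := by rw [Fintype.card_coe, ht.2]
    have hc2 : Fintype.card {i // i ∉ t} = s := by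
      rw [Fintype.card_subtype_compl, Fintype.card_coe, ht.2, Fintype.card_fin]; omega
    let e : Fin k ⊕ Fin s ≃ Fin (s + k) :=
      ((Fintype.equivFinOfCardEq hc1).symm.sumCongr (Fintype.equivFinOfCardEq hc2).symm).trans
        (Equiv.sumCompl (fun i => i ∈ t))
    have hel : ∀ i, e (Sum.inl i) ∈ t := fun i => by
      show ((Fintype.equivFinOfCardEq hc1).symm i : Fin (s + k)) ∈ t
      exact ((Fintype.equivFinOfCardEq hc1).symm i).2
    unfold colx
    apply good_col_le _ _ _ _ (fun x : Fin (s + k) → ℤ =>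
      ((fun i => x (e (Sum.inl i)), fun i => x (e (Sum.inr i))) : (Fin k → ℤ) × (Fin s → ℤ)))
    · intro x hx
      rw [mem_filter, Tup, Fintype.mem_piFinset] at hx
      rw [mem_product, Dist, mem_filter, Tup, Fintype.mem_piFinset, Fintype.mem_piFinset]
      refine ⟨⟨fun i => hx.1 _, ?_⟩, fun i => hx.1 _⟩
      intro i j hij
      have := hx.2 (mem_coe.2 (hel i)) (mem_coe.2 (hel j)) hij
      exact Sum.inl_injective (e.injective this)
    · intro x _ y _ hxy
      simp only [Prod.mk.injEq] at hxy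
      funext j
      obtain ⟨j, rfl⟩ := e.surjective j
      rcases j with j | j
      · exact congrFun hxy.1 j
      · exact congrFun hxy.2 j
    · intro x _
      show PS k (fun i => x (e (Sum.inl i))) + PS k (fun i => x (e (Sum.inr i))) = PS k x
      unfold PS
      rw [← Equiv.sum_comp e, Fintype.sum_sum_type]
  refine h2.trans ?_
  have h4 : (powersetCard k (univ : Finset (Fin (s + k)))).card = (s + k).choose k := by
    rw [card_powersetCard, card_univ, Fintype.card_fin]
  calc _ ≤ (powersetCard k (univ : Finset (Fin (s + k)))).card *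
        ((powersetCard k (univ : Finset (Fin (s + k)))).card *
          colx k s (Dist k p S) (PS k) (fun _ => S)) := by
        gcongr
        exact (sum_le_card_nsmul _ _ _ h3).trans (by rw [smul_eq_mul])
    _ = _ := by rw [h4]; ring

end Pool.Agent.CH.V
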