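import Pool.Agent.Lib.MP_d610d0_nt.CH.V.Stm

set_option autoImplicit false

/-!
Piece hoA.
-/

namespace Pool.Agent.CH.V

open Finset Filter

private lemma hoA_split {τ : Type} [DecidableEq τ] (T : Finset τ) (St : τ → Finset ℤ) (S : Finset ℤ)
    (h1 : ∀ x ∈ S, ∃ t ∈ T, x ∈ St t) (h2 : ∀ t ∈ T, St t ⊆ S)
    (h3 : ∀ t ∈ T, ∀ t' ∈ T, t ≠ t' → Disjoint (St t) (St t')) (F : ℤ → ℂ) :
    ∑ y ∈ S, F y = ∑ t ∈ T, ∑ y ∈ St t, F y := by
  have hS : S = T.biUnion St := by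
    ext x
    rw [mem_biUnion]
    constructor
    · exact h1 x
    · rintro ⟨t, ht, hx⟩
      exact h2 t ht hx
  rw [hS, sum_biUnion]
  intro t ht t' ht' hne
  exact h3 t ht t' ht' hne

private lemma hoA_pow {τ : Type} (T : Finset τ) (hT : T.Nonempty) (a : τ → ℂ) (n : ℕ) :
    ‖∑ t ∈ T, a t‖ ^ (n + 1) ≤ (T.card : ℝ) ^ n * ∑ t ∈ T, ‖a t‖ ^ (n + 1) := by
  have h1 : ‖∑ t ∈ T, a t‖ ^ (n + 1) ≤ (∑ t ∈ T, ‖a t‖) ^ (n + 1) :=
    pow_le_pow_left₀ (norm_nonneg _) (norm_sum_le _ _) _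
  have h2 := pow_sum_div_card_le_sum_pow (s := T) (f := fun t => ‖a t‖) (n := n)
    (fun t _ => norm_nonneg _)
  have hc : (0 : ℝ) < (T.card : ℝ) ^ n := by
    have := card_pos.mpr hT
    positivity
  rw [div_le_iff₀ hc] at h2
  linarith

theorem p_hoA : S_hoA := by
  intro hfour α τ _ k s A ΦA T St S hT h1 h2 h3
  rcases Nat.eq_zero_or_pos s with rfl | hs
  · obtain ⟨t, ht⟩ := hT
    refine ⟨t, ht, ?_⟩
    have e : (fun _ : Fin 0 => S) = fun _ => St t := by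
      funext i
      exact i.elim0
    rw [e]
    simp
  · obtain ⟨M, fr, hM, -, -, hfr⟩ := hfour α k s A ΦA S
    obtain ⟨n, hn⟩ : ∃ n, 2 * s = n + 1 := ⟨2 * s - 1, by omega⟩
    have hMr : (0 : ℝ) < M := by exact_mod_cast hM
    have key : ∀ S' : Finset ℤ, S' ⊆ S → (M : ℝ) * (colx k s A ΦA (fun _ => S') : ℝ) =
        ∑ i, ‖∑ x ∈ A, fr i (ΦA x)‖ ^ 2 * ‖∑ y ∈ S', fr i (ph k y)‖ ^ (n + 1) := by
      intro S' hS'
      rw [hfr (fun _ => S') (fun _ => hS')]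
      refine sum_congr rfl fun i _ => ?_
      rw [prod_const, card_univ, Fintype.card_fin, ← pow_mul, hn]
    have hle : (M : ℝ) * (colx k s A ΦA (fun _ => S) : ℝ) ≤
        M * ((T.card : ℝ) ^ n * ∑ t ∈ T, (colx k s A ΦA (fun _ => St t) : ℝ)) := by
      rw [key S (Subset.refl S)]
      have e1 : (M : ℝ) * ((T.card : ℝ) ^ n * ∑ t ∈ T, (colx k s A ΦA (fun _ => St t) : ℝ)) =
          ∑ i, ‖∑ x ∈ A, fr i (ΦA x)‖ ^ 2 *
            ((T.card : ℝ) ^ n * ∑ t ∈ T, ‖∑ y ∈ St t, fr i (ph k y)‖ ^ (n + 1)) := by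
        calc (M : ℝ) * ((T.card : ℝ) ^ n * ∑ t ∈ T, (colx k s A ΦA (fun _ => St t) : ℝ))
            = (T.card : ℝ) ^ n * ∑ t ∈ T, (M : ℝ) * (colx k s A ΦA (fun _ => St t) : ℝ) := by
              rw [mul_left_comm, mul_sum]
          _ = (T.card : ℝ) ^ n * ∑ t ∈ T, ∑ i, ‖∑ x ∈ A, fr i (ΦA x)‖ ^ 2 *
                ‖∑ y ∈ St t, fr i (ph k y)‖ ^ (n + 1) := by
              congr 1
              exact sum_congr rfl fun t ht => key (St t) (h2 t ht)
          _ = _ := by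
              rw [sum_comm, mul_sum]
              refine sum_congr rfl fun i _ => ?_
              rw [← mul_sum]
              ring
      rw [e1]
      refine sum_le_sum fun i _ => ?_
      refine mul_le_mul_of_nonneg_left ?_ (by positivity)
      rw [hoA_split T St S h1 h2 h3]
      exact hoA_pow T hT _ n
    have hle2 : (colx k s A ΦA (fun _ => S) : ℝ) ≤
        (T.card : ℝ) ^ n * ∑ t ∈ T, (colx k s A ΦA (fun _ => St t) : ℝ) :=
      le_of_mul_le_mul_left hle hMr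
    have hle3 : colx k s A ΦA (fun _ => S) ≤ T.card ^ n * ∑ t ∈ T, colx k s A ΦA (fun _ => St t) := by
      exact_mod_cast hle2
    obtain ⟨t, ht, hmax⟩ := exists_max_image T (fun t => colx k s A ΦA (fun _ => St t)) hT
    refine ⟨t, ht, hle3.trans ?_⟩
    have h4 : ∑ t' ∈ T, colx k s A ΦA (fun _ => St t') ≤ T.card * colx k s A ΦA (fun _ => St t) := by
      have := sum_le_card_nsmul T (fun t' => colx k s A ΦA (fun _ => St t')) _ hmax
      simpa using this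
    calc T.card ^ n * ∑ t' ∈ T, colx k s A ΦA (fun _ => St t')
        ≤ T.card ^ n * (T.card * colx k s A ΦA (fun _ => St t)) := Nat.mul_le_mul_left _ h4
      _ = T.card ^ (2 * s) * colx k s A ΦA (fun _ => St t) := by
          rw [hn, pow_succ, mul_assoc]

end Pool.Agent.CH.V
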