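import Pool.Agent.Lib.MP_d610d0_nt.CH.V.Stm

set_option autoImplicit false

/-!
Piece hoB.
-/

namespace Pool.Agent.CH.V

open Finset Filter

/-- a one point set as first factor does not matter -/
theorem hoB_col {ι G : Type} [DecidableEq G] [AddZeroClass G] (Ω : Finset ι) (Φ : ι → G) :
    col (({()} : Finset Unit) ×ˢ Ω) (fun p => (0 : G) + Φ p.2) = col Ω Φ := by
  unfold col
  refine Finset.card_nbij' (fun p => (p.1.2, p.2.2)) (fun p => (((), p.1), ((), p.2))) ?_ ?_ ?_ ?_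
  · rintro ⟨⟨u, a⟩, ⟨v, b⟩⟩ h
    simp only [coe_filter, mem_product, mem_singleton, zero_add, Set.mem_ofPred_eq, true_and] at h ⊢
    exact h
  · rintro ⟨a, b⟩ h
    simp only [coe_filter, mem_product, mem_singleton, zero_add, Set.mem_ofPred_eq, true_and] at h ⊢
    exact h
  · rintro ⟨⟨u, a⟩, ⟨v, b⟩⟩ _
    rfl
  · rintro ⟨a, b⟩ _
    rfl

/-- the inequality of the arithmetic and geometric means -/
theorem hoB_amgm (s : ℕ) (hs : 1 ≤ s) (a : Fin s → ℝ) (ha : ∀ l, 0 ≤ a l) :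
    (s : ℝ) * ∏ l, a l ≤ ∑ l, a l ^ s := by
  have hs0 : (0 : ℝ) < s := by exact_mod_cast hs
  have h := Real.geom_mean_le_arith_mean_weighted (univ : Finset (Fin s)) (fun _ => (1 : ℝ) / s)
    (fun l => a l ^ s) (fun _ _ => by positivity)
    (by rw [Finset.sum_const, Finset.card_univ, Fintype.card_fin, nsmul_eq_mul]; field_simp)
    (fun l _ => pow_nonneg (ha l) s)
  have h2 : ∀ l, (a l ^ s) ^ ((1 : ℝ) / s) = a l := by
    intro l
    rw [← Real.rpow_natCast, ← Real.rpow_mul (ha l), mul_one_div, div_self hs0.ne', Real.rpow_one]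
  simp only [h2] at h
  rw [← Finset.mul_sum] at h
  have h3 := mul_le_mul_of_nonneg_left h hs0.le
  calc (s : ℝ) * ∏ l, a l ≤ s * (1 / s * ∑ l, a l ^ s) := h3
    _ = ∑ l, a l ^ s := by field_simp

theorem p_hoB : S_hoB := by
  classical
  intro hf k s Ss hs
  have hs0 : (0 : ℝ) < s := by exact_mod_cast hs
  obtain ⟨M, fr, hM, hadd, hn, hfour⟩ := hf Unit k s {()} (fun _ => 0)
    (Finset.univ.biUnion Ss)
  have hM0 : (0 : ℝ) < M := by exact_mod_cast hM
  have hcolx : ∀ Ts : Fin s → Finset ℤ, (∀ l, Ts l ⊆ Finset.univ.biUnion Ss) →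
      (M : ℝ) * (col (Fintype.piFinset Ts) (PS k) : ℝ) =
        ∑ i, ∏ l, ‖∑ y ∈ Ts l, fr i (ph k y)‖ ^ 2 := by
    intro Ts hTs
    have h1 := hfour Ts hTs
    unfold colx at h1
    rw [hoB_col] at h1
    rw [h1]
    refine Finset.sum_congr rfl fun i _ => ?_
    rw [Finset.sum_singleton, hn, one_pow, one_mul]
  have hsub : ∀ l, Ss l ⊆ Finset.univ.biUnion Ss := fun l =>
    Finset.subset_biUnion_of_mem Ss (Finset.mem_univ l)
  have e0 := hcolx Ss hsub
  have e1 : ∀ l, (M : ℝ) * (Jn s k (Ss l) : ℝ) =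
      ∑ i, (‖∑ y ∈ Ss l, fr i (ph k y)‖ ^ 2) ^ s := by
    intro l
    have := hcolx (fun _ => Ss l) (fun _ => hsub l)
    unfold Jn Tup
    rw [this]
    refine Finset.sum_congr rfl fun i _ => ?_
    rw [Finset.prod_const, Finset.card_univ, Fintype.card_fin]
  by_contra hcon
  push Not at hcon
  have key : (s : ℝ) * ((M : ℝ) * (col (Fintype.piFinset Ss) (PS k) : ℝ)) ≤
      ∑ l, (M : ℝ) * (Jn s k (Ss l) : ℝ) := by
    rw [e0, Finset.sum_congr rfl fun l _ => e1 l, Finset.sum_comm, Finset.mul_sum]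
    exact Finset.sum_le_sum fun i _ => hoB_amgm s hs _ fun l => by positivity
  have hlt : ∑ l : Fin s, (M : ℝ) * (Jn s k (Ss l) : ℝ) <
      ∑ _l : Fin s, (M : ℝ) * (col (Fintype.piFinset Ss) (PS k) : ℝ) := by
    refine Finset.sum_lt_sum_of_nonempty ⟨⟨0, hs⟩, Finset.mem_univ _⟩ fun l _ => ?_
    exact mul_lt_mul_of_pos_left (by exact_mod_cast hcon l) hM0
  rw [Finset.sum_const, Finset.card_univ, Fintype.card_fin, nsmul_eq_mul] at hlt
  exact absurd key (not_le.2 hlt)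

end Pool.Agent.CH.V
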