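import Pool.Agent.Lib.MP_d610d0_nt.CH.V.Stm

set_option autoImplicit false

/-!
Piece inh.
-/

namespace Pool.Agent.CH.V

open Finset Filter

/-- the number of elements with a given value -/
private def inh_n {ι : Type} {k : ℕ} (Ω : Finset ι) (Φ : ι → Fin k → ℤ) (g : Fin k → ℤ) : ℕ :=
  (Ω.filter (fun x => Φ x = g)).card

private theorem inh_count {ι : Type} {k : ℕ} (Ω : Finset ι) (Φ : ι → Fin k → ℤ) (c : Fin k → ℤ) :
    ((Ω ×ˢ Ω).filter (fun p => Φ p.1 = Φ p.2 + c)).card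
      = ∑ g ∈ Ω.image Φ, inh_n Ω Φ g * inh_n Ω Φ (g - c) := by
  rw [Finset.card_eq_sum_card_fiberwise (f := fun p => Φ p.1) (t := Ω.image Φ)]
  · refine sum_congr rfl fun g _ => ?_
    unfold inh_n
    rw [← card_product]
    congr 1
    ext ⟨x, y⟩
    simp only [mem_filter, mem_product]
    constructor
    · rintro ⟨⟨⟨hx, hy⟩, he⟩, hg⟩
      exact ⟨⟨hx, hg⟩, hy, by rw [← hg, he, add_sub_cancel_right]⟩
    · rintro ⟨⟨hx, hg⟩, hy, hg'⟩
      exact ⟨⟨⟨hx, hy⟩, by rw [hg, hg', sub_add_cancel]⟩, hg⟩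
  · intro p hp
    have hp' : p ∈ (Ω ×ˢ Ω).filter (fun p => Φ p.1 = Φ p.2 + c) := hp
    exact mem_coe.mpr (mem_image_of_mem _ (mem_product.mp (mem_filter.mp hp').1).1)

private theorem inh_shift {ι : Type} {k : ℕ} (Ω : Finset ι) (Φ : ι → Fin k → ℤ) (h : Fin k → ℤ) :
    ∑ g ∈ Ω.image Φ, inh_n Ω Φ (g - h) * inh_n Ω Φ (g - h)
      ≤ ∑ g ∈ Ω.image Φ, inh_n Ω Φ g * inh_n Ω Φ g := by
  calc ∑ g ∈ Ω.image Φ, inh_n Ω Φ (g - h) * inh_n Ω Φ (g - h)
      = ∑ g ∈ (Ω.image Φ).image (fun g => g - h), inh_n Ω Φ g * inh_n Ω Φ g := by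
        have hinj : Set.InjOn (fun g : Fin k → ℤ => g - h) (Ω.image Φ : Set (Fin k → ℤ)) :=
          fun a _ b _ hab => sub_left_injective hab
        exact (sum_image (f := fun g => inh_n Ω Φ g * inh_n Ω Φ g) hinj).symm
    _ = ∑ g ∈ ((Ω.image Φ).image (fun g => g - h)).filter (fun g => g ∈ Ω.image Φ),
          inh_n Ω Φ g * inh_n Ω Φ g := by
        symm
        apply sum_filter_of_ne
        intro g _ hg
        by_contra hg'
        apply hg
        have : inh_n Ω Φ g = 0 := by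
          unfold inh_n
          rw [card_eq_zero, filter_eq_empty_iff]
          intro x hx hxg
          exact hg' (hxg ▸ mem_image_of_mem Φ hx)
        rw [this, zero_mul]
    _ ≤ _ := sum_le_sum_of_subset (fun g hg => (mem_filter.mp hg).2)

theorem p_inh : S_inh := by
  intro ι k Ω Φ h
  have h0 : col Ω Φ = ∑ g ∈ Ω.image Φ, inh_n Ω Φ g * inh_n Ω Φ g := by
    have := inh_count Ω Φ 0
    simp only [add_zero, sub_zero] at this
    exact this
  have h1 := inh_shift Ω Φ h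
  have h2 : 2 * ∑ g ∈ Ω.image Φ, inh_n Ω Φ g * inh_n Ω Φ (g - h)
      ≤ ∑ g ∈ Ω.image Φ, inh_n Ω Φ g * inh_n Ω Φ g
        + ∑ g ∈ Ω.image Φ, inh_n Ω Φ (g - h) * inh_n Ω Φ (g - h) := by
    rw [mul_sum, ← sum_add_distrib]
    refine sum_le_sum fun g _ => ?_
    have := two_mul_le_add_sq (inh_n Ω Φ g) (inh_n Ω Φ (g - h))
    nlinarith [this]
  rw [inh_count Ω Φ h, h0]
  omega

end Pool.Agent.CH.V
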