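import Pool.Agent.Lib.MP_d610d0_nt.CH.V.Stm

set_option autoImplicit false

/-!
Piece min.
-/

namespace Pool.Agent.CH.V

open Finset Filter

theorem min_ex (x : ℝ) : ‖ex x‖ = 1 := by
  unfold ex
  rw [Complex.norm_exp]
  simp

theorem min_triv (β : ℝ) (V : ℕ) :
    ‖∑ v ∈ Icc (-(V : ℤ)) V, ex (β * v)‖ ≤ 2 * (V : ℝ) + 1 := by
  calc ‖∑ v ∈ Icc (-(V : ℤ)) V, ex (β * v)‖
      ≤ ∑ v ∈ Icc (-(V : ℤ)) V, ‖ex (β * v)‖ := norm_sum_le _ _
    _ = ∑ v ∈ Icc (-(V : ℤ)) V, (1 : ℝ) := by simp [min_ex]
    _ = 2 * (V : ℝ) + 1 := by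
      rw [Finset.sum_const, Int.card_Icc, nsmul_eq_mul, mul_one]
      have : ((V : ℤ) + 1 - (-(V : ℤ))).toNat = 2 * V + 1 := by omega
      rw [this]; push_cast; ring

theorem min_side (T : Finset ℤ) (F p : ℤ → ℝ) (B D : ℝ) (n : ℕ) (hD : 0 ≤ D) (hB : 0 ≤ B)
    (hp : ∀ w w' : ℤ, |p w - p w'| < 1 → w = w')
    (h0 : ∀ w ∈ T, 0 ≤ p w) (h1 : ∀ w ∈ T, p w < (n : ℝ) + 1)
    (hF : ∀ w ∈ T, F w ≤ B) (hF' : ∀ w ∈ T, 0 < p w → F w ≤ D / p w) :
    ∑ w ∈ T, F w ≤ B + D * ((harmonic n : ℚ) : ℝ) := by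
  set g : ℕ → ℝ := fun i => if i = 0 then B else D / i with hg
  have hg0 : ∀ i, 0 ≤ g i := by
    intro i
    simp only [hg]
    split_ifs
    · exact hB
    · positivity
  have hinj : Set.InjOn (fun w : ℤ => ⌊p w⌋₊) (T : Set ℤ) := by
    intro w hw w' hw' h
    apply hp
    have a1 := Nat.floor_le (h0 w hw)
    have a2 := Nat.lt_floor_add_one (p w)
    have b1 := Nat.floor_le (h0 w' hw')
    have b2 := Nat.lt_floor_add_one (p w')
    simp only at h
    rw [h] at a1 a2
    rw [abs_lt]
    constructor <;> linarith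
  calc ∑ w ∈ T, F w ≤ ∑ w ∈ T, g ⌊p w⌋₊ := by
        apply Finset.sum_le_sum
        intro w hw
        simp only [hg]
        split_ifs with h
        · exact hF w hw
        · have hpos : (0 : ℝ) < (⌊p w⌋₊ : ℝ) := by
            exact_mod_cast Nat.pos_of_ne_zero h
          have hle := Nat.floor_le (h0 w hw)
          have hpw : 0 < p w := lt_of_lt_of_le hpos hle
          calc F w ≤ D / p w := hF' w hw hpw
            _ ≤ D / (⌊p w⌋₊ : ℝ) := div_le_div_of_nonneg_left hD hpos hle
    _ = ∑ i ∈ T.image (fun w : ℤ => ⌊p w⌋₊), g i := by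
        rw [Finset.sum_image hinj]
    _ ≤ ∑ i ∈ Finset.range (n + 1), g i := by
        apply Finset.sum_le_sum_of_subset_of_nonneg
        · intro i hi
          rw [Finset.mem_image] at hi
          obtain ⟨w, hw, rfl⟩ := hi
          rw [Finset.mem_range]
          rw [Nat.floor_lt (h0 w hw)]
          push_cast
          exact h1 w hw
        · intro i _ _
          exact hg0 i
    _ = B + D * ((harmonic n : ℚ) : ℝ) := by
        rw [Finset.sum_range_succ']
        have e1 : g 0 = B := by simp [hg]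
        rw [e1, add_comm]
        congr 1
        unfold harmonic
        push_cast
        rw [Finset.mul_sum]
        apply Finset.sum_congr rfl
        intro i _
        simp only [hg]
        rw [if_neg (Nat.succ_ne_zero i)]
        push_cast
        rw [div_eq_mul_inv]

theorem min_pos (hgeo : S_geo) (α : ℝ) (V : ℕ) (ha : 0 < α) (ha' : α ≤ 1 / 2) :
    Sm α V ≤ (2 * V * α + 2) * (4 * V + 2 + (1 / α) * (1 + Real.log (1 / α))) := by
  set F : ℤ → ℝ := fun w => ‖∑ v ∈ Icc (-(V : ℤ)) V, ex (α * w * v)‖ with hFdef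
  set M : ℤ := ⌊α * V + 1 / 2⌋ with hM
  have hV0 : (0 : ℝ) ≤ V := Nat.cast_nonneg V
  have hM0 : 0 ≤ M := by
    rw [hM]; apply Int.floor_nonneg.mpr; positivity
  have hMle : (M : ℝ) ≤ α * V + 1 / 2 := Int.floor_le _
  have hmaps : ∀ w ∈ Icc (-(V : ℤ)) V, round (α * w) ∈ Icc (-M) M := by
    intro w hw
    rw [Finset.mem_Icc] at hw
    have hr := abs_sub_round (α * (w : ℝ))
    rw [abs_le] at hr
    have hw1 : -(V : ℝ) ≤ w := by exact_mod_cast hw.1
    have hw2 : (w : ℝ) ≤ V := by exact_mod_cast hw.2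
    have h1 : α * w ≤ α * V := mul_le_mul_of_nonneg_left hw2 ha.le
    have h2 : -(α * V) ≤ α * w := by
      have := mul_le_mul_of_nonneg_left hw1 ha.le
      linarith
    rw [Finset.mem_Icc]
    constructor
    · have : -round (α * (w : ℝ)) ≤ M := by
        rw [hM, Int.le_floor]
        push_cast
        linarith [hr.1, hr.2]
      linarith
    · rw [hM, Int.le_floor]
      linarith [hr.1, hr.2]
  have hnpos : 1 ≤ ⌊1 / (2 * α)⌋₊ := by
    rw [Nat.one_le_floor_iff, le_div_iff₀ (by positivity)]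
    linarith
  have hnle : ((⌊1 / (2 * α)⌋₊ : ℕ) : ℝ) ≤ 1 / (2 * α) := Nat.floor_le (by positivity)
  have hnlt : 1 / (2 * α) < (⌊1 / (2 * α)⌋₊ : ℝ) + 1 := Nat.lt_floor_add_one _
  have hle2 : 1 / (2 * α) ≤ 1 / α := by
    apply one_div_le_one_div_of_le ha; linarith
  have hharm : ((harmonic ⌊1 / (2 * α)⌋₊ : ℚ) : ℝ) ≤ 1 + Real.log (1 / α) := by
    refine (harmonic_le_one_add_log _).trans ?_
    have : Real.log (⌊1 / (2 * α)⌋₊ : ℝ) ≤ Real.log (1 / α) := by
      apply Real.log_le_log
      · exact_mod_cast hnpos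
      · linarith
    linarith
  have hlog : 0 ≤ Real.log (1 / α) := by
    apply Real.log_nonneg
    rw [le_div_iff₀ ha]; linarith
  have hfib : ∀ m ∈ Icc (-M) M, ∑ w ∈ (Icc (-(V : ℤ)) V).filter (fun w : ℤ => round (α * w) = m), F w
      ≤ 4 * V + 2 + (1 / α) * (1 + Real.log (1 / α)) := by
    intro m _
    rw [← Finset.sum_filter_add_sum_filter_not _ (fun w : ℤ => (m : ℝ) / α ≤ w)]
    have hside : ∀ (T : Finset ℤ) (p : ℤ → ℝ), (∀ w ∈ T, round (α * (w : ℝ)) = m) →
        (∀ w w' : ℤ, |p w - p w'| < 1 → w = w') → (∀ w ∈ T, 0 ≤ p w) →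
        (∀ w : ℤ, |α * w - m| = α * |p w|) →
        ∑ w ∈ T, F w ≤ (2 * V + 1) + (1 / (2 * α)) * (1 + Real.log (1 / α)) := by
      intro T p hT hp h0 hab
      refine (min_side T F p (2 * V + 1) (1 / (2 * α)) ⌊1 / (2 * α)⌋₊ (by positivity)
        (by positivity) hp h0 ?_ ?_ ?_).trans ?_
      · intro w hw
        have h1 := abs_sub_round (α * (w : ℝ))
        rw [hT w hw, hab w, abs_of_nonneg (h0 w hw)] at h1
        refine lt_of_le_of_lt ?_ hnlt
        rw [le_div_iff₀ (by positivity)]
        linarith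
      · intro w _
        exact min_triv (α * w) V
      · intro w hw hpw
        have h1 := abs_sub_round (α * (w : ℝ))
        rw [hT w hw] at h1
        have hne : α * (w : ℝ) ≠ m := by
          intro h
          have h2 := hab w
          rw [h, sub_self, abs_zero] at h2
          have h3 : 0 < α * |p w| := by
            apply mul_pos ha
            rw [abs_pos]; exact hpw.ne'
          linarith
        refine (hgeo (α * w) V m h1 hne).trans ((min_le_right _ _).trans ?_)
        rw [hab w, abs_of_pos hpw, div_div, mul_assoc]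
      · have : (1 / (2 * α)) * ((harmonic ⌊1 / (2 * α)⌋₊ : ℚ) : ℝ) ≤
            (1 / (2 * α)) * (1 + Real.log (1 / α)) :=
          mul_le_mul_of_nonneg_left hharm (by positivity)
        linarith
    have hint : ∀ w w' : ℤ, |(w : ℝ) - w'| < 1 → w = w' := by
      intro w w' h
      have h2 : |w - w'| < 1 := by
        have : ((|w - w'| : ℤ) : ℝ) < 1 := by push_cast; exact h
        exact_mod_cast this
      rw [Int.abs_lt_one_iff] at h2
      linarith
    have e1 := hside (((Icc (-(V : ℤ)) V).filter (fun w : ℤ => round (α * w) = m)).filter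
      (fun w : ℤ => (m : ℝ) / α ≤ w)) (fun w => w - m / α)
      (by
        intro w hw
        simp only [Finset.mem_filter] at hw
        exact hw.1.2)
      (by
        intro w w' h
        apply hint
        have : (w : ℝ) - m / α - (w' - m / α) = w - w' := by ring
        rwa [this] at h)
      (by
        intro w hw
        simp only [Finset.mem_filter] at hw
        linarith [hw.2])
      (by
        intro w
        rw [← abs_of_pos ha, ← abs_mul, abs_of_pos ha, mul_sub, mul_div_cancel₀ _ ha.ne'])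
    have e2 := hside (((Icc (-(V : ℤ)) V).filter (fun w : ℤ => round (α * w) = m)).filter
      (fun w : ℤ => ¬ (m : ℝ) / α ≤ w)) (fun w => m / α - w)
      (by
        intro w hw
        simp only [Finset.mem_filter] at hw
        exact hw.1.2)
      (by
        intro w w' h
        apply hint
        have : (m : ℝ) / α - w - (m / α - w') = -(w - w') := by ring
        rwa [this, abs_neg] at h)
      (by
        intro w hw
        simp only [Finset.mem_filter, not_le] at hw
        linarith [hw.2])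
      (by
        intro w
        rw [abs_sub_comm, ← abs_of_pos ha, ← abs_mul, abs_of_pos ha, mul_sub,
          mul_div_cancel₀ _ ha.ne'])
    have e3 : (1 / (2 * α)) * (1 + Real.log (1 / α)) + (1 / (2 * α)) * (1 + Real.log (1 / α)) =
        (1 / α) * (1 + Real.log (1 / α)) := by
      field_simp
      ring
    linarith
  have hsm : Sm α V = ∑ w ∈ Icc (-(V : ℤ)) V, F w := rfl
  rw [hsm, ← Finset.sum_fiberwise_of_maps_to hmaps]
  have hC : 0 ≤ 4 * (V : ℝ) + 2 + (1 / α) * (1 + Real.log (1 / α)) := by positivity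
  calc ∑ m ∈ Icc (-M) M, ∑ w ∈ (Icc (-(V : ℤ)) V).filter (fun w : ℤ => round (α * w) = m), F w
      ≤ ∑ m ∈ Icc (-M) M, (4 * (V : ℝ) + 2 + (1 / α) * (1 + Real.log (1 / α))) :=
        Finset.sum_le_sum hfib
    _ = (2 * (M : ℝ) + 1) * (4 * (V : ℝ) + 2 + (1 / α) * (1 + Real.log (1 / α))) := by
        rw [Finset.sum_const, Int.card_Icc, nsmul_eq_mul]
        congr 1
        have h1 : ((M + 1 - -M).toNat : ℤ) = 2 * M + 1 := by omega
        exact_mod_cast h1
    _ ≤ _ := by
        apply mul_le_mul_of_nonneg_right _ hC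
        nlinarith

theorem min_neg (α : ℝ) (V : ℕ) : Sm (-α) V = Sm α V := by
  unfold Sm
  apply Finset.sum_equiv (Equiv.neg ℤ)
  · intro w
    simp only [Finset.mem_Icc, Equiv.neg_apply]
    constructor <;> intro h <;> constructor <;> linarith [h.1, h.2]
  · intro w _
    simp only [Equiv.neg_apply]
    push_cast
    congr 1
    apply Finset.sum_congr rfl
    intro v _
    congr 1
    ring

theorem p_min : S_min := by
  intro hgeo α V _ h0 h1
  rcases le_or_gt 0 α with h | h
  · rw [abs_of_nonneg h] at h0 h1 ⊢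
    exact min_pos hgeo α V h0 h1
  · rw [abs_of_neg h] at h0 h1 ⊢
    rw [← min_neg α V]
    exact min_pos hgeo (-α) V h0 h1

end Pool.Agent.CH.V
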