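import Pool.Agent.Lib.MP_d610d0_nt.CH.V.Stm

set_option autoImplicit false

/-!
Piece mvt.
-/

namespace Pool.Agent.CH.V

open Finset Filter

theorem p_mvt : S_mvt := by
  intro hstep htr hfac k hk Y hY
  obtain ⟨f1, f2, f3⟩ := hfac k hk
  have hkR : (7 : ℝ) ≤ (k : ℝ) := by exact_mod_cast hk
  have hk0 : (0 : ℝ) < (k : ℝ) := by linarith
  set κ : ℝ := (k : ℝ) * (k + 1) / 2 with hκ
  have hκ0 : 0 ≤ κ := by rw [hκ]; positivity
  have hq0 : 0 ≤ 1 - 1 / (k : ℝ) := by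
    have : 1 / (k : ℝ) ≤ 1 := by
      rw [div_le_one hk0]; linarith
    linarith
  have hq1 : 1 - 1 / (k : ℝ) ≤ 1 := by
    have : 0 ≤ 1 / (k : ℝ) := by positivity
    linarith
  have key : ∀ r : ℕ, r ≤ k ^ 2 → ∀ N : ℕ, 1 ≤ N →
      (JN (k ^ 2 + r * k) k N : ℝ) ≤ Real.exp ((k : ℝ) ^ 5 + 2 * (bb k : ℝ) * r) *
        (N : ℝ) ^ (2 * ((k ^ 2 + r * k : ℕ) : ℝ) - κ + κ * (1 - 1 / (k : ℝ)) ^ r) := by
    intro r
    induction r with
    | zero =>
      intro _ N hN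
      have h1 := htr (k ^ 2 + 0 * k) k N
      have h2 : (JN (k ^ 2 + 0 * k) k N : ℝ) ≤ (N : ℝ) ^ (2 * (k ^ 2 + 0 * k)) := by
        exact_mod_cast h1
      refine h2.trans ?_
      have h3 : (2 * ((k ^ 2 + 0 * k : ℕ) : ℝ) - κ + κ * (1 - 1 / (k : ℝ)) ^ 0)
          = ((2 * (k ^ 2 + 0 * k) : ℕ) : ℝ) := by
        push_cast; ring
      rw [h3, Real.rpow_natCast]
      have h4 : (1 : ℝ) ≤ Real.exp ((k : ℝ) ^ 5 + 2 * (bb k : ℝ) * (0 : ℕ)) := by
        apply Real.one_le_exp; positivity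
      have h5 : (0 : ℝ) ≤ (N : ℝ) ^ (2 * (k ^ 2 + 0 * k)) := by positivity
      nlinarith
    | succ r ih =>
      intro hr N hN
      have ih' := ih (by omega)
      have hδ0 : 0 ≤ κ * (1 - 1 / (k : ℝ)) ^ r := by positivity
      have hδ1 : κ * (1 - 1 / (k : ℝ)) ^ r ≤ κ := by
        have : (1 - 1 / (k : ℝ)) ^ r ≤ 1 := pow_le_one₀ hq0 hq1
        nlinarith
      have hC : 1 ≤ Real.exp ((k : ℝ) ^ 5 + 2 * (bb k : ℝ) * r) := by
        apply Real.one_le_exp; positivity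
      have h1 := hstep k (k ^ 2 + r * k) (Real.exp ((k : ℝ) ^ 5 + 2 * (bb k : ℝ) * r))
        (κ * (1 - 1 / (k : ℝ)) ^ r) hk (by nlinarith) hC hδ0 hδ1 (fun N hN => ih' N hN) N hN
      have hs : k ^ 2 + r * k + k ≤ bb k := by
        unfold bb
        have : (r + 1) * k ≤ k ^ 2 * k := Nat.mul_le_mul_right _ hr
        nlinarith
      have h2 := f2 (k ^ 2 + r * k) hs
      have e1 : k ^ 2 + (r + 1) * k = k ^ 2 + r * k + k := by ring
      rw [e1]
      refine h1.trans ?_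
      have e2 : (2 * (((k ^ 2 + r * k : ℕ) : ℝ) + k) - (k : ℝ) * (k + 1) / 2
          + κ * (1 - 1 / (k : ℝ)) ^ r * (1 - 1 / k))
          = (2 * ((k ^ 2 + r * k + k : ℕ) : ℝ) - κ + κ * (1 - 1 / (k : ℝ)) ^ (r + 1)) := by
        rw [hκ]; push_cast; ring
      rw [e2]
      apply mul_le_mul_of_nonneg_right _ (by positivity)
      apply max_le
      · refine f1.trans ?_
        apply Real.exp_le_exp.mpr
        have : 0 ≤ 2 * (bb k : ℝ) * ((r + 1 : ℕ) : ℝ) := by positivity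
        linarith
      · have e3 : Real.exp ((k : ℝ) ^ 5 + 2 * (bb k : ℝ) * ((r + 1 : ℕ) : ℝ))
            = Real.exp ((k : ℝ) ^ 5 + 2 * (bb k : ℝ) * r) * Real.exp (2 * (bb k : ℝ)) := by
          rw [← Real.exp_add]; congr 1; push_cast; ring
        rw [e3]
        exact mul_le_mul_of_nonneg_left h2 (Real.exp_pos _).le
  have h1 := key (k ^ 2) le_rfl Y hY
  have e1 : k ^ 2 + k ^ 2 * k = bb k := by unfold bb; ring
  rw [e1] at h1
  refine h1.trans ?_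
  have hY1 : (1 : ℝ) ≤ (Y : ℝ) := by exact_mod_cast hY
  apply mul_le_mul _ _ (by positivity) (Real.exp_pos _).le
  · apply Real.exp_le_exp.mpr
    have e4 : (bb k : ℝ) = (k : ℝ) ^ 3 + (k : ℝ) ^ 2 := by unfold bb; push_cast; ring
    rw [e4]
    push_cast
    have h5 : 2 * (k : ℝ) ^ 4 ≤ (k : ℝ) ^ 5 := by
      have : (0 : ℝ) ≤ (k : ℝ) ^ 4 := by positivity
      nlinarith
    nlinarith
  · apply Real.rpow_le_rpow_of_exponent_le hY1
    linarith

end Pool.Agent.CH.V
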