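import Pool.Agent.Lib.MP_d610d0_nt.CH.V.Stm

set_option autoImplicit false

/-!
Piece nwt.
-/

namespace Pool.Agent.CH.V

open Finset Filter

theorem nwt_esymm {R : Type} [CommRing R] (k : ℕ) (hu : ∀ m : ℕ, 1 ≤ m → m ≤ k → IsUnit (m : R))
    (x y : Fin k → R) (h : ∀ m : ℕ, 1 ≤ m → m ≤ k → ∑ i, x i ^ m = ∑ i, y i ^ m) :
    ∀ m : ℕ, m ≤ k → MvPolynomial.aeval x (MvPolynomial.esymm (Fin k) R m) =
      MvPolynomial.aeval y (MvPolynomial.esymm (Fin k) R m) := by
  intro m
  induction m using Nat.strong_induction_on with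
  | _ m ih =>
    intro hm
    rcases Nat.eq_zero_or_pos m with h0 | h0
    · subst h0
      simp
    · have hx := congrArg (MvPolynomial.aeval x) (MvPolynomial.mul_esymm_eq_sum (Fin k) R m)
      have hy := congrArg (MvPolynomial.aeval y) (MvPolynomial.mul_esymm_eq_sum (Fin k) R m)
      simp only [map_mul, map_natCast, map_pow, map_neg, map_one, map_sum] at hx hy
      have hps : ∀ (z : Fin k → R) (n : ℕ), MvPolynomial.aeval z (MvPolynomial.psum (Fin k) R n) =
          ∑ i, z i ^ n := by
        intro z n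
        simp [MvPolynomial.psum]
      have he : ∑ a ∈ (antidiagonal m).filter (fun a => a.1 < m),
          (-1) ^ a.1 * MvPolynomial.aeval x (MvPolynomial.esymm (Fin k) R a.1) *
            MvPolynomial.aeval x (MvPolynomial.psum (Fin k) R a.2) =
          ∑ a ∈ (antidiagonal m).filter (fun a => a.1 < m),
          (-1) ^ a.1 * MvPolynomial.aeval y (MvPolynomial.esymm (Fin k) R a.1) *
            MvPolynomial.aeval y (MvPolynomial.psum (Fin k) R a.2) := by
        apply sum_congr rfl
        intro a ha
        rw [mem_filter, HasAntidiagonal.mem_antidiagonal] at ha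
        rw [ih a.1 ha.2 (by omega), hps, hps, h a.2 (by omega) (by omega)]
      rw [he, ← hy] at hx
      exact (hu m h0 hm).mul_left_cancel hx

theorem p_nwt : S_nwt := by
  intro k p hp hkp x y h
  have hu : ∀ m : ℕ, 1 ≤ m → m ≤ k → IsUnit (m : ZMod (p ^ k)) := by
    intro m h1 h2
    rw [ZMod.isUnit_iff_coprime]
    apply Nat.Coprime.pow_right
    exact Nat.Coprime.symm ((Nat.Prime.coprime_iff_not_dvd hp).2
      (fun hd => by have := Nat.le_of_dvd h1 hd; omega))
  have he := nwt_esymm k hu x y h
  have key : ∀ z : Fin k → ZMod (p ^ k), ∏ i, (Polynomial.X - Polynomial.C (z i)) =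
      ∑ j ∈ range (k + 1), (-1) ^ j * (Polynomial.C (MvPolynomial.aeval z
        (MvPolynomial.esymm (Fin k) (ZMod (p ^ k)) j)) * Polynomial.X ^ (k - j)) := by
    intro z
    have h1 := Multiset.prod_X_sub_X_eq_sum_esymm ((univ : Finset (Fin k)).val.map z)
    rw [Multiset.map_map, Multiset.card_map] at h1
    have h2 : Multiset.card (univ : Finset (Fin k)).val = k := by simp
    rw [h2] at h1
    simp only [MvPolynomial.aeval_esymm_eq_multiset_esymm]
    exact h1
  rw [key x, key y]
  apply sum_congr rfl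
  intro j hj
  rw [mem_range] at hj
  rw [he j (by omega)]

end Pool.Agent.CH.V
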