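import Pool.Agent.Lib.MP_d610d0_nt.CH.V.Stm
import Pool.Agent.Lib.MP_d610d0_nt.CH.V.p_nwt

set_option autoImplicit false

/-!
Piece pad.
-/

namespace Pool.Agent.CH.V

open Finset Filter

private theorem pad_lift (k p m : ℕ) (hp : 1 ≤ p) (hm : m + 1 ≤ k) (a h : ℤ)
    (hd : (p : ℤ) ^ (m + 1) ∣ a - h) :
    ∃ t ∈ range (p ^ (k - 1 - m)),
      ((h : ℤ) : ZMod (p ^ k)) + (p : ZMod (p ^ k)) ^ (m + 1) * (t : ZMod (p ^ k)) =
        ((a : ℤ) : ZMod (p ^ k)) := by
  obtain ⟨q, hq⟩ := hd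
  have hpos : (0 : ℤ) < (p : ℤ) ^ (k - 1 - m) := by positivity
  refine ⟨(q % (p : ℤ) ^ (k - 1 - m)).toNat, ?_, ?_⟩
  · rw [mem_range]
    have h1 := Int.emod_nonneg q hpos.ne'
    have h2 := Int.emod_lt_of_pos q hpos
    have h3 : ((q % (p : ℤ) ^ (k - 1 - m)).toNat : ℤ) < ((p ^ (k - 1 - m) : ℕ) : ℤ) := by
      rw [Int.toNat_of_nonneg h1]; push_cast; exact h2
    exact_mod_cast h3
  · have h1 := Int.emod_nonneg q hpos.ne'
    have h4 : (((q % (p : ℤ) ^ (k - 1 - m)).toNat : ℕ) : ZMod (p ^ k)) =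
        ((q % (p : ℤ) ^ (k - 1 - m) : ℤ) : ZMod (p ^ k)) := by
      have : ((((q % (p : ℤ) ^ (k - 1 - m)).toNat : ℕ) : ℤ) : ZMod (p ^ k)) =
          ((q % (p : ℤ) ^ (k - 1 - m) : ℤ) : ZMod (p ^ k)) := by
        rw [Int.toNat_of_nonneg h1]
      rw [← this]; push_cast; rfl
    have h5 : ((p ^ k : ℕ) : ZMod (p ^ k)) = 0 := ZMod.natCast_self _
    have h6 : a = h + (p : ℤ) ^ (m + 1) * (q % (p : ℤ) ^ (k - 1 - m)) +
        ((p ^ k : ℕ) : ℤ) * (q / (p : ℤ) ^ (k - 1 - m)) := by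
      have h7 := Int.emod_add_mul_ediv q ((p : ℤ) ^ (k - 1 - m))
      have h8 : ((p ^ k : ℕ) : ℤ) = (p : ℤ) ^ (m + 1) * (p : ℤ) ^ (k - 1 - m) := by
        rw [← pow_add]; push_cast; congr 1; omega
      rw [h8]
      linear_combination hq + (p : ℤ) ^ (m + 1) * (-h7)
    rw [h4, h6]
    push_cast
    have h5' : (p : ZMod (p ^ k)) ^ k = 0 := by exact_mod_cast h5
    rw [h5']
    ring

private theorem pad_main (hnwt : S_nwt) : S_pad := by
  intro hfact k p hp hk hkp c S hS h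
  classical
  have : Fact p.Prime := ⟨hp⟩
  have hne : NeZero (p ^ k) := ⟨pow_ne_zero _ hp.ne_zero⟩
  set F := (Dist k p S).filter (fun x => ∀ m : Fin k, (p : ℤ) ^ ((m : ℕ) + 1) ∣
    (∑ i, x i ^ ((m : ℕ) + 1)) - h m) with hF
  let Gm : Fin k → Finset (ZMod (p ^ k)) := fun m => (range (p ^ (k - 1 - (m : ℕ)))).image
    (fun t : ℕ => ((h m : ℤ) : ZMod (p ^ k)) + (p : ZMod (p ^ k)) ^ ((m : ℕ) + 1) *
      (t : ZMod (p ^ k)))
  let ψ : (Fin k → ℤ) → (Fin k → ZMod (p ^ k)) := fun x m => ∑ i, ((x i : ℤ) : ZMod (p ^ k)) ^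
    ((m : ℕ) + 1)
  have h1 : ∀ x ∈ F, ψ x ∈ Fintype.piFinset Gm := by
    intro x hx
    rw [hF, mem_filter] at hx
    rw [Fintype.mem_piFinset]
    intro m
    obtain ⟨t, ht, hte⟩ := pad_lift k p m hp.one_le (by omega) _ _ (hx.2 m)
    rw [mem_image]
    refine ⟨t, ht, ?_⟩
    rw [hte]
    simp only [ψ]
    push_cast
    rfl
  have h2 : (Fintype.piFinset Gm).card ≤ p ^ (k * (k - 1) / 2) := by
    rw [Fintype.card_piFinset]
    calc ∏ m, (Gm m).card ≤ ∏ m : Fin k, p ^ (k - 1 - (m : ℕ)) :=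
          prod_le_prod' (fun m _ => card_image_le.trans (by rw [card_range]))
      _ = p ^ (∑ m : Fin k, (k - 1 - (m : ℕ))) := prod_pow_eq_pow_sum _ _ _
      _ = p ^ (k * (k - 1) / 2) := by
        congr 1
        rw [Fin.sum_univ_eq_sum_range (fun m => k - 1 - m) k, ← sum_range_id k]
        exact sum_range_reflect (fun m => m) k
  have h3 : ∀ g ∈ Fintype.piFinset Gm, (F.filter (fun x => ψ x = g)).card ≤ k.factorial := by
    intro g _
    refine le_trans ?_ (hfact hnwt k p hk hkp g)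
    apply card_le_card_of_injOn (fun (x : Fin k → ℤ) i => ((x i : ℤ) : ZMod (p ^ k)))
    · intro x hx
      rw [mem_coe, mem_filter, hF, mem_filter, Dist, mem_filter] at hx
      rw [mem_coe, mem_filter]
      refine ⟨mem_univ _, ?_, ?_⟩
      · intro i j hij
        rw [← Int.cast_sub, ZMod.coe_int_isUnit_iff_isCoprime]
        push_cast
        apply IsCoprime.pow_left
        rw [Prime.coprime_iff_not_dvd (Nat.prime_iff_prime_int.1 hp)]
        intro hd
        apply hij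
        apply hx.1.1.2
        show ((x i : ℤ) : ZMod p) = ((x j : ℤ) : ZMod p)
        rw [← sub_eq_zero, ← Int.cast_sub]
        exact (ZMod.intCast_zmod_eq_zero_iff_dvd _ _).2 hd
      · intro m
        exact congrFun hx.2 m
    · intro x hx y hy hxy
      rw [mem_coe, mem_filter, hF, mem_filter, Dist, mem_filter, Tup, Fintype.mem_piFinset]
        at hx hy
      funext i
      have hxi := mem_Ioc.1 (hS (hx.1.1.1 i))
      have hyi := mem_Ioc.1 (hS (hy.1.1.1 i))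
      have he := congrFun hxy i
      have hd : ((p ^ k : ℕ) : ℤ) ∣ x i - y i := by
        have : (((x i - y i : ℤ)) : ZMod (p ^ k)) = 0 := by
          rw [Int.cast_sub, sub_eq_zero]; exact he
        exact (ZMod.intCast_zmod_eq_zero_iff_dvd _ _).1 this
      push_cast at hd
      have := Int.eq_zero_of_abs_lt_dvd hd (by rw [abs_lt]; constructor <;> linarith)
      linarith
  rw [card_eq_sum_card_fiberwise h1]
  calc _ ≤ (Fintype.piFinset Gm).card * k.factorial := by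
        exact (sum_le_card_nsmul _ _ _ h3).trans (by rw [smul_eq_mul])
    _ ≤ p ^ (k * (k - 1) / 2) * k.factorial := by gcongr
    _ = _ := by ring

theorem p_pad : S_pad := pad_main p_nwt

end Pool.Agent.CH.V
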