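import Pool.Agent.Lib.MP_d610d0_nt.CH.V.Stm

set_option autoImplicit false

/-!
Piece rec.
-/

namespace Pool.Agent.CH.V

open Finset Filter

theorem p_rec : S_rec := by
  classical
  intro hun hfour hhoA hhoB hshx hshd hinh hsa hfact hpad hcolA hgood hbad k s p N hp hk hkp hN
  haveI : Fact p.Prime := ⟨hp⟩
  haveI : NeZero p := ⟨hp.ne_zero⟩
  -- the two parts
  set Ω : Finset (Fin (s + k) → ℤ) := Tup (s + k) (Icc 1 (N : ℤ)) with hΩ
  set Ωg : Finset (Fin (s + k) → ℤ) := Ω.filter (fun x =>
    k ≤ (univ.image (fun i => ((x i : ℤ) : ZMod p))).card) with hΩg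
  set Ωb : Finset (Fin (s + k) → ℤ) := Ω.filter (fun x =>
    (univ.image (fun i => ((x i : ℤ) : ZMod p))).card < k) with hΩb
  have h1 : JN (s + k) k N ≤ 2 * (col Ωg (PS k) + col Ωb (PS k)) := by
    have h := hun (Fin (s + k) → ℤ) (Fin k → ℤ) Bool (univ : Finset Bool)
      (fun b => if b then Ωg else Ωb) Ω (PS k) (by
        intro x hx
        by_cases hc : k ≤ (univ.image (fun i => ((x i : ℤ) : ZMod p))).card
        · exact ⟨true, mem_univ _, by simp [hΩg, hx, hc]⟩
        · exact ⟨false, mem_univ _, by simp [hΩb, hx]; omega⟩)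
    simpa [JN, Jn] using h
  have h2 := hgood hun k s p N hp
  have h3 := hbad hun hfour hhoB hshd hsa k s p N hp hk
  -- the good part
  obtain ⟨a, -, ha⟩ := hhoA hfour (Fin k → ℤ) (ZMod p) k s (Dist k p (Icc 1 (N : ℤ))) (PS k)
    (univ : Finset (ZMod p)) (fun a => Sa N p a) (Icc 1 (N : ℤ)) univ_nonempty
    (by
      intro x hx
      exact ⟨(x : ZMod p), mem_univ _, by simp only [Sa, mem_filter]; exact ⟨hx, trivial⟩⟩)
    (by
      intro t _
      exact filter_subset _ _)
    (by
      intro t _ t' _ htt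
      rw [Finset.disjoint_left]
      intro x hx hx'
      simp only [Sa, mem_filter] at hx hx'
      exact htt (hx.2.symm.trans hx'.2))
  have hcard : (univ : Finset (ZMod p)).card = p := by
    rw [Finset.card_univ, ZMod.card]
  rw [hcard] at ha
  have h4 := hcolA hshx hshd hinh hfact hpad k s p N hp (by omega) hkp hN a
  have h5 : col Ωg (PS k) ≤ (s + k).choose k ^ 2 * (p ^ (2 * s) *
      (N ^ k * (k.factorial * p ^ (k * (k - 1) / 2)) * JN s k (N / p + 1))) := by
    refine le_trans h2 ?_
    apply Nat.mul_le_mul_left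
    refine le_trans ha ?_
    apply Nat.mul_le_mul_left
    exact h4
  refine le_trans h1 ?_
  apply Nat.mul_le_mul_left
  exact Nat.add_le_add h5 h3

end Pool.Agent.CH.V
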