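import Pool.Agent.Lib.MP_d610d0_nt.CH.V.Stm

set_option autoImplicit false

/-!
Piece sa.
-/

namespace Pool.Agent.CH.V

open Finset Filter

/-- The elements of `Sa N p a` are of the form `c + p y` with `y ∈ {1, ..., N/p+1}`. -/
theorem sa_sub (N p : ℕ) (a : ZMod p) (hp : 1 ≤ p) :
    Sa N p a ⊆ (Icc 1 ((N / p + 1 : ℕ) : ℤ)).image
      (fun y => (((a.val : ℕ) : ℤ) - (p : ℤ)) + (p : ℤ) * y) := by
  have hne : NeZero p := ⟨by omega⟩
  intro x hx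
  rw [Sa, mem_filter, mem_Icc] at hx
  obtain ⟨⟨hx1, hxN⟩, hxa⟩ := hx
  have hval : (((a.val : ℕ) : ℤ) : ZMod p) = a := by
    rw [Int.cast_natCast, ZMod.natCast_zmod_val]
  have hdvd : (p : ℤ) ∣ x - ((a.val : ℕ) : ℤ) := by
    rw [← ZMod.intCast_zmod_eq_zero_iff_dvd, Int.cast_sub, hxa, hval, sub_self]
  obtain ⟨v, hv⟩ := hdvd
  have hlt : ((a.val : ℕ) : ℤ) < p := by exact_mod_cast ZMod.val_lt a
  have hge : (0 : ℤ) ≤ ((a.val : ℕ) : ℤ) := Int.natCast_nonneg _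
  have hpZ : (0 : ℤ) < p := by exact_mod_cast hp
  have hv0 : 0 ≤ v := by
    by_contra hc
    have h1 : v ≤ -1 := by omega
    have h2 : (p : ℤ) * v ≤ (p : ℤ) * (-1) := mul_le_mul_of_nonneg_left h1 hpZ.le
    omega
  have hvN : v ≤ (N : ℤ) / p := by
    rw [Int.le_ediv_iff_mul_le hpZ, mul_comm]
    omega
  rw [mem_image]
  refine ⟨v + 1, ?_, ?_⟩
  · rw [mem_Icc]
    push_cast
    constructor
    · omega
    · omega
  · linear_combination -hv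

theorem p_sa : S_sa := by
  intro hshd s k N p a hp
  have hp0 : (p : ℤ) ≠ 0 := by
    have : (1 : ℤ) ≤ p := by exact_mod_cast hp
    omega
  have h1 := (hshd s k (Sa N p a) ((Icc 1 ((N / p + 1 : ℕ) : ℤ)).image
      (fun y => (((a.val : ℕ) : ℤ) - (p : ℤ)) + (p : ℤ) * y)) 0 1 one_ne_zero).2 (sa_sub N p a hp)
  have h2 := (hshd s k (Icc 1 ((N / p + 1 : ℕ) : ℤ)) ∅ (((a.val : ℕ) : ℤ) - (p : ℤ)) (p : ℤ) hp0).1
  rw [h2] at h1
  exact h1

end Pool.Agent.CH.V
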