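import Pool.Agent.Lib.MP_d610d0_nt.CH.V.Stm

set_option autoImplicit false

/-!
Piece shd.
-/

namespace Pool.Agent.CH.V

open Finset Filter

theorem shd_col {ι ι' G G' : Type} [DecidableEq G] [DecidableEq G'] (Ω : Finset ι)
    (Ω' : Finset ι') (Φ : ι → G) (Φ' : ι' → G') (e : ι → ι') (he : ∀ p ∈ Ω, e p ∈ Ω')
    (hinj : ∀ p ∈ Ω, ∀ q ∈ Ω, e p = e q → p = q) (hsurj : ∀ p' ∈ Ω', ∃ p ∈ Ω, e p = p')
    (hΦ : ∀ p ∈ Ω, ∀ q ∈ Ω, (Φ' (e p) = Φ' (e q) ↔ Φ p = Φ q)) : col Ω' Φ' = col Ω Φ := by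
  symm
  unfold col
  refine Finset.card_bij (fun p _ => (e p.1, e p.2)) ?_ ?_ ?_
  · rintro ⟨a, b⟩ h
    simp only [mem_filter, mem_product] at h ⊢
    exact ⟨⟨he a h.1.1, he b h.1.2⟩, (hΦ a h.1.1 b h.1.2).2 h.2⟩
  · rintro ⟨a, b⟩ h ⟨a', b'⟩ h' heq
    simp only [mem_filter, mem_product] at h h'
    simp only [Prod.mk.injEq] at heq
    rw [hinj a h.1.1 a' h'.1.1 heq.1, hinj b h.1.2 b' h'.1.2 heq.2]
  · rintro ⟨a, b⟩ h
    simp only [mem_filter, mem_product] at h
    obtain ⟨a', ha', rfl⟩ := hsurj a h.1.1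
    obtain ⟨b', hb', rfl⟩ := hsurj b h.1.2
    refine ⟨(a', b'), ?_, rfl⟩
    simp only [mem_filter, mem_product]
    exact ⟨⟨ha', hb'⟩, (hΦ a' ha' b' hb').1 h.2⟩

theorem shd_exp {s : ℕ} (y : Fin s → ℤ) (c p : ℤ) (m : ℕ) :
    ∑ i, (c + p * y i) ^ m =
      ∑ j ∈ range (m + 1), (∑ i, y i ^ j) * (p ^ j * c ^ (m - j) * (m.choose j : ℤ)) := by
  simp only [Finset.sum_mul]
  rw [Finset.sum_comm]
  refine Finset.sum_congr rfl (fun i _ => ?_)
  rw [add_comm c, add_pow]
  refine Finset.sum_congr rfl (fun j _ => ?_)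
  rw [mul_pow]
  ring

theorem shd_ps {k s : ℕ} (x : Fin s → ℤ) (m : Fin k) : PS k x m = ∑ i, x i ^ ((m : ℕ) + 1) := by
  simp only [PS, ph, Finset.sum_apply]

theorem shd_one {k s : ℕ} (x x' : Fin s → ℤ) (c p : ℤ) (h : PS k x = PS k x') :
    PS k (fun i => c + p * x i) = PS k (fun i => c + p * x' i) := by
  funext m
  simp only [shd_ps]
  rw [shd_exp, shd_exp]
  refine Finset.sum_congr rfl (fun j hj => ?_)
  rcases Nat.eq_zero_or_pos j with h0 | h0
  · subst h0
    simp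
  · have hj' : j - 1 < k := by
      have := Finset.mem_range.1 hj
      have := m.2
      omega
    have e := congrFun h ⟨j - 1, hj'⟩
    simp only [shd_ps] at e
    rw [Nat.sub_add_cancel h0] at e
    rw [e]

theorem shd_iff {k s : ℕ} (x x' : Fin s → ℤ) (c p : ℤ) (hp : p ≠ 0) :
    PS k (fun i => c + p * x i) = PS k (fun i => c + p * x' i) ↔ PS k x = PS k x' := by
  constructor
  · intro h
    have h1 := shd_one _ _ (-c) 1 h
    have h2 : PS k (fun i => p * x i) = PS k (fun i => p * x' i) := by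
      have e : ∀ y : Fin s → ℤ, (fun i => -c + 1 * (c + p * y i)) = fun i => p * y i := by
        intro y
        funext i
        ring
      rw [e, e] at h1
      exact h1
    funext m
    have h3 := congrFun h2 m
    simp only [shd_ps] at h3 ⊢
    simp only [mul_pow] at h3
    rw [← Finset.mul_sum, ← Finset.mul_sum] at h3
    exact mul_left_cancel₀ (pow_ne_zero _ hp) h3
  · exact shd_one x x' c p

theorem p_shd : S_shd := by
  intro s k S S' c p hp
  refine ⟨?_, ?_⟩
  · unfold Jn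
    refine shd_col _ _ _ _ (fun x => (fun i => c + p * x i)) ?_ ?_ ?_ ?_
    · intro x h
      unfold Tup at h ⊢
      rw [Fintype.mem_piFinset] at h ⊢
      intro a
      exact mem_image.2 ⟨x a, h a, rfl⟩
    · intro x _ x' _ h
      funext i
      have h1 := congrFun h i
      simp only [add_right_inj] at h1
      exact mul_left_cancel₀ hp h1
    · intro x h
      unfold Tup at h ⊢
      rw [Fintype.mem_piFinset] at h
      have h' : ∀ a, ∃ y ∈ S, c + p * y = x a := fun a => mem_image.1 (h a)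
      choose y hy hy' using h'
      exact ⟨y, Fintype.mem_piFinset.2 hy, funext hy'⟩
    · intro x _ x' _
      exact shd_iff x x' c p hp
  · intro hS
    unfold Jn col Tup
    refine Finset.card_le_card ?_
    intro q hq
    simp only [mem_filter, mem_product, Fintype.mem_piFinset] at hq ⊢
    exact ⟨⟨fun a => hS (hq.1.1 a), fun a => hS (hq.1.2 a)⟩, hq.2⟩

end Pool.Agent.CH.V
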