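import Pool.Agent.Lib.MP_d610d0_nt.CH.V.Stm

set_option autoImplicit false

/-!
Piece shx.
-/

namespace Pool.Agent.CH.V

open Finset Filter

theorem shx_col {ι ι' G G' : Type} [DecidableEq G] [DecidableEq G'] (Ω : Finset ι)
    (Ω' : Finset ι') (Φ : ι → G) (Φ' : ι' → G') (e : ι → ι') (he : ∀ p ∈ Ω, e p ∈ Ω')
    (hinj : ∀ p ∈ Ω, ∀ q ∈ Ω, e p = e q → p = q) (hsurj : ∀ p' ∈ Ω', ∃ p ∈ Ω, e p = p')
    (hΦ : ∀ p ∈ Ω, ∀ q ∈ Ω, (Φ' (e p) = Φ' (e q) ↔ Φ p = Φ q)) : col Ω' Φ' = col Ω Φ := by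
  symm
  unfold col
  refine Finset.card_bij (fun p _ => (e p.1, e p.2)) ?_ ?_ ?_
  · rintro ⟨a, b⟩ h
    simp only [mem_filter, mem_product] at h ⊢
    exact ⟨⟨he a h.1.1, he b h.1.2⟩, (hΦ a h.1.1 b h.1.2).2 h.2⟩
  · rintro ⟨a, b⟩ h ⟨a', b'⟩ h' heq
    simp only [mem_filter, mem_product] at h h'
    simp only [Prod.mk.injEq] at heq
    rw [hinj a h.1.1 a' h'.1.1 heq.1, hinj b h.1.2 b' h'.1.2 heq.2]
  · rintro ⟨a, b⟩ h
    simp only [mem_filter, mem_product] at h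
    obtain ⟨a', ha', rfl⟩ := hsurj a h.1.1
    obtain ⟨b', hb', rfl⟩ := hsurj b h.1.2
    refine ⟨(a', b'), ?_, rfl⟩
    simp only [mem_filter, mem_product]
    exact ⟨⟨ha', hb'⟩, (hΦ a' ha' b' hb').1 h.2⟩

theorem shx_exp {r s : ℕ} (x : Fin r → ℤ) (w : Fin s → ℤ) (c : ℤ) (m : ℕ) :
    (∑ i, (x i + c) ^ m) + ∑ l, (w l + c) ^ m =
      ∑ j ∈ range (m + 1), ((∑ i, x i ^ j) + ∑ l, w l ^ j) * (c ^ (m - j) * (m.choose j : ℤ)) := by
  have h1 : ∀ (t : ℕ) (y : Fin t → ℤ), ∑ i, (y i + c) ^ m =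
      ∑ j ∈ range (m + 1), (∑ i, y i ^ j) * (c ^ (m - j) * (m.choose j : ℤ)) := by
    intro t y
    simp only [Finset.sum_mul]
    rw [Finset.sum_comm]
    refine Finset.sum_congr rfl (fun i _ => ?_)
    rw [add_pow]
    refine Finset.sum_congr rfl (fun j _ => ?_)
    ring
  rw [h1, h1, ← Finset.sum_add_distrib]
  refine Finset.sum_congr rfl (fun j _ => ?_)
  ring

theorem shx_ps {k s : ℕ} (x : Fin s → ℤ) (m : Fin k) : PS k x m = ∑ i, x i ^ ((m : ℕ) + 1) := by
  simp only [PS, ph, Finset.sum_apply]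

theorem shx_one {k r s : ℕ} (x x' : Fin r → ℤ) (w w' : Fin s → ℤ) (c : ℤ)
    (h : PS k x + PS k w = PS k x' + PS k w') :
    PS k (fun i => x i + c) + PS k (fun i => w i + c) =
      PS k (fun i => x' i + c) + PS k (fun i => w' i + c) := by
  funext m
  simp only [Pi.add_apply, shx_ps]
  rw [shx_exp, shx_exp]
  refine Finset.sum_congr rfl (fun j hj => ?_)
  rcases Nat.eq_zero_or_pos j with h0 | h0
  · subst h0
    simp
  · have hj' : j - 1 < k := by
      have := Finset.mem_range.1 hj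
      have := m.2
      omega
    have e := congrFun h ⟨j - 1, hj'⟩
    simp only [Pi.add_apply, shx_ps] at e
    rw [Nat.sub_add_cancel h0] at e
    rw [e]

theorem shx_iff {k r s : ℕ} (x x' : Fin r → ℤ) (w w' : Fin s → ℤ) (c : ℤ) :
    (PS k (fun i => x i + c) + PS k (fun i => w i + c) =
      PS k (fun i => x' i + c) + PS k (fun i => w' i + c)) ↔
    PS k x + PS k w = PS k x' + PS k w' := by
  constructor
  · intro h
    have := shx_one _ _ _ _ (-c) h
    simpa only [add_neg_cancel_right] using this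
  · exact shx_one x x' w w' c

theorem p_shx : S_shx := by
  intro r s k A S c
  unfold colx
  refine shx_col _ _ _ _ (fun p => ((fun i => p.1 i + c), (fun i => p.2 i + c))) ?_ ?_ ?_ ?_
  · rintro ⟨x, w⟩ h
    rw [mem_product] at h ⊢
    refine ⟨mem_image.2 ⟨x, h.1, rfl⟩, ?_⟩
    rw [Fintype.mem_piFinset]
    intro a
    exact mem_image.2 ⟨w a, Fintype.mem_piFinset.1 h.2 a, rfl⟩
  · rintro ⟨x, w⟩ _ ⟨x', w'⟩ _ h
    simp only [Prod.mk.injEq] at h
    refine Prod.ext ?_ ?_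
    · funext i
      have := congrFun h.1 i
      simpa using this
    · funext i
      have := congrFun h.2 i
      simpa using this
  · rintro ⟨x, w⟩ h
    rw [mem_product] at h
    obtain ⟨x', hx', hx⟩ := mem_image.1 h.1
    have hw := Fintype.mem_piFinset.1 h.2
    refine ⟨(x', fun i => w i - c), ?_, ?_⟩
    · rw [mem_product]
      refine ⟨hx', ?_⟩
      rw [Fintype.mem_piFinset]
      intro a
      obtain ⟨y, hy, hy'⟩ := mem_image.1 (hw a)
      have hy2 : y + c = w a := hy'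
      have : w a - c = y := by
        rw [← hy2]
        ring
      simp only [this]
      exact hy
    · refine Prod.ext ?_ ?_
      · exact hx
      · funext i
        simp
  · rintro ⟨x, w⟩ _ ⟨x', w'⟩ _
    exact shx_iff x x' w w' c

end Pool.Agent.CH.V
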