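import Pool.Agent.Lib.MP_d610d0_nt.CH.V.Stm

set_option autoImplicit false

/-!
Piece sj.
-/

namespace Pool.Agent.CH.V

open Finset Filter

theorem sj_al (t c : ℝ) (m : ℕ) (ht : 0 < t) (hc : 0 < c) :
    |al t c m| = t / (2 * Real.pi * (((m : ℝ) + 1) * c ^ (m + 1))) := by
  have hpi := Real.pi_pos
  unfold al
  rw [abs_mul, abs_neg, abs_div, abs_div, abs_pow, abs_neg, abs_one, one_pow,
    abs_of_pos ht, abs_of_pos (by positivity : (0 : ℝ) < 2 * Real.pi),
    abs_of_pos (by positivity : (0 : ℝ) < ((m : ℝ) + 1) * c ^ (m + 1))]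
  field_simp

/-- linear functions against `exp (L / 10)` -/
theorem sj_lin (L : ℝ) (h1 : 1000 ≤ L) : 100 + 100 * L ≤ Real.exp (L / 10) := by
  have h4 : L / 40 + 1 ≤ Real.exp (L / 40) := Real.add_one_le_exp _
  have h5 : Real.exp (L / 10) = Real.exp (L / 40) ^ 4 := by
    rw [← Real.exp_nat_mul]; congr 1; push_cast; ring
  have h6 : (L / 40) ^ 4 ≤ Real.exp (L / 10) := by
    rw [h5]
    exact pow_le_pow_left₀ (by linarith) (by linarith) 4
  have h7 : (1000 : ℝ) ^ 3 ≤ L ^ 3 := pow_le_pow_left₀ (by norm_num) h1 3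
  have h8 : (1000 : ℝ) ^ 3 * L ≤ L ^ 3 * L := mul_le_mul_of_nonneg_right h7 (by linarith)
  have h9 : (L / 40) ^ 4 = L ^ 3 * L / 2560000 := by ring
  rw [h9] at h6
  nlinarith

theorem sj_e3 : 13 ≤ Real.exp 3 := by
  have h : Real.exp 3 = Real.exp 1 ^ 3 := by
    rw [← Real.exp_nat_mul]; congr 1; norm_num
  rw [h]
  have h1 : (2.718 : ℝ) ≤ Real.exp 1 := by
    have := Real.exp_one_gt_d9
    linarith
  calc (13 : ℝ) ≤ 2.718 ^ 3 := by norm_num
    _ ≤ Real.exp 1 ^ 3 := pow_le_pow_left₀ (by norm_num) h1 3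

/-- `4 π j 12^j ≤ exp (3 + 4 j)` -/
theorem sj_j (j : ℕ) : 4 * Real.pi * j * 12 ^ j ≤ Real.exp (3 + 4 * j) := by
  have h1 : (j : ℝ) ≤ Real.exp j := by
    have := Real.add_one_le_exp (j : ℝ)
    linarith
  have h2 : (12 : ℝ) ^ j ≤ Real.exp (3 * j) := by
    rw [mul_comm, Real.exp_nat_mul]
    exact pow_le_pow_left₀ (by norm_num) (by linarith [sj_e3]) j
  have h3 : 4 * Real.pi ≤ Real.exp 3 := by
    have := Real.pi_lt_d2
    linarith [sj_e3]
  have h4 : Real.exp (3 + 4 * j) = Real.exp 3 * Real.exp j * Real.exp (3 * j) := by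
    rw [← Real.exp_add, ← Real.exp_add]; congr 1; ring
  rw [h4]
  have hpi := Real.pi_pos
  exact mul_le_mul (mul_le_mul h3 h1 (by positivity) (by positivity)) h2 (by positivity)
    (by positivity)

/-- the real inequality -/
theorem sj_core (L τ A V : ℝ) (j : ℕ) (hτ : 9 / 10 ≤ τ) (hL : 1000 * (τ + 1) ≤ L)
    (hj1 : τ + 1 / 5 ≤ j) (hj2 : (j : ℝ) ≤ τ + 6 / 5) (hj : 2 ≤ j)
    (hA1 : Real.exp (L * (τ - j)) / (2 * Real.pi * (j * 3 ^ j)) ≤ A)
    (hA2 : A ≤ Real.exp (L * (τ - j)) / (2 * Real.pi * j))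
    (hV : (Real.exp (2 * L / 5) / 2) ^ j ≤ V) :
    0 < A ∧ A ≤ 1 / 2 ∧
    (2 * V * A + 2) * (4 * V + 2 + (1 / A) * (1 + Real.log (1 / A))) ≤
      3 * V ^ 2 * Real.exp (-(L / 5)) := by
  have hpi := Real.pi_pos
  have hpi3 := Real.pi_gt_three
  have hL0 : 1000 ≤ L := by linarith
  have hj2' : (2 : ℝ) ≤ j := by exact_mod_cast hj
  have hj0 : (0 : ℝ) < j := by linarith
  have hA0 : 0 < A := lt_of_lt_of_le (by positivity) hA1
  have hlin := sj_lin L hL0
  -- the bound for `A`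
  have hA3 : 12 * A ≤ Real.exp (-(L / 5)) := by
    have h1 : Real.exp (L * (τ - j)) ≤ Real.exp (-(L / 5)) := by
      apply Real.exp_le_exp.mpr
      nlinarith
    have h2 : A * (2 * Real.pi * j) ≤ Real.exp (L * (τ - j)) := by
      rwa [le_div_iff₀ (by positivity)] at hA2
    have h3 : (12 : ℝ) ≤ 2 * Real.pi * j := by nlinarith
    have h4 : A * 12 ≤ A * (2 * Real.pi * j) := mul_le_mul_of_nonneg_left h3 hA0.le
    linarith
  have hA4 : A ≤ 1 / 2 := by
    have h1 : Real.exp (-(L / 5)) ≤ 1 := Real.exp_le_one_iff.mpr (by linarith)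
    linarith
  refine ⟨hA0, hA4, ?_⟩
  -- the bound for `1 / A`
  have hB : 1 / A ≤ 2 * Real.pi * (j * 3 ^ j) * Real.exp (L * (j - τ)) := by
    rw [div_le_iff₀ (by positivity)] at hA1
    rw [div_le_iff₀ hA0]
    have h1 : Real.exp (L * (τ - j)) * Real.exp (L * (j - τ)) = 1 := by
      rw [← Real.exp_add, ← Real.exp_zero]; congr 1; ring
    have h2 := mul_le_mul_of_nonneg_right hA1 (Real.exp_pos (L * (j - τ))).le
    rw [h1] at h2
    linarith [h2]
  -- the logarithm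
  have hΛ : Real.log (1 / A) ≤ 2 * L := by
    rw [Real.log_le_iff_le_exp (by positivity)]
    refine hB.trans ?_
    have h1 := sj_j j
    have h2 : 2 * Real.pi * ((j : ℝ) * 3 ^ j) ≤ 4 * Real.pi * j * 12 ^ j := by
      have h3 : (3 : ℝ) ^ j ≤ 12 ^ j := pow_le_pow_left₀ (by norm_num) (by norm_num) j
      have h4 : 2 * Real.pi * j * 3 ^ j ≤ 4 * Real.pi * j * 12 ^ j := by
        apply mul_le_mul _ h3 (by positivity) (by positivity)
        nlinarith [mul_pos hpi hj0]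
      linarith
    calc 2 * Real.pi * ((j : ℝ) * 3 ^ j) * Real.exp (L * (j - τ))
        ≤ Real.exp (3 + 4 * j) * Real.exp (L * (j - τ)) :=
          mul_le_mul_of_nonneg_right (h2.trans h1) (Real.exp_pos _).le
      _ = Real.exp (3 + 4 * j + L * (j - τ)) := by rw [← Real.exp_add]
      _ ≤ Real.exp (2 * L) := by
          apply Real.exp_le_exp.mpr
          have h5 : L * (j - τ) ≤ L * (6 / 5) :=
            mul_le_mul_of_nonneg_left (by linarith) (by linarith)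
          nlinarith
  have hΛ0 : 0 ≤ 1 + Real.log (1 / A) := by
    have : 0 ≤ Real.log (1 / A) := Real.log_nonneg (by
      rw [le_div_iff₀ hA0]; linarith)
    linarith
  -- the size of `V`
  have he : 1 ≤ Real.exp (2 * L / 5) / 2 := by
    have : 2 * L / 5 + 1 ≤ Real.exp (2 * L / 5) := Real.add_one_le_exp _
    linarith
  have hV0 : 0 < V := lt_of_lt_of_le (by positivity) hV
  have hV1 : 1 ≤ V := (one_le_pow₀ he).trans hV
  have hV2 : Real.exp (4 * L / 5) / 4 ≤ V := by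
    have h1 : (Real.exp (2 * L / 5) / 2) ^ 2 ≤ (Real.exp (2 * L / 5) / 2) ^ j :=
      pow_le_pow_right₀ he hj
    have h2 : (Real.exp (2 * L / 5) / 2) ^ 2 = Real.exp (4 * L / 5) / 4 := by
      have h3 : Real.exp (4 * L / 5) = Real.exp (2 * L / 5) ^ 2 := by
        rw [← Real.exp_nat_mul]; congr 1; push_cast; ring
      rw [h3, div_pow]; norm_num
    rw [h2] at h1
    exact h1.trans hV
  have hV3 : Real.exp (4 * L * j / 5) / 4 ^ j ≤ V ^ 2 := by
    have h1 : ((Real.exp (2 * L / 5) / 2) ^ j) ^ 2 ≤ V ^ 2 :=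
      pow_le_pow_left₀ (by positivity) hV 2
    have h2 : ((Real.exp (2 * L / 5) / 2) ^ j) ^ 2 = Real.exp (4 * L * j / 5) / 4 ^ j := by
      rw [← pow_mul, mul_comm j 2, pow_mul, div_pow, div_pow, ← Real.exp_nat_mul,
        ← Real.exp_nat_mul]
      congr 1
      · congr 1; push_cast; ring
      · norm_num
    rwa [h2] at h1
  -- the three terms
  have T1 : 12 * V ^ 2 * A ≤ V ^ 2 * Real.exp (-(L / 5)) := by
    have := mul_le_mul_of_nonneg_left hA3 (sq_nonneg V)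
    linarith
  have T2 : 14 * V + 2 * V * Real.log (1 / A) ≤ V ^ 2 * Real.exp (-(L / 5)) := by
    have h1 : 14 + 4 * L ≤ V * Real.exp (-(L / 5)) := by
      have h2 : Real.exp (4 * L / 5) / 4 * Real.exp (-(L / 5)) ≤ V * Real.exp (-(L / 5)) :=
        mul_le_mul_of_nonneg_right hV2 (Real.exp_pos _).le
      have h3 : Real.exp (4 * L / 5) / 4 * Real.exp (-(L / 5)) = Real.exp (3 * L / 5) / 4 := by
        rw [div_mul_eq_mul_div, ← Real.exp_add]; congr 2; ring
      have h4 : Real.exp (L / 10) ≤ Real.exp (3 * L / 5) := Real.exp_le_exp.mpr (by linarith)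
      rw [h3] at h2
      linarith
    have h2 : V * (14 + 4 * L) ≤ V * (V * Real.exp (-(L / 5))) :=
      mul_le_mul_of_nonneg_left h1 hV0.le
    have h3 : 2 * V * Real.log (1 / A) ≤ 2 * V * (2 * L) :=
      mul_le_mul_of_nonneg_left hΛ (by linarith)
    nlinarith
  have T3 : 2 * (1 / A) * (1 + Real.log (1 / A)) ≤ V ^ 2 * Real.exp (-(L / 5)) := by
    have h1 : 2 * (1 / A) * (1 + Real.log (1 / A)) ≤
        2 * (2 * Real.pi * (j * 3 ^ j) * Real.exp (L * (j - τ))) * (1 + 2 * L) := by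
      apply mul_le_mul _ (by linarith) hΛ0 (by positivity)
      linarith
    refine h1.trans ?_
    have h2 : Real.exp (4 * L * j / 5) / 4 ^ j * Real.exp (-(L / 5)) ≤
        V ^ 2 * Real.exp (-(L / 5)) := mul_le_mul_of_nonneg_right hV3 (Real.exp_pos _).le
    refine le_trans ?_ h2
    rw [div_mul_eq_mul_div, ← Real.exp_add, le_div_iff₀ (by positivity)]
    have h3 := sj_j j
    have h4 : 1 + 2 * L ≤ Real.exp (L / 10) := by linarith
    have h12 : (12 : ℝ) ^ j = 3 ^ j * 4 ^ j := by rw [← mul_pow]; norm_num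
    calc 2 * (2 * Real.pi * ((j : ℝ) * 3 ^ j) * Real.exp (L * (j - τ))) * (1 + 2 * L) * 4 ^ j
        = 4 * Real.pi * j * 12 ^ j * (1 + 2 * L) * Real.exp (L * (j - τ)) := by
          rw [h12]; ring
      _ ≤ Real.exp (3 + 4 * j) * Real.exp (L / 10) * Real.exp (L * (j - τ)) := by
          apply mul_le_mul_of_nonneg_right _ (Real.exp_pos _).le
          exact mul_le_mul h3 h4 (by linarith) (Real.exp_pos _).le
      _ = Real.exp (3 + 4 * j + L / 10 + L * (j - τ)) := by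
          rw [← Real.exp_add, ← Real.exp_add]
      _ ≤ Real.exp (4 * L * j / 5 + -(L / 5)) := by
          apply Real.exp_le_exp.mpr
          have h5 : L * (j : ℝ) ≤ L * (τ + 6 / 5) := mul_le_mul_of_nonneg_left hj2 (by linarith)
          nlinarith
  have e1 : (2 * V * A + 2) * (4 * V + 2 + (1 / A) * (1 + Real.log (1 / A))) =
      8 * V ^ 2 * A + 4 * V * A + 8 * V + 4 + 2 * V * (A * (1 / A)) * (1 + Real.log (1 / A)) +
        2 * (1 / A) * (1 + Real.log (1 / A)) := by ring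
  rw [e1, mul_one_div_cancel hA0.ne']
  have h6 : 4 * V * A ≤ 4 * V ^ 2 * A := by nlinarith [mul_pos hV0 hA0]
  nlinarith

theorem p_sj : S_sj := by
  intro hgeo hmin
  refine ⟨1000, by norm_num, ?_⟩
  intro τ N b c hτ hL hc1 hc2 hb
  set L := Real.log N with hLdef
  have hL0 : 1000 ≤ L := by linarith
  have hN0 : (0 : ℝ) < N := by
    rcases Nat.eq_zero_or_pos N with h | h
    · rw [h, Nat.cast_zero, Real.log_zero] at hLdef
      linarith
    · exact_mod_cast h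
  have hNL : (N : ℝ) = Real.exp L := (Real.exp_log hN0).symm
  have hc0 : 0 < c := lt_of_lt_of_le hN0 hc1
  set j := ⌈τ + 1 / 5⌉₊ with hjdef
  have hj1 : τ + 1 / 5 ≤ j := Nat.le_ceil _
  have hj2 : (j : ℝ) ≤ τ + 6 / 5 := by
    have := (Nat.ceil_lt_add_one (by linarith : (0 : ℝ) ≤ τ + 1 / 5)).le
    linarith
  have hj : 2 ≤ j := by
    have h1 : (1 : ℝ) < j := by linarith
    have h2 : 1 < j := by exact_mod_cast h1
    omega
  have hjs : j - 1 + 1 = j := by omega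
  have hjc : ((j - 1 : ℕ) : ℝ) + 1 = j := by
    have : (((j - 1 + 1 : ℕ)) : ℝ) = (j : ℝ) := by rw [hjs]
    rw [← this]; push_cast; ring
  have ht : (0 : ℝ) < (N : ℝ) ^ τ := Real.rpow_pos_of_pos hN0 τ
  have hA : |al ((N : ℝ) ^ τ) c (j - 1)| = (N : ℝ) ^ τ / (2 * Real.pi * ((j : ℝ) * c ^ j)) := by
    rw [sj_al _ _ _ ht hc0, hjs, hjc]
  have hpi := Real.pi_pos
  have hj0 : (0 : ℝ) < j := by linarith
  have hNt : (N : ℝ) ^ τ = Real.exp (L * τ) := Real.rpow_def_of_pos hN0 τ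
  have hNj : (N : ℝ) ^ j = Real.exp (L * j) := by
    rw [hNL, ← Real.exp_nat_mul]; congr 1; ring
  have hA1 : Real.exp (L * (τ - j)) / (2 * Real.pi * (j * 3 ^ j)) ≤
      |al ((N : ℝ) ^ τ) c (j - 1)| := by
    rw [hA, div_le_div_iff₀ (by positivity) (by positivity), hNt]
    have h1 : c ^ j ≤ 3 ^ j * Real.exp (L * j) := by
      rw [← hNj, ← mul_pow]; exact pow_le_pow_left₀ hc0.le hc2 j
    have h2 : Real.exp (L * τ) = Real.exp (L * (τ - j)) * Real.exp (L * j) := by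
      rw [← Real.exp_add]; congr 1; ring
    rw [h2]
    have h3 := mul_le_mul_of_nonneg_left h1
      (by positivity : 0 ≤ Real.exp (L * (τ - j)) * (2 * Real.pi * j))
    linarith [h3]
  have hA2 : |al ((N : ℝ) ^ τ) c (j - 1)| ≤ Real.exp (L * (τ - j)) / (2 * Real.pi * j) := by
    rw [hA, div_le_div_iff₀ (by positivity) (by positivity), hNt]
    have h1 : Real.exp (L * j) ≤ c ^ j := by
      rw [← hNj]; exact pow_le_pow_left₀ hN0.le hc1 j
    have h2 : Real.exp (L * τ) = Real.exp (L * (τ - j)) * Real.exp (L * j) := by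
      rw [← Real.exp_add]; congr 1; ring
    rw [h2]
    have h3 := mul_le_mul_of_nonneg_left h1
      (by positivity : 0 ≤ Real.exp (L * (τ - j)) * (2 * Real.pi * j))
    linarith [h3]
  set Y := ⌊(N : ℝ) ^ (2 / 5 : ℝ)⌋₊ with hYdef
  have hN25 : (N : ℝ) ^ (2 / 5 : ℝ) = Real.exp (2 * L / 5) := by
    rw [Real.rpow_def_of_pos hN0]; congr 1; ring
  have hY : Real.exp (2 * L / 5) / 2 ≤ Y := by
    have h1 := Nat.lt_floor_add_one ((N : ℝ) ^ (2 / 5 : ℝ))
    rw [← hYdef, hN25] at h1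
    have h2 : 2 * L / 5 + 1 ≤ Real.exp (2 * L / 5) := Real.add_one_le_exp _
    linarith
  have hb1 : (1 : ℝ) ≤ b := by exact_mod_cast hb
  have hV : (Real.exp (2 * L / 5) / 2) ^ j ≤ (b : ℝ) * (Y : ℝ) ^ j := by
    have h1 : (Real.exp (2 * L / 5) / 2) ^ j ≤ (Y : ℝ) ^ j :=
      pow_le_pow_left₀ (by positivity) hY j
    have h2 : (1 : ℝ) * (Y : ℝ) ^ j ≤ b * (Y : ℝ) ^ j :=
      mul_le_mul_of_nonneg_right hb1 (by positivity)
    linarith
  obtain ⟨h1, h2, h3⟩ := sj_core L τ _ _ j hτ hL hj1 hj2 hj hA1 hA2 hV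
  have hY0 : 0 < Y := by
    have : (0 : ℝ) < Y := lt_of_lt_of_le (by positivity) hY
    exact_mod_cast this
  have hV1 : 1 ≤ b * Y ^ j := Nat.mul_pos hb (pow_pos hY0 j)
  have h4 := hmin hgeo (al ((N : ℝ) ^ τ) c (j - 1)) (b * Y ^ j) hV1 h1 h2
  refine h4.trans ?_
  have e1 : (((b * Y ^ j : ℕ)) : ℝ) = (b : ℝ) * (Y : ℝ) ^ j := by push_cast; ring
  have e2 : (N : ℝ) ^ (-(1 / 5 : ℝ)) = Real.exp (-(L / 5)) := by
    rw [Real.rpow_def_of_pos hN0]; congr 1; ring
  rw [e1, e2]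
  exact h3

end Pool.Agent.CH.V
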