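import Pool.Agent.Lib.MP_d610d0_nt.CH.V.Stm

set_option autoImplicit false

/-!
Piece step.
-/

namespace Pool.Agent.CH.V

open Finset Filter

theorem step_nat (k s p N N' : ℕ) (hk : 7 ≤ k) (hs : k ^ 2 ≤ s) (hp : k ^ 6 ≤ p)
    (hN : N ≤ p ^ k) (hN' : p * N' ≤ 2 * N) :
    (p ^ (k - 1) * k ^ (s + k)) ^ 2 * N' ^ (2 * k) ≤ p ^ (2 * s) * N ^ k * p ^ (k * (k - 1) / 2) := by
  have hp0 : 0 < p := lt_of_lt_of_le (by positivity) hp
  have h1 : p ^ 2 * ((p ^ (k - 1) * k ^ (s + k)) ^ 2 * N' ^ (2 * k)) =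
      (p * N') ^ (2 * k) * k ^ (2 * s + 2 * k) := by
    have e1 : p ^ (2 * k) = p ^ 2 * (p ^ (k - 1)) ^ 2 := by
      rw [← pow_mul, ← pow_add]; congr 1; omega
    rw [mul_pow p N', e1, mul_pow (p ^ (k - 1)), ← pow_mul k (s + k) 2,
      show (s + k) * 2 = 2 * s + 2 * k by ring]
    ring
  have h2 : (p * N') ^ (2 * k) ≤ 4 ^ k * N ^ k * N ^ k := by
    calc (p * N') ^ (2 * k) ≤ (2 * N) ^ (2 * k) := Nat.pow_le_pow_left hN' _
      _ = 4 ^ k * N ^ k * N ^ k := by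
        rw [mul_pow, pow_mul 2 2 k, two_mul k, pow_add]; norm_num [mul_assoc]
  have h3 : N ^ k ≤ p ^ s := by
    calc N ^ k ≤ (p ^ k) ^ k := Nat.pow_le_pow_left hN _
      _ = p ^ (k ^ 2) := by rw [← pow_mul]; congr 1; ring
      _ ≤ p ^ s := Nat.pow_le_pow_right hp0 hs
  have h4 : 4 ^ k * k ^ (2 * s + 2 * k) ≤ p ^ s := by
    calc 4 ^ k * k ^ (2 * s + 2 * k) ≤ k ^ k * k ^ (2 * s + 2 * k) :=
          Nat.mul_le_mul_right _ (Nat.pow_le_pow_left (by omega) _)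
      _ = k ^ (k + (2 * s + 2 * k)) := by rw [← pow_add]
      _ ≤ k ^ (6 * s) := by
          apply Nat.pow_le_pow_right (by omega)
          nlinarith
      _ = (k ^ 6) ^ s := by rw [← pow_mul]
      _ ≤ p ^ s := Nat.pow_le_pow_left hp _
  have h5 : p ^ 2 * ((p ^ (k - 1) * k ^ (s + k)) ^ 2 * N' ^ (2 * k)) ≤
      p ^ 2 * (p ^ (2 * s) * N ^ k * p ^ (k * (k - 1) / 2)) := by
    rw [h1]
    calc (p * N') ^ (2 * k) * k ^ (2 * s + 2 * k) ≤ (4 ^ k * N ^ k * N ^ k) * k ^ (2 * s + 2 * k) :=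
          Nat.mul_le_mul_right _ h2
      _ = (4 ^ k * k ^ (2 * s + 2 * k)) * N ^ k * N ^ k := by ring
      _ ≤ p ^ s * p ^ s * N ^ k := Nat.mul_le_mul_right _ (Nat.mul_le_mul h4 h3)
      _ = 1 * (p ^ (2 * s) * N ^ k * 1) := by rw [two_mul s, pow_add]; ring
      _ ≤ p ^ 2 * (p ^ (2 * s) * N ^ k * p ^ (k * (k - 1) / 2)) := by
          apply Nat.mul_le_mul (Nat.one_le_pow _ _ hp0)
          exact Nat.mul_le_mul_left _ (Nat.one_le_pow _ _ hp0)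
  exact Nat.le_of_mul_le_mul_left h5 (by positivity)

theorem step_real (k s p N N' : ℕ) (C δ J y : ℝ) (hk : 7 ≤ k) (hs : k ^ 2 ≤ s) (hC : 1 ≤ C) (hδ : 0 ≤ δ)
    (hδ' : δ ≤ (k : ℝ) * (k + 1) / 2) (hp : 0 < p) (hN : 1 ≤ N) (hN' : p * N' ≤ 2 * N)
    (hy : y = (N : ℝ) ^ (1 / (k : ℝ))) (hpy : (p : ℝ) ≤ 2 * y)
    (hJ : J ≤ C * (N' : ℝ) ^ (2 * (s : ℝ) - (k : ℝ) * (k + 1) / 2 + δ)) :
    (p : ℝ) ^ (2 * s) * (N : ℝ) ^ k * (p : ℝ) ^ (k * (k - 1) / 2) * J ≤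
      C * 2 ^ (2 * s + k ^ 2) *
        (N : ℝ) ^ (2 * ((s : ℝ) + k) - (k : ℝ) * (k + 1) / 2 + δ * (1 - 1 / k)) := by
  have hk' : (7 : ℝ) ≤ k := by exact_mod_cast hk
  have hk0 : (0 : ℝ) < k := by linarith
  have hs' : (k : ℝ) ^ 2 ≤ s := by exact_mod_cast hs
  have hp0 : (0 : ℝ) < p := by exact_mod_cast hp
  have hN0 : (0 : ℝ) < N := by exact_mod_cast hN
  have hN1 : (1 : ℝ) ≤ N := by exact_mod_cast hN
  obtain ⟨q, hq⟩ : ∃ q, q = k * (k - 1) / 2 := ⟨_, rfl⟩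
  have hq2 : 2 * (q : ℝ) = (k : ℝ) * (k - 1) := by
    obtain ⟨m, hm⟩ := Nat.even_mul_pred_self k
    have : q = m := by rw [hq]; omega
    have h2 : ((k * (k - 1) : ℕ) : ℝ) = ((m + m : ℕ) : ℝ) := by rw [hm]
    rw [this]
    push_cast [Nat.cast_sub (by omega : 1 ≤ k)] at h2
    linarith
  rw [← hq]
  obtain ⟨e, he⟩ : ∃ e, e = 2 * (s : ℝ) - (k : ℝ) * (k + 1) / 2 + δ := ⟨_, rfl⟩
  rw [← he] at hJ
  have he0 : 0 ≤ e := by rw [he]; nlinarith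
  have hNp : (N' : ℝ) ≤ 2 * N / p := by
    rw [le_div_iff₀ hp0]
    have : ((p * N' : ℕ) : ℝ) ≤ ((2 * N : ℕ) : ℝ) := by exact_mod_cast hN'
    push_cast at this
    linarith
  have h1 : J ≤ C * (2 * N / p) ^ e := by
    refine hJ.trans ?_
    gcongr
  have h2 : (p : ℝ) ^ (2 * s) * (N : ℝ) ^ k * (p : ℝ) ^ q * J ≤
      (p : ℝ) ^ (2 * s) * (N : ℝ) ^ k * (p : ℝ) ^ q * (C * (2 * N / p) ^ e) := by
    gcongr
  have h3 : (p : ℝ) ^ (2 * s) * (N : ℝ) ^ k * (p : ℝ) ^ q * (C * (2 * N / p) ^ e) =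
      C * (2 : ℝ) ^ e * ((N : ℝ) ^ (k : ℝ) * (N : ℝ) ^ e) *
        (p : ℝ) ^ ((k : ℝ) ^ 2 - δ) := by
    have e1 : (2 * (N : ℝ) / p) ^ e = (2 : ℝ) ^ e * (N : ℝ) ^ e / (p : ℝ) ^ e := by
      rw [Real.div_rpow (by positivity) hp0.le, Real.mul_rpow (by norm_num) hN0.le]
    have e2 : (p : ℝ) ^ ((k : ℝ) ^ 2 - δ) = (p : ℝ) ^ (2 * s) * (p : ℝ) ^ q / (p : ℝ) ^ e := by
      rw [eq_div_iff (by positivity), ← Real.rpow_add hp0, ← pow_add,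
        ← Real.rpow_natCast (p : ℝ) (2 * s + q)]
      congr 1
      push_cast
      rw [he]
      linarith
    rw [e1, e2, Real.rpow_natCast]
    ring
  have hy0 : 0 < y := by rw [hy]; positivity
  have hkδ : 0 ≤ (k : ℝ) ^ 2 - δ := by nlinarith
  have h4 : (p : ℝ) ^ ((k : ℝ) ^ 2 - δ) ≤ (2 : ℝ) ^ ((k : ℝ) ^ 2 - δ) *
      (N : ℝ) ^ ((k : ℝ) - δ / k) := by
    calc (p : ℝ) ^ ((k : ℝ) ^ 2 - δ) ≤ (2 * y) ^ ((k : ℝ) ^ 2 - δ) :=
          Real.rpow_le_rpow hp0.le hpy hkδ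
      _ = (2 : ℝ) ^ ((k : ℝ) ^ 2 - δ) * y ^ ((k : ℝ) ^ 2 - δ) :=
          Real.mul_rpow (by norm_num) hy0.le
      _ = (2 : ℝ) ^ ((k : ℝ) ^ 2 - δ) * (N : ℝ) ^ ((k : ℝ) - δ / k) := by
          rw [hy, ← Real.rpow_mul hN0.le]
          congr 2
          field_simp
  have h5 : (2 : ℝ) ^ e * (2 : ℝ) ^ ((k : ℝ) ^ 2 - δ) ≤ 2 ^ (2 * s + k ^ 2) := by
    rw [← Real.rpow_add (by norm_num : (0 : ℝ) < 2), ← Real.rpow_natCast (2 : ℝ) (2 * s + k ^ 2)]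
    apply Real.rpow_le_rpow_of_exponent_le (by norm_num)
    push_cast
    rw [he]
    nlinarith
  have h6 : (N : ℝ) ^ (k : ℝ) * (N : ℝ) ^ e * (N : ℝ) ^ ((k : ℝ) - δ / k) =
      (N : ℝ) ^ (2 * ((s : ℝ) + k) - (k : ℝ) * (k + 1) / 2 + δ * (1 - 1 / k)) := by
    rw [← Real.rpow_add hN0, ← Real.rpow_add hN0]
    congr 1
    rw [he]
    ring
  rw [h3] at h2
  refine h2.trans ?_
  calc C * (2 : ℝ) ^ e * ((N : ℝ) ^ (k : ℝ) * (N : ℝ) ^ e) * (p : ℝ) ^ ((k : ℝ) ^ 2 - δ)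
      ≤ C * (2 : ℝ) ^ e * ((N : ℝ) ^ (k : ℝ) * (N : ℝ) ^ e) *
        ((2 : ℝ) ^ ((k : ℝ) ^ 2 - δ) * (N : ℝ) ^ ((k : ℝ) - δ / k)) := by gcongr
    _ = C * ((2 : ℝ) ^ e * (2 : ℝ) ^ ((k : ℝ) ^ 2 - δ)) *
        ((N : ℝ) ^ (k : ℝ) * (N : ℝ) ^ e * (N : ℝ) ^ ((k : ℝ) - δ / k)) := by ring
    _ ≤ C * 2 ^ (2 * s + k ^ 2) *
        ((N : ℝ) ^ (k : ℝ) * (N : ℝ) ^ e * (N : ℝ) ^ ((k : ℝ) - δ / k)) := by
        gcongr
    _ = _ := by rw [h6]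

theorem p_step : S_step := by
  intro hrec htr k s C δ hk hs hC hδ hδ' hJ N hN
  have hk' : (7 : ℝ) ≤ k := by exact_mod_cast hk
  have hk0 : (0 : ℝ) < k := by linarith
  have hN0 : (0 : ℝ) < N := by exact_mod_cast hN
  have hN1 : (1 : ℝ) ≤ N := by exact_mod_cast hN
  obtain ⟨E, hE⟩ : ∃ E, E = 2 * ((s : ℝ) + k) - (k : ℝ) * (k + 1) / 2 + δ * (1 - 1 / k) := ⟨_, rfl⟩
  rw [← hE]
  have hkinv : 1 / (k : ℝ) ≤ 1 := by
    rw [div_le_one hk0]; linarith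
  have hδ1 : 0 ≤ δ * (1 - 1 / (k : ℝ)) := mul_nonneg hδ (by linarith)
  by_cases hlt : N < k ^ (6 * k)
  · -- small N
    obtain ⟨m, hm⟩ := Nat.even_mul_succ_self k
    have hm2 : k * (k + 1) / 2 = m := by omega
    have hm3 : 2 * (m : ℝ) = (k : ℝ) * (k + 1) := by
      have : ((k * (k + 1) : ℕ) : ℝ) = ((m + m : ℕ) : ℝ) := by rw [hm]
      push_cast at this
      linarith
    rw [hm2]
    have h1 : (JN (s + k) k N : ℝ) ≤ (N : ℝ) ^ (2 * (s + k)) := by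
      exact_mod_cast (htr (s + k) k N).2
    have h2 : (N : ℝ) ^ (2 * (s + k)) ≤ ((k : ℝ) ^ (6 * k)) ^ m * (N : ℝ) ^ E := by
      calc (N : ℝ) ^ (2 * (s + k)) = (N : ℝ) ^ (((2 * (s + k) : ℕ) : ℝ)) := by
            rw [Real.rpow_natCast]
        _ ≤ (N : ℝ) ^ ((m : ℝ) + E) := by
            apply Real.rpow_le_rpow_of_exponent_le hN1
            push_cast
            rw [hE]
            linarith
        _ = (N : ℝ) ^ m * (N : ℝ) ^ E := by rw [Real.rpow_add hN0, Real.rpow_natCast]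
        _ ≤ ((k : ℝ) ^ (6 * k)) ^ m * (N : ℝ) ^ E := by
            have : (N : ℝ) ≤ (k : ℝ) ^ (6 * k) := by exact_mod_cast hlt.le
            gcongr
    refine (h1.trans h2).trans ?_
    gcongr
    exact le_max_left _ _
  · -- large N
    push Not at hlt
    obtain ⟨y, hy⟩ : ∃ y, y = (N : ℝ) ^ (1 / (k : ℝ)) := ⟨_, rfl⟩
    have hy6 : (k : ℝ) ^ 6 ≤ y := by
      have h1 : ((k : ℝ) ^ 6) ^ (k : ℝ) ≤ (N : ℝ) := by
        rw [Real.rpow_natCast, ← pow_mul]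
        exact_mod_cast hlt
      rw [hy]
      calc (k : ℝ) ^ 6 = (((k : ℝ) ^ 6) ^ (k : ℝ)) ^ (1 / (k : ℝ)) := by
            rw [← Real.rpow_mul (by positivity), mul_one_div_cancel hk0.ne', Real.rpow_one]
        _ ≤ (N : ℝ) ^ (1 / (k : ℝ)) := Real.rpow_le_rpow (by positivity) h1 (by positivity)
    have hy0 : 0 < y := lt_of_lt_of_le (by positivity) hy6
    have hyk : y ^ k = N := by
      rw [hy, ← Real.rpow_natCast, ← Real.rpow_mul hN0.le, one_div_mul_cancel hk0.ne', Real.rpow_one]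
    have hfl : k ^ 6 ≤ ⌊y⌋₊ := Nat.le_floor (by exact_mod_cast hy6)
    have hk6 : 0 < k ^ 6 := by positivity
    obtain ⟨p, hp, hp1, hp2⟩ := Nat.exists_prime_lt_and_le_two_mul ⌊y⌋₊ (by omega)
    have hpy1 : y < p := by
      have h1 := Nat.lt_floor_add_one y
      have h2 : ((⌊y⌋₊ + 1 : ℕ) : ℝ) ≤ p := by exact_mod_cast hp1
      push_cast at h2
      linarith
    have hpy2 : (p : ℝ) ≤ 2 * y := by
      have h1 := Nat.floor_le hy0.le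
      have h2 : ((p : ℕ) : ℝ) ≤ ((2 * ⌊y⌋₊ : ℕ) : ℝ) := by exact_mod_cast hp2
      push_cast at h2
      linarith
    have hNp : N ≤ p ^ k := by
      have : (N : ℝ) ≤ (p : ℝ) ^ k := by
        rw [← hyk]; exact pow_le_pow_left₀ hy0.le hpy1.le _
      exact_mod_cast this
    have hkp6 : k ^ 6 ≤ p := by omega
    have hkp : k < p := by
      have h1 : k < k ^ 6 := by
        calc k = k ^ 1 := (pow_one k).symm
          _ < k ^ 6 := Nat.pow_lt_pow_right (by omega) (by omega)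
      omega
    have hpN : p ≤ N := by
      have h1 : (p : ℝ) ≤ N := by
        have hy2 : 2 ≤ y := by
          have : (2 : ℝ) ≤ (k : ℝ) ^ 6 := by
            calc (2 : ℝ) ≤ 7 ^ 6 := by norm_num
              _ ≤ (k : ℝ) ^ 6 := pow_le_pow_left₀ (by norm_num) hk' _
          linarith
        have h2 : y ^ 2 ≤ y ^ k := pow_le_pow_right₀ (by linarith) (by omega)
        rw [hyk] at h2
        nlinarith
      exact_mod_cast h1
    have hN' : p * (N / p + 1) ≤ 2 * N := by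
      have := Nat.mul_div_le N p
      rw [mul_add, mul_one]
      omega
    have hN'1 : 1 ≤ N / p + 1 := Nat.le_add_left 1 _
    obtain ⟨N', hNN'⟩ : ∃ N', N' = N / p + 1 := ⟨_, rfl⟩
    have hR := hrec k s p N hp (by omega) hkp hNp
    rw [← hNN'] at hR hN' hN'1
    have hJ' := hJ N' hN'1
    have hbound := step_real k s p N N' C δ (JN s k N' : ℝ) y hk hs hC hδ hδ' hp.pos hN hN' hy hpy2 hJ'
    have hT2 : (p ^ (k - 1) * k ^ (s + k)) ^ 2 * JN (s + k) k N' ≤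
        p ^ (2 * s) * N ^ k * p ^ (k * (k - 1) / 2) * JN s k N' := by
      calc (p ^ (k - 1) * k ^ (s + k)) ^ 2 * JN (s + k) k N'
          ≤ (p ^ (k - 1) * k ^ (s + k)) ^ 2 * (N' ^ (2 * k) * JN s k N') :=
            Nat.mul_le_mul_left _ (htr s k N').1
        _ = ((p ^ (k - 1) * k ^ (s + k)) ^ 2 * N' ^ (2 * k)) * JN s k N' := by ring
        _ ≤ _ := Nat.mul_le_mul_right _ (step_nat k s p N N' hk hs hkp6 hNp hN')
    have hch : (s + k).choose k ^ 2 ≤ (s + k) ^ (2 * k) := by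
      rw [mul_comm 2 k, pow_mul]
      exact Nat.pow_le_pow_left (Nat.choose_le_pow _ _) 2
    have hfa : k.factorial ≤ k ^ k := Nat.factorial_le_pow k
    obtain ⟨R, hRR⟩ : ∃ R, R = p ^ (2 * s) * N ^ k * p ^ (k * (k - 1) / 2) * JN s k N' := ⟨_, rfl⟩
    have hT1 : (s + k).choose k ^ 2 * (p ^ (2 * s) *
      (N ^ k * (k.factorial * p ^ (k * (k - 1) / 2)) * JN s k N')) ≤ (s + k) ^ (2 * k) * k ^ k * R := by
      calc _ = ((s + k).choose k ^ 2 * k.factorial) * R := by rw [hRR]; ring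
        _ ≤ _ := Nat.mul_le_mul_right _ (Nat.mul_le_mul hch hfa)
    have hone : 1 ≤ (s + k) ^ (2 * k) * k ^ k := Nat.one_le_iff_ne_zero.2 (by positivity)
    have htot : JN (s + k) k N ≤ 4 * ((s + k) ^ (2 * k) * k ^ k * R) := by
      rw [← hRR] at hT2
      have h7 : R ≤ (s + k) ^ (2 * k) * k ^ k * R := Nat.le_mul_of_pos_left _ hone
      have h8 := hR.trans (Nat.mul_le_mul_left 2 (Nat.add_le_add hT1 (hT2.trans h7)))
      refine h8.trans (le_of_eq ?_)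
      ring
    have htot' : (JN (s + k) k N : ℝ) ≤ 4 * (((s : ℝ) + k) ^ (2 * k) * (k : ℝ) ^ k * R) := by
      exact_mod_cast htot
    have hRr : (R : ℝ) = (p : ℝ) ^ (2 * s) * (N : ℝ) ^ k * (p : ℝ) ^ (k * (k - 1) / 2) *
        (JN s k N' : ℝ) := by
      rw [hRR]; push_cast; ring
    rw [← hRr, ← hE] at hbound
    calc (JN (s + k) k N : ℝ) ≤ 4 * (((s : ℝ) + k) ^ (2 * k) * (k : ℝ) ^ k * R) := htot'
      _ ≤ 4 * (((s : ℝ) + k) ^ (2 * k) * (k : ℝ) ^ k * (C * 2 ^ (2 * s + k ^ 2) * (N : ℝ) ^ E)) := by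
          gcongr
      _ = (C * (4 * ((s : ℝ) + k) ^ (2 * k) * (k : ℝ) ^ k * 2 ^ (2 * s + k ^ 2))) * (N : ℝ) ^ E := by
          ring
      _ ≤ _ := by
          gcongr
          exact le_max_right _ _

end Pool.Agent.CH.V
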