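import Pool.Agent.Lib.MP_d610d0_nt.CH.V.Stm

set_option autoImplicit false

/-!
Piece tay.
-/

namespace Pool.Agent.CH.V

open Finset Filter

/-- the Taylor polynomial of `log (1 + w)` -/
noncomputable def tay_P (k : ℕ) (w : ℝ) : ℝ := ∑ m ∈ range k, (-1) ^ m * w ^ (m + 1) / ((m : ℝ) + 1)

theorem tay_P_deriv (k : ℕ) (w : ℝ) : HasDerivAt (tay_P k) (∑ m ∈ range k, (-w) ^ m) w := by
  have h : ∀ m ∈ range k, HasDerivAt (fun w : ℝ => (-1) ^ m * w ^ (m + 1) / ((m : ℝ) + 1))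
      ((-w) ^ m) w := by
    intro m _
    have h1 := ((hasDerivAt_pow (m + 1) w).const_mul ((-1) ^ m)).div_const ((m : ℝ) + 1)
    have h2 : (m : ℝ) + 1 ≠ 0 := by positivity
    have h3 : (-1) ^ m * (((m + 1 : ℕ) : ℝ) * w ^ (m + 1 - 1)) / ((m : ℝ) + 1) = (-w) ^ m := by
      rw [neg_pow w, Nat.add_sub_cancel]
      push_cast
      rw [mul_left_comm, mul_div_assoc, mul_comm]
      exact div_mul_cancel₀ _ h2
    rw [← h3]
    exact h1
  have := HasDerivAt.fun_sum h
  exact this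

theorem tay_log (k : ℕ) (w : ℝ) (h0 : 0 ≤ w) :
    |Real.log (1 + w) - tay_P k w| ≤ w ^ (k + 1) := by
  have hd : ∀ x ∈ Set.Icc (0 : ℝ) w, HasDerivWithinAt (fun y => Real.log (1 + y) - tay_P k y)
      (1 / (1 + x) - ∑ m ∈ range k, (-x) ^ m) (Set.Icc 0 w) x := by
    intro x hx
    have h1 : (1 + x) ≠ 0 := by linarith [hx.1]
    have h2 := ((hasDerivAt_id x).const_add 1).log h1
    exact (h2.sub (tay_P_deriv k x)).hasDerivWithinAt
  have hb : ∀ x ∈ Set.Ico (0 : ℝ) w, ‖1 / (1 + x) - ∑ m ∈ range k, (-x) ^ m‖ ≤ w ^ k := by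
    intro x hx
    have h1 : (1 + x) ≠ 0 := by linarith [hx.1]
    have h2 : (1 + x) > 0 := by linarith [hx.1]
    have h3 : 1 / (1 + x) - ∑ m ∈ range k, (-x) ^ m = (-x) ^ k / (1 + x) := by
      have h4 := mul_neg_geom_sum (-x) k
      have h5 : (1 + x) * ∑ m ∈ range k, (-x) ^ m = 1 - (-x) ^ k := by
        rw [← h4]; ring
      field_simp
      linarith
    rw [h3, norm_div, norm_pow, norm_neg, Real.norm_eq_abs, Real.norm_eq_abs, abs_of_nonneg hx.1,
      abs_of_pos h2]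
    have h6 : x ^ k / (1 + x) ≤ x ^ k := div_le_self (pow_nonneg hx.1 k) (by linarith [hx.1])
    exact h6.trans (pow_le_pow_left₀ hx.1 hx.2.le k)
  have h := norm_image_sub_le_of_norm_deriv_le_segment' hd hb w (Set.right_mem_Icc.2 h0)
  have h7 : Real.log (1 + 0) - tay_P k 0 = 0 := by
    simp [tay_P]
  rw [h7, sub_zero, sub_zero, Real.norm_eq_abs] at h
  rw [pow_succ]
  exact h

theorem tay_exp (a b : ℝ) :
    ‖Complex.exp (Complex.I * (a : ℂ)) - Complex.exp (Complex.I * (b : ℂ))‖ ≤ |a - b| := by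
  have h1 : Complex.exp (Complex.I * (a : ℂ)) - Complex.exp (Complex.I * (b : ℂ)) =
      Complex.exp (Complex.I * (b : ℂ)) * (Complex.exp (Complex.I * ((a - b : ℝ) : ℂ)) - 1) := by
    rw [mul_sub, ← Complex.exp_add, mul_one]
    congr 2
    push_cast
    ring
  rw [h1, norm_mul, Complex.norm_exp_I_mul_ofReal, one_mul]
  exact Real.norm_exp_I_mul_ofReal_sub_one_le

theorem p_tay : S_tay := by
  intro t c z k ht hc hz hzc
  have hpi : Real.pi ≠ 0 := Real.pi_ne_zero
  have hc' : c ≠ 0 := hc.ne'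
  set w : ℝ := z / c with hw
  have hw0 : 0 ≤ w := div_nonneg hz hc.le
  have h1 : pz t (c + z) = Complex.exp (Complex.I * ((-(t * Real.log (c + z)) : ℝ) : ℂ)) := by
    unfold pz
    congr 1
    push_cast
    ring
  have h2 : pz t c * ex (∑ m : Fin k, al t c m * z ^ ((m : ℕ) + 1)) =
      Complex.exp (Complex.I * ((-(t * Real.log c) - t * tay_P k w : ℝ) : ℂ)) := by
    unfold pz ex
    rw [← Complex.exp_add]
    congr 1
    have h3 : 2 * Real.pi * (∑ m : Fin k, al t c m * z ^ ((m : ℕ) + 1)) = - (t * tay_P k w) := by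
      rw [Fin.sum_univ_eq_sum_range (fun m => al t c m * z ^ (m + 1)) k]
      unfold tay_P
      rw [mul_sum, mul_sum, ← sum_neg_distrib]
      apply sum_congr rfl
      intro m _
      have h4 : (m : ℝ) + 1 ≠ 0 := by positivity
      unfold al
      rw [hw, div_pow]
      field_simp
    have h5 : (2 * (Real.pi : ℂ) * ((∑ m : Fin k, al t c m * z ^ ((m : ℕ) + 1) : ℝ) : ℂ)) =
        ((-(t * tay_P k w) : ℝ) : ℂ) := by
      rw [← h3]; push_cast; ring
    calc -(Complex.I * ((t * Real.log c : ℝ) : ℂ)) +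
          2 * (Real.pi : ℂ) * Complex.I * ((∑ m : Fin k, al t c m * z ^ ((m : ℕ) + 1) : ℝ) : ℂ)
        = -(Complex.I * ((t * Real.log c : ℝ) : ℂ)) + Complex.I *
          (2 * (Real.pi : ℂ) * ((∑ m : Fin k, al t c m * z ^ ((m : ℕ) + 1) : ℝ) : ℂ)) := by ring
      _ = _ := by rw [h5]; push_cast; ring
  rw [h1, h2]
  refine (tay_exp _ _).trans ?_
  have h6 : -(t * Real.log (c + z)) - (-(t * Real.log c) - t * tay_P k w) =
      -(t * (Real.log (1 + w) - tay_P k w)) := by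
    have h7 : c + z = c * (1 + w) := by rw [hw]; field_simp
    rw [h7, Real.log_mul hc' (by linarith)]
    ring
  rw [h6, abs_neg, abs_mul, abs_of_nonneg ht]
  exact mul_le_mul_of_nonneg_left (tay_log k w hw0) ht

end Pool.Agent.CH.V
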