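import Pool.Agent.Lib.MP_d610d0_nt.CH.V.Stm

set_option autoImplicit false

/-!
Piece tb.
-/

namespace Pool.Agent.CH.V

open Finset Filter

theorem tb_norm_ex (x : ℝ) : ‖ex x‖ = 1 := by
  unfold ex
  rw [show (2 * (Real.pi : ℂ) * Complex.I * (x : ℂ)) = ((2 * Real.pi * x : ℝ) : ℂ) * Complex.I by
    push_cast; ring]
  exact Complex.norm_exp_ofReal_mul_I _

theorem tb_card (V : ℕ) : (Icc (-(V : ℤ)) V).card = 2 * V + 1 := by
  rw [Int.card_Icc]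
  omega

theorem tb_Sm_nonneg (α : ℝ) (V : ℕ) : 0 ≤ Sm α V :=
  Finset.sum_nonneg fun _ _ => norm_nonneg _

theorem tb_Sm (α : ℝ) (V : ℕ) (hV : 1 ≤ V) : Sm α V ≤ 9 * (V : ℝ) ^ 2 := by
  have h1 : ∀ w ∈ Icc (-(V : ℤ)) V, ‖∑ v ∈ Icc (-(V : ℤ)) V, ex (α * w * v)‖ ≤ 2 * V + 1 := by
    intro w _
    refine (norm_sum_le _ _).trans ?_
    rw [Finset.sum_congr rfl fun v _ => tb_norm_ex _, Finset.sum_const, tb_card, nsmul_eq_mul,
      mul_one]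
    push_cast
    exact le_refl _
  have h2 : Sm α V ≤ (2 * (V : ℝ) + 1) * (2 * V + 1) := by
    unfold Sm
    refine (Finset.sum_le_sum h1).trans ?_
    rw [Finset.sum_const, tb_card, nsmul_eq_mul]
    push_cast
    exact le_refl _
  have h3 : (1 : ℝ) ≤ V := by exact_mod_cast hV
  nlinarith

theorem tb_prod (k : ℕ) (b Y : ℝ) : ∏ m : Fin k, (9 * (b * Y ^ ((m : ℕ) + 1)) ^ 2) =
    (9 * b ^ 2) ^ k * Y ^ (k * (k + 1)) := by
  induction k with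
  | zero => simp
  | succ n ih =>
    rw [Fin.prod_univ_castSucc]
    simp only [Fin.val_castSucc, Fin.val_last]
    rw [ih]
    have e : (n + 1) * (n + 1 + 1) = n * (n + 1) + 2 * (n + 1) := by ring
    rw [e, pow_add Y, pow_succ (9 * b ^ 2)]
    ring

theorem tb_const (k : ℕ) (hk : 7 ≤ k) :
    Real.exp (8 * (k : ℝ) ^ 5) * (9 * (bb k : ℝ) ^ 2) ^ k ≤ 2 ^ (4 * bb k ^ 2) := by
  have hk' : (7 : ℝ) ≤ k := by exact_mod_cast hk
  have hb : (bb k : ℝ) = (k : ℝ) ^ 3 + (k : ℝ) ^ 2 := by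
    unfold bb
    push_cast
    ring
  have hb0 : (0 : ℝ) ≤ bb k := Nat.cast_nonneg _
  have h1 : (9 * (bb k : ℝ) ^ 2) ^ k ≤ Real.exp (6 * (bb k : ℝ) * k) := by
    have h2 : 3 * (bb k : ℝ) ≤ Real.exp (3 * (bb k : ℝ)) := by
      have := Real.add_one_le_exp (3 * (bb k : ℝ))
      linarith
    have h3 : 9 * (bb k : ℝ) ^ 2 ≤ Real.exp (6 * (bb k : ℝ)) := by
      have e : Real.exp (6 * (bb k : ℝ)) = Real.exp (3 * (bb k : ℝ)) ^ 2 := by
        rw [← Real.exp_nat_mul]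
        congr 1
        push_cast
        ring
      rw [e]
      have h4 : (3 * (bb k : ℝ)) ^ 2 ≤ Real.exp (3 * (bb k : ℝ)) ^ 2 :=
        pow_le_pow_left₀ (by positivity) h2 2
      nlinarith
    calc (9 * (bb k : ℝ) ^ 2) ^ k ≤ Real.exp (6 * (bb k : ℝ)) ^ k :=
          pow_le_pow_left₀ (by positivity) h3 k
      _ = Real.exp (6 * (bb k : ℝ) * k) := by
          rw [← Real.exp_nat_mul]
          congr 1
          ring
  have h5 : (2 : ℝ) ^ (4 * bb k ^ 2) = Real.exp (4 * (bb k : ℝ) ^ 2 * Real.log 2) := by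
    rw [mul_comm _ (Real.log 2), Real.exp_mul, Real.exp_log (by norm_num : (0 : ℝ) < 2),
      ← Real.rpow_natCast]
    push_cast
    rfl
  rw [h5]
  refine (mul_le_mul_of_nonneg_left h1 (Real.exp_pos _).le).trans ?_
  rw [← Real.exp_add]
  apply Real.exp_le_exp.2
  have hl := Real.log_two_gt_d9
  have h6 : (k : ℝ) ^ 6 ≤ (bb k : ℝ) ^ 2 := by
    have h7 : (k : ℝ) ^ 3 ≤ bb k := by
      rw [hb]
      nlinarith [sq_nonneg (k : ℝ)]
    calc (k : ℝ) ^ 6 = ((k : ℝ) ^ 3) ^ 2 := by ring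
      _ ≤ (bb k : ℝ) ^ 2 := pow_le_pow_left₀ (by positivity) h7 2
  have h8 : 6 * (bb k : ℝ) * k ≤ (k : ℝ) ^ 5 := by
    rw [hb]
    have h9 : 6 * ((k : ℝ) + 1) ≤ (k : ℝ) ^ 2 := by nlinarith
    have h10 : 0 ≤ (k : ℝ) ^ 3 := by positivity
    nlinarith [mul_le_mul_of_nonneg_left h9 h10]
  have h11 : (7 : ℝ) * (k : ℝ) ^ 5 ≤ (k : ℝ) ^ 6 := by
    have h12 : 0 ≤ (k : ℝ) ^ 5 := by positivity
    nlinarith [mul_le_mul_of_nonneg_left hk' h12]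
  have h13 : 0 ≤ (k : ℝ) ^ 5 := by positivity
  have h14 : 4 * (bb k : ℝ) ^ 2 * (1 / 2) ≤ 4 * (bb k : ℝ) ^ 2 * Real.log 2 := by
    apply mul_le_mul_of_nonneg_left _ (by positivity)
    linarith
  linarith

theorem p_tb : S_tb := by
  intro hbil hmvt C1 hC1 hsj τ N c hτ hN hc1 hc2
  have hk : 7 ≤ kk τ := by
    unfold kk
    have : 4 < ⌈5 * τ⌉₊ := Nat.lt_ceil.2 (by push_cast; linarith)
    omega
  have hlog : 0 < Real.log N := lt_of_lt_of_le (by positivity) hN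
  have hN1 : (1 : ℝ) < N := by
    by_contra h
    push Not at h
    have := Real.log_nonpos (Nat.cast_nonneg N) h
    linarith
  have hN0 : (0 : ℝ) < N := by linarith
  have hj1 : ⌈τ + 1 / 5⌉₊ - 1 < kk τ := by
    unfold kk
    have h1 : ⌈τ + 1 / 5⌉₊ ≤ ⌈5 * τ⌉₊ := Nat.ceil_le_ceil (by linarith)
    omega
  have hj2 : 1 ≤ ⌈τ + 1 / 5⌉₊ := by
    have : 0 < ⌈τ + 1 / 5⌉₊ := Nat.ceil_pos.2 (by linarith)
    omega
  generalize hkk : kk τ = k at *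
  generalize hj : ⌈τ + 1 / 5⌉₊ = j at *
  have hsj' := fun b hb => hsj τ N b c hτ hN hc1 hc2 hb
  rw [hj] at hsj'
  have hYle : ((⌊(N : ℝ) ^ (2 / 5 : ℝ)⌋₊ : ℕ) : ℝ) ≤ (N : ℝ) ^ (2 / 5 : ℝ) :=
    Nat.floor_le (by positivity)
  have hY1 : 1 ≤ ⌊(N : ℝ) ^ (2 / 5 : ℝ)⌋₊ := by
    apply Nat.le_floor
    push_cast
    exact Real.one_le_rpow hN1.le (by norm_num)
  generalize hY : ⌊(N : ℝ) ^ (2 / 5 : ℝ)⌋₊ = Y at *
  have hb1 : 1 ≤ bb k := by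
    unfold bb
    have : 0 < k ^ 3 := by positivity
    omega
  have hT := hbil (bb k) k Y (fun m => al ((N : ℝ) ^ τ) c m) hb1
  have hJ := hmvt k hk Y hY1
  have hs := hsj' (bb k) hb1
  have hconst := tb_const k hk
  have hbk : 25 * (bb k : ℝ) ^ 2 ≤ 33 * (k : ℝ) ^ 6 := by
    have hk' : (7 : ℝ) ≤ k := by exact_mod_cast hk
    have hb : (bb k : ℝ) = (k : ℝ) ^ 3 + (k : ℝ) ^ 2 := by
      unfold bb
      push_cast
      ring
    have h1 : 7 * (bb k : ℝ) ≤ 8 * (k : ℝ) ^ 3 := by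
      rw [hb]
      have : 0 ≤ (k : ℝ) ^ 2 := by positivity
      nlinarith [mul_le_mul_of_nonneg_left hk' this]
    have h2 : (7 * (bb k : ℝ)) ^ 2 ≤ (8 * (k : ℝ) ^ 3) ^ 2 :=
      pow_le_pow_left₀ (by positivity) h1 2
    have h3 : 0 ≤ (k : ℝ) ^ 6 := by positivity
    nlinarith
  have hyb : (1 : ℝ) ≤ Y := by exact_mod_cast hY1
  have hy0 : (0 : ℝ) < Y := by linarith
  have hk0 : (0 : ℝ) < k := by
    have : 0 < k := by omega
    exact_mod_cast this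
  generalize hB : bb k = b at *
  have hb0 : (1 : ℝ) ≤ b := by exact_mod_cast hb1
  -- the product
  have hprod : ∏ m : Fin k, Sm (al ((N : ℝ) ^ τ) c m) (b * Y ^ ((m : ℕ) + 1)) ≤
      (9 * (b : ℝ) ^ 2) ^ k * (Y : ℝ) ^ (k * (k + 1)) * (N : ℝ) ^ (-(1 / 5 : ℝ)) := by
    rw [← tb_prod]
    have h1 : ∀ m : Fin k, Sm (al ((N : ℝ) ^ τ) c m) (b * Y ^ ((m : ℕ) + 1)) ≤
        (9 * ((b : ℝ) * (Y : ℝ) ^ ((m : ℕ) + 1)) ^ 2) *
          (if m = ⟨j - 1, hj1⟩ then (N : ℝ) ^ (-(1 / 5 : ℝ)) else 1) := by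
      intro m
      by_cases hm : m = ⟨j - 1, hj1⟩
      · rw [if_pos hm, hm]
        simp only
        have e : j - 1 + 1 = j := by omega
        rw [e]
        refine hs.trans ?_
        apply mul_le_mul_of_nonneg_right _ (by positivity)
        have : 0 ≤ ((b : ℝ) * (Y : ℝ) ^ j) ^ 2 := by positivity
        linarith
      · rw [if_neg hm, mul_one]
        have h2 : 1 ≤ b * Y ^ ((m : ℕ) + 1) := by
          have : 0 < b * Y ^ ((m : ℕ) + 1) := by positivity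
          omega
        refine (tb_Sm _ _ h2).trans (le_of_eq ?_)
        push_cast
        rfl
    refine (Finset.prod_le_prod (fun m _ => tb_Sm_nonneg _ _) (fun m _ => h1 m)).trans ?_
    rw [Finset.prod_mul_distrib, Finset.prod_ite_eq' Finset.univ]
    simp
  have hP0 : 0 ≤ ∏ m : Fin k, Sm (al ((N : ℝ) ^ τ) c m) (b * Y ^ ((m : ℕ) + 1)) :=
    Finset.prod_nonneg fun m _ => tb_Sm_nonneg _ _
  have hJ2 : ((JN b k Y : ℕ) : ℝ) ^ 2 ≤ Real.exp (8 * (k : ℝ) ^ 5) *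
      (Y : ℝ) ^ (4 * (b : ℝ) - (k : ℝ) * (k + 1) + 1 / 10) := by
    refine (pow_le_pow_left₀ (Nat.cast_nonneg _) hJ 2).trans (le_of_eq ?_)
    rw [mul_pow, ← Real.exp_nat_mul, ← Real.rpow_natCast ((Y : ℝ) ^ _), ← Real.rpow_mul hy0.le]
    congr 1
    · congr 1
      push_cast
      ring
    · congr 1
      push_cast
      ring
  have hmain : ‖TT k Y (fun m => al ((N : ℝ) ^ τ) c m)‖ ^ (4 * b ^ 2) ≤
      (2 * (Y : ℝ) ^ 2 * (N : ℝ) ^ (-(1 / (33 * (k : ℝ) ^ 6)))) ^ (4 * b ^ 2) := by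
    refine hT.trans ?_
    have h1 : (Y : ℝ) ^ (8 * b ^ 2 - 4 * b) * ((JN b k Y : ℕ) : ℝ) ^ 2 *
        ∏ m : Fin k, Sm (al ((N : ℝ) ^ τ) c m) (b * Y ^ ((m : ℕ) + 1)) ≤
        (Y : ℝ) ^ (8 * b ^ 2 - 4 * b) * (Real.exp (8 * (k : ℝ) ^ 5) *
          (Y : ℝ) ^ (4 * (b : ℝ) - (k : ℝ) * (k + 1) + 1 / 10)) *
        ((9 * (b : ℝ) ^ 2) ^ k * (Y : ℝ) ^ (k * (k + 1)) * (N : ℝ) ^ (-(1 / 5 : ℝ))) := by
      apply mul_le_mul _ hprod hP0 (by positivity)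
      exact mul_le_mul_of_nonneg_left hJ2 (by positivity)
    refine h1.trans ?_
    have e1 : (Y : ℝ) ^ (8 * b ^ 2 - 4 * b) * (Real.exp (8 * (k : ℝ) ^ 5) *
          (Y : ℝ) ^ (4 * (b : ℝ) - (k : ℝ) * (k + 1) + 1 / 10)) *
        ((9 * (b : ℝ) ^ 2) ^ k * (Y : ℝ) ^ (k * (k + 1)) * (N : ℝ) ^ (-(1 / 5 : ℝ))) =
        (Real.exp (8 * (k : ℝ) ^ 5) * (9 * (b : ℝ) ^ 2) ^ k) * (Y : ℝ) ^ (8 * b ^ 2) *
          ((Y : ℝ) ^ (1 / 10 : ℝ) * (N : ℝ) ^ (-(1 / 5 : ℝ))) := by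
      have e2 : (Y : ℝ) ^ (8 * b ^ 2 - 4 * b) *
          (Y : ℝ) ^ (4 * (b : ℝ) - (k : ℝ) * (k + 1) + 1 / 10) * (Y : ℝ) ^ (k * (k + 1)) =
          (Y : ℝ) ^ (8 * b ^ 2) * (Y : ℝ) ^ (1 / 10 : ℝ) := by
        rw [← Real.rpow_natCast (Y : ℝ) (8 * b ^ 2 - 4 * b), ← Real.rpow_natCast (Y : ℝ) (k * (k + 1)),
          ← Real.rpow_natCast (Y : ℝ) (8 * b ^ 2), ← Real.rpow_add hy0, ← Real.rpow_add hy0,
          ← Real.rpow_add hy0]
        congr 1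
        have h2 : 4 * b ≤ 8 * b ^ 2 := by nlinarith
        rw [Nat.cast_sub h2]
        push_cast
        ring
      calc _ = ((Y : ℝ) ^ (8 * b ^ 2 - 4 * b) *
          (Y : ℝ) ^ (4 * (b : ℝ) - (k : ℝ) * (k + 1) + 1 / 10) * (Y : ℝ) ^ (k * (k + 1))) *
          (Real.exp (8 * (k : ℝ) ^ 5) * (9 * (b : ℝ) ^ 2) ^ k * (N : ℝ) ^ (-(1 / 5 : ℝ))) := by
            ring
        _ = _ := by
            rw [e2]
            ring
    rw [e1]
    have h3 : (Y : ℝ) ^ (1 / 10 : ℝ) * (N : ℝ) ^ (-(1 / 5 : ℝ)) ≤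
        (N : ℝ) ^ (-(4 / 25 : ℝ)) := by
      have h4 : (Y : ℝ) ^ (1 / 10 : ℝ) ≤ (N : ℝ) ^ (1 / 25 : ℝ) := by
        refine (Real.rpow_le_rpow hy0.le hYle (by norm_num)).trans (le_of_eq ?_)
        rw [← Real.rpow_mul hN0.le]
        norm_num
      refine (mul_le_mul_of_nonneg_right h4 (by positivity)).trans (le_of_eq ?_)
      rw [← Real.rpow_add hN0]
      norm_num
    have h5 : (N : ℝ) ^ (-(4 / 25 : ℝ)) ≤
        ((N : ℝ) ^ (-(1 / (33 * (k : ℝ) ^ 6)))) ^ (4 * b ^ 2) := by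
      rw [← Real.rpow_natCast, ← Real.rpow_mul hN0.le]
      apply Real.rpow_le_rpow_of_exponent_le hN1.le
      push_cast
      rw [neg_mul, neg_le_neg_iff, one_div_mul_eq_div, div_le_div_iff₀ (by positivity) (by norm_num)]
      nlinarith
    calc _ ≤ 2 ^ (4 * b ^ 2) * (Y : ℝ) ^ (8 * b ^ 2) *
          ((N : ℝ) ^ (-(1 / (33 * (k : ℝ) ^ 6)))) ^ (4 * b ^ 2) := by
          apply mul_le_mul _ (h3.trans h5) (by positivity) (by positivity)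
          exact mul_le_mul_of_nonneg_right hconst (by positivity)
      _ = _ := by
          rw [mul_pow, mul_pow, ← pow_mul]
          congr 3
          ring
  exact le_of_pow_le_pow_left₀ (by positivity) (by positivity) hmain

end Pool.Agent.CH.V
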