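import Pool.Agent.Lib.MP_d610d0_nt.CH.V.Stm

set_option autoImplicit false

/-!
Piece tr.
-/

namespace Pool.Agent.CH.V

open Finset Filter

private theorem tr_card (k N : ℕ) : (Tup k (Icc 1 (N : ℤ))).card = N ^ k := by
  unfold Tup
  rw [Fintype.card_piFinset_const, Int.card_Icc]
  simp

private theorem tr_split (k s : ℕ) (x : Fin (s + k) → ℤ) :
    PS k x = PS k (fun i => x (Fin.castAdd k i)) + PS k (fun i => x (Fin.natAdd s i)) := by
  unfold PS
  rw [Fin.sum_univ_add]

private theorem tr_mem {s k : ℕ} {S : Finset ℤ} {x : Fin (s + k) → ℤ} (hx : x ∈ Tup (s + k) S) :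
    (fun i => x (Fin.castAdd k i)) ∈ Tup s S ∧ (fun i => x (Fin.natAdd s i)) ∈ Tup k S := by
  unfold Tup at *
  rw [Fintype.mem_piFinset] at *
  rw [Fintype.mem_piFinset]
  exact ⟨fun i => hx _, fun i => hx _⟩

private theorem tr_ext {s k : ℕ} {x y : Fin (s + k) → ℤ}
    (h1 : (fun i => x (Fin.castAdd k i)) = fun i => y (Fin.castAdd k i))
    (h2 : (fun i => x (Fin.natAdd s i)) = fun i => y (Fin.natAdd s i)) : x = y := by
  funext i
  refine Fin.addCases (fun j => ?_) (fun j => ?_) i
  · exact congrFun h1 j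
  · exact congrFun h2 j

theorem p_tr : S_tr := by
  intro hinh s k N
  constructor
  · unfold JN Jn
    set S : Finset ℤ := Icc 1 (N : ℤ) with hS
    have hfin : col (Tup (s + k) S) (PS k) ≤
        col (Tup s S) (PS k) * (Tup k S ×ˢ Tup k S).card := by
      unfold col
      refine Finset.card_le_mul_card_image_of_maps_to
        (f := fun p : (Fin (s + k) → ℤ) × (Fin (s + k) → ℤ) =>
          ((fun i => p.1 (Fin.natAdd s i), fun i => p.2 (Fin.natAdd s i)) :
            (Fin k → ℤ) × (Fin k → ℤ))) ?_ _ ?_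
      · rintro ⟨x, y⟩ hxy
        rw [Finset.mem_filter, Finset.mem_product] at hxy
        rw [Finset.mem_product]
        exact ⟨(tr_mem hxy.1.1).2, (tr_mem hxy.1.2).2⟩
      · rintro ⟨u, v⟩ _
        refine le_trans (Finset.card_le_card_of_injOn
          (f := fun p : (Fin (s + k) → ℤ) × (Fin (s + k) → ℤ) =>
            ((fun i => p.1 (Fin.castAdd k i), fun i => p.2 (Fin.castAdd k i)) :
              (Fin s → ℤ) × (Fin s → ℤ)))
          (t := (Tup s S ×ˢ Tup s S).filter (fun p => PS k p.1 = PS k p.2 + (PS k v - PS k u)))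
          ?_ ?_) (hinh _ k (Tup s S) (PS k) (PS k v - PS k u))
        · rintro ⟨x, y⟩ hxy
          rw [Finset.mem_coe, Finset.mem_filter, Finset.mem_filter, Finset.mem_product] at hxy
          obtain ⟨⟨⟨hx, hy⟩, hPS⟩, huv⟩ := hxy
          simp only [Prod.mk.injEq] at huv
          obtain ⟨hu, hv⟩ := huv
          rw [Finset.mem_coe, Finset.mem_filter, Finset.mem_product]
          refine ⟨⟨(tr_mem hx).1, (tr_mem hy).1⟩, ?_⟩
          simp only at hPS
          rw [tr_split k s x, tr_split k s y, hu, hv] at hPS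
          show PS k (fun i => x (Fin.castAdd k i)) =
            PS k (fun i => y (Fin.castAdd k i)) + (PS k v - PS k u)
          rw [← add_sub_assoc, ← hPS, add_sub_cancel_right]
        · rintro ⟨x, y⟩ hxy ⟨x', y'⟩ hxy' heq
          rw [Finset.mem_coe, Finset.mem_filter] at hxy hxy'
          have h1 := hxy.2
          have h2 := hxy'.2
          simp only [Prod.mk.injEq] at h1 h2 heq
          have e1 : x = x' := tr_ext heq.1 (h1.1.trans h2.1.symm)
          have e2 : y = y' := tr_ext heq.2 (h1.2.trans h2.2.symm)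
          rw [e1, e2]
    rw [Finset.card_product, tr_card] at hfin
    calc col (Tup (s + k) S) (PS k) ≤ col (Tup s S) (PS k) * (N ^ k * N ^ k) := hfin
      _ = N ^ (2 * k) * col (Tup s S) (PS k) := by rw [two_mul, pow_add]; ring
  · unfold JN Jn col
    refine (Finset.card_filter_le _ _).trans ?_
    rw [Finset.card_product, tr_card, two_mul, pow_add]

end Pool.Agent.CH.V
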