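import Pool.Agent.Lib.MP_d610d0_nt.CH.V.p_un
import Pool.Agent.Lib.MP_d610d0_nt.CH.V.p_inh
import Pool.Agent.Lib.MP_d610d0_nt.CH.V.p_four
import Pool.Agent.Lib.MP_d610d0_nt.CH.V.p_hoA
import Pool.Agent.Lib.MP_d610d0_nt.CH.V.p_hoB
import Pool.Agent.Lib.MP_d610d0_nt.CH.V.p_shx
import Pool.Agent.Lib.MP_d610d0_nt.CH.V.p_shd
import Pool.Agent.Lib.MP_d610d0_nt.CH.V.p_sa
import Pool.Agent.Lib.MP_d610d0_nt.CH.V.p_tr
import Pool.Agent.Lib.MP_d610d0_nt.CH.V.p_nwt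
import Pool.Agent.Lib.MP_d610d0_nt.CH.V.p_fact
import Pool.Agent.Lib.MP_d610d0_nt.CH.V.p_pad
import Pool.Agent.Lib.MP_d610d0_nt.CH.V.p_colA
import Pool.Agent.Lib.MP_d610d0_nt.CH.V.p_good
import Pool.Agent.Lib.MP_d610d0_nt.CH.V.p_bad
import Pool.Agent.Lib.MP_d610d0_nt.CH.V.p_rec
import Pool.Agent.Lib.MP_d610d0_nt.CH.V.p_step
import Pool.Agent.Lib.MP_d610d0_nt.CH.V.p_fac
import Pool.Agent.Lib.MP_d610d0_nt.CH.V.p_mvt
import Pool.Agent.Lib.MP_d610d0_nt.CH.V.p_b1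
import Pool.Agent.Lib.MP_d610d0_nt.CH.V.p_b2
import Pool.Agent.Lib.MP_d610d0_nt.CH.V.p_bil
import Pool.Agent.Lib.MP_d610d0_nt.CH.V.p_geo
import Pool.Agent.Lib.MP_d610d0_nt.CH.V.p_min
import Pool.Agent.Lib.MP_d610d0_nt.CH.V.p_sj
import Pool.Agent.Lib.MP_d610d0_nt.CH.V.p_tb
import Pool.Agent.Lib.MP_d610d0_nt.CH.V.p_tay
import Pool.Agent.Lib.MP_d610d0_nt.CH.V.p_Z
import Pool.Agent.Lib.MP_d610d0_nt.CH.V.p_E
import Pool.Agent.Lib.MP_d610d0_nt.CH.V.p_H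

set_option autoImplicit false

/-!
Assembly of section V (Vinogradov's method).
-/

namespace Pool.Agent.CH.V

open Finset Filter

theorem main : I_V := by
  have hrec := p_rec p_un p_four p_hoA p_hoB p_shx p_shd p_inh p_sa p_fact p_pad p_colA p_good p_bad
  have hstep := p_step hrec (p_tr p_inh)
  have hmvt := p_mvt hstep (fun s k N => (p_tr p_inh s k N).2) p_fac
  have hbil := p_bil p_inh p_b1 p_b2
  obtain ⟨C1, hC1, hsj⟩ := p_sj p_geo p_min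
  have htb := p_tb hbil hmvt C1 hC1 hsj
  exact p_H p_E ⟨C1, hC1, p_Z p_tay C1 hC1 htb⟩

end Pool.Agent.CH.V
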