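import Pool.Agent.Lib.MP_d610d0_nt.CH.V.Stm

set_option autoImplicit false

/-!
Piece H.
-/

namespace Pool.Agent.CH.V

open Finset Filter

lemma H_ev (a c K : ℝ) (A : ℕ) (ha : 0 < a) (hc : 0 < c) (hK : 0 < K) :
    ∀ᶠ l : ℝ in atTop, K * l ^ A ≤ Real.exp (c * l ^ a) := by
  have h1 := tendsto_rpow_mul_exp_neg_mul_atTop_nhds_zero ((A : ℝ) / a) c hc
  have h2 : Tendsto (fun l : ℝ => l ^ a) atTop atTop := tendsto_rpow_atTop ha
  have h3 := h1.comp h2
  have h4 : ∀ᶠ l : ℝ in atTop,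
      ((fun x : ℝ => x ^ ((A : ℝ) / a) * Real.exp (-c * x)) ∘ fun l : ℝ => l ^ a) l < 1 / K :=
    h3.eventually_lt_const (by positivity)
  filter_upwards [h4, eventually_ge_atTop (1 : ℝ)] with l hl hl1
  simp only [Function.comp] at hl
  have h5 : (l ^ a) ^ ((A : ℝ) / a) = l ^ A := by
    rw [← Real.rpow_mul (by linarith), mul_div_cancel₀ _ ha.ne', Real.rpow_natCast]
  rw [h5, neg_mul, Real.exp_neg] at hl
  have hp := Real.exp_pos (c * l ^ a)
  have h6 : l ^ A < 1 / K * Real.exp (c * l ^ a) := by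
    have := mul_lt_mul_of_pos_right hl hp
    rwa [mul_assoc, inv_mul_cancel₀ hp.ne', mul_one] at this
  have h7 := mul_lt_mul_of_pos_left h6 hK
  have h8 : K * (1 / K * Real.exp (c * l ^ a)) = Real.exp (c * l ^ a) := by
    field_simp
  linarith

lemma H_pz (t x : ℝ) : pz (-t) x = (starRingEnd ℂ) (pz t x) := by
  unfold pz
  rw [← Complex.exp_conj]
  congr 1
  simp

lemma H_sum (t u : ℝ) (N N' : ℕ) :
    ‖∑ n ∈ Ioc N N', pz (-t) ((n : ℝ) + u)‖ = ‖∑ n ∈ Ioc N N', pz t ((n : ℝ) + u)‖ := by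
  have h : ∑ n ∈ Ioc N N', pz (-t) ((n : ℝ) + u)
      = (starRingEnd ℂ) (∑ n ∈ Ioc N N', pz t ((n : ℝ) + u)) := by
    rw [map_sum]
    exact Finset.sum_congr rfl (fun n _ => H_pz t _)
  rw [h, Complex.norm_conj]

theorem p_H : S_H := by
  intro hE hZ A κ hκ
  obtain ⟨C1, hC1, hZ⟩ := hZ
  have hc : 0 < 1 / (33 * (8 * κ) ^ 6) := by positivity
  have e2 := H_ev (9 / 10) (1 / 10) 2 A (by norm_num) (by norm_num) (by norm_num)
  have e4 := H_ev (3 / 10) (1 / (33 * (8 * κ) ^ 6)) 5 A (by norm_num) hc (by norm_num)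
  have e3 : ∀ᶠ l : ℝ in atTop, 2 * C1 * κ ≤ l ^ (8 / 10 : ℝ) :=
    (tendsto_rpow_atTop (by norm_num : (0 : ℝ) < 8 / 10)).eventually_ge_atTop _
  filter_upwards [e2, e3, e4, eventually_ge_atTop (10 : ℝ)] with l h2 h3 h4 hl
  have hl0 : 0 < l := by linarith
  have hl1 : 1 ≤ l := by linarith
  -- the case of positive `t`
  have key : ∀ (t u : ℝ) (N N' : ℕ), 0 < t →
      l ^ (A + 2) ≤ t → t ≤ Real.exp (κ * l) → 0 ≤ u → u ≤ 1 →
      l ^ (9 / 10 : ℝ) ≤ Real.log N → N ≤ N' → N' ≤ 2 * N →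
      ‖∑ n ∈ Ioc N N', pz t ((n : ℝ) + u)‖ ≤ N / l ^ A := by
    intro t u N N' ht ht1 ht2 hu0 hu1 hL hN1 hN2
    have hL0 : 0 < Real.log N := lt_of_lt_of_le (Real.rpow_pos_of_pos hl0 _) hL
    have hN : 1 ≤ N := by
      rcases Nat.eq_zero_or_pos N with h | h
      · subst h
        simp at hL0
      · exact h
    have hNr : (0 : ℝ) < N := by exact_mod_cast hN
    have hlA : 0 < l ^ A := by positivity
    rcases le_or_gt (Real.log t) (9 / 10 * Real.log N) with hcase | hcase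
    · have hh := hE t u N N' ht.ne' hu0 hu1 hN hN1 hN2
      rw [abs_of_pos ht] at hh
      refine hh.trans ?_
      have a1 : 5 * (N : ℝ) / t ≤ N / l ^ A / 2 := by
        rw [div_le_iff₀ ht]
        have : (N : ℝ) / l ^ A / 2 * l ^ (A + 2) ≤ N / l ^ A / 2 * t :=
          mul_le_mul_of_nonneg_left ht1 (by positivity)
        refine le_trans ?_ this
        have e : (N : ℝ) / l ^ A / 2 * l ^ (A + 2) = N * (l ^ 2 / 2) := by
          rw [pow_add]
          field_simp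
        rw [e, mul_comm (5 : ℝ) (N : ℝ)]
        apply mul_le_mul_of_nonneg_left _ hNr.le
        nlinarith
      have a2 : t ≤ N / l ^ A / 2 := by
        have b1 : t = Real.exp (Real.log t) := (Real.exp_log ht).symm
        have b2 : t ≤ N * Real.exp (-(1 / 10 * l ^ (9 / 10 : ℝ))) := by
          have b3 : (N : ℝ) * Real.exp (-(1 / 10 * l ^ (9 / 10 : ℝ)))
              = Real.exp (Real.log N + (-(1 / 10 * l ^ (9 / 10 : ℝ)))) := by
            rw [Real.exp_add, Real.exp_log hNr]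
          rw [b1, b3]
          apply Real.exp_le_exp.mpr
          linarith
        refine b2.trans ?_
        rw [Real.exp_neg, div_div, div_eq_mul_inv]
        apply mul_le_mul_of_nonneg_left _ hNr.le
        apply inv_anti₀ (by positivity)
        linarith
      linarith
    · set τ := Real.log t / Real.log N with hτ
      have hτ9 : 9 / 10 ≤ τ := by
        rw [hτ, le_div_iff₀ hL0]
        exact hcase.le
      have htN : (N : ℝ) ^ τ = t := by
        rw [Real.rpow_def_of_pos hNr, hτ, mul_div_cancel₀ _ hL0.ne', Real.exp_log ht]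
      have hlogt : Real.log t ≤ κ * l := by
        rw [← Real.log_exp (κ * l)]
        exact Real.log_le_log ht ht2
      have hτ0 : 0 ≤ τ := by linarith
      have hlsplit : l ^ (1 / 10 : ℝ) * l ^ (9 / 10 : ℝ) = l := by
        rw [← Real.rpow_add hl0]
        norm_num
      have hτle : τ ≤ κ * l ^ (1 / 10 : ℝ) := by
        rw [hτ, div_le_iff₀ hL0]
        calc Real.log t ≤ κ * l := hlogt
          _ = κ * l ^ (1 / 10 : ℝ) * l ^ (9 / 10 : ℝ) := by rw [mul_assoc, hlsplit]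
          _ ≤ κ * l ^ (1 / 10 : ℝ) * Real.log N :=
              mul_le_mul_of_nonneg_left hL (by positivity)
      have hl10 : 1 ≤ l ^ (1 / 10 : ℝ) := Real.one_le_rpow hl1 (by norm_num)
      have hκl : 1 ≤ κ * l ^ (1 / 10 : ℝ) := by nlinarith
      have hC : C1 * (τ + 1) ≤ Real.log N := by
        calc C1 * (τ + 1) ≤ C1 * (κ * l ^ (1 / 10 : ℝ) + κ * l ^ (1 / 10 : ℝ)) :=
              mul_le_mul_of_nonneg_left (by linarith) (by linarith)
          _ = 2 * C1 * κ * l ^ (1 / 10 : ℝ) := by ring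
          _ ≤ l ^ (8 / 10 : ℝ) * l ^ (1 / 10 : ℝ) :=
              mul_le_mul_of_nonneg_right h3 (by positivity)
          _ = l ^ (9 / 10 : ℝ) := by
              rw [← Real.rpow_add hl0]
              norm_num
          _ ≤ Real.log N := hL
      have hh := hZ τ u N N' hτ9 hC hu0 hu1 hN1 hN2
      rw [htN] at hh
      refine hh.trans ?_
      have hkk : (kk τ : ℝ) ≤ 8 * κ * l ^ (1 / 10 : ℝ) := by
        unfold kk
        push_cast
        have := (Nat.ceil_lt_add_one (by positivity : (0 : ℝ) ≤ 5 * τ)).le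
        linarith
      have hkk2 : (2 : ℝ) ≤ (kk τ : ℝ) := by
        unfold kk
        push_cast
        have : (0 : ℝ) ≤ (⌈5 * τ⌉₊ : ℝ) := by positivity
        linarith
      have hkk0 : (0 : ℝ) < (kk τ : ℝ) := by linarith
      have hkk6 : (kk τ : ℝ) ^ 6 ≤ (8 * κ) ^ 6 * l ^ (6 / 10 : ℝ) := by
        calc (kk τ : ℝ) ^ 6 ≤ (8 * κ * l ^ (1 / 10 : ℝ)) ^ 6 :=
              pow_le_pow_left₀ hkk0.le hkk 6
          _ = (8 * κ) ^ 6 * (l ^ (1 / 10 : ℝ)) ^ 6 := by rw [mul_pow]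
          _ = (8 * κ) ^ 6 * l ^ (6 / 10 : ℝ) := by
              rw [← Real.rpow_natCast (l ^ (1 / 10 : ℝ)) 6, ← Real.rpow_mul hl0.le]
              norm_num
      have hexp : 1 / (33 * (8 * κ) ^ 6) * l ^ (3 / 10 : ℝ)
          ≤ Real.log N * (1 / (33 * (kk τ : ℝ) ^ 6)) := by
        rw [mul_one_div, le_div_iff₀ (by positivity)]
        have hls : l ^ (3 / 10 : ℝ) * l ^ (6 / 10 : ℝ) = l ^ (9 / 10 : ℝ) := by
          rw [← Real.rpow_add hl0]
          norm_num
        calc 1 / (33 * (8 * κ) ^ 6) * l ^ (3 / 10 : ℝ) * (33 * (kk τ : ℝ) ^ 6)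
            ≤ 1 / (33 * (8 * κ) ^ 6) * l ^ (3 / 10 : ℝ) *
              (33 * ((8 * κ) ^ 6 * l ^ (6 / 10 : ℝ))) :=
              mul_le_mul_of_nonneg_left (by linarith) (by positivity)
          _ = l ^ (3 / 10 : ℝ) * l ^ (6 / 10 : ℝ) := by
              field_simp
          _ = l ^ (9 / 10 : ℝ) := hls
          _ ≤ Real.log N := hL
      have hN3 : (N : ℝ) ^ (1 - 1 / (33 * (kk τ : ℝ) ^ 6))
          ≤ N * Real.exp (-(1 / (33 * (8 * κ) ^ 6) * l ^ (3 / 10 : ℝ))) := by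
        have b3 : (N : ℝ) * Real.exp (-(1 / (33 * (8 * κ) ^ 6) * l ^ (3 / 10 : ℝ)))
            = Real.exp (Real.log N + (-(1 / (33 * (8 * κ) ^ 6) * l ^ (3 / 10 : ℝ)))) := by
          rw [Real.exp_add, Real.exp_log hNr]
        rw [Real.rpow_def_of_pos hNr, b3]
        apply Real.exp_le_exp.mpr
        rw [mul_sub, mul_one]
        linarith
      calc 5 * (N : ℝ) ^ (1 - 1 / (33 * (kk τ : ℝ) ^ 6))
          ≤ 5 * (N * Real.exp (-(1 / (33 * (8 * κ) ^ 6) * l ^ (3 / 10 : ℝ)))) :=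
            mul_le_mul_of_nonneg_left hN3 (by norm_num)
        _ ≤ N / l ^ A := by
            rw [Real.exp_neg, le_div_iff₀ hlA]
            have hp := Real.exp_pos (1 / (33 * (8 * κ) ^ 6) * l ^ (3 / 10 : ℝ))
            have h5 : 5 * l ^ A * (Real.exp (1 / (33 * (8 * κ) ^ 6) * l ^ (3 / 10 : ℝ)))⁻¹ ≤ 1 := by
              rw [← div_eq_mul_inv, div_le_one hp]
              exact h4
            calc 5 * ((N : ℝ) * (Real.exp (1 / (33 * (8 * κ) ^ 6) * l ^ (3 / 10 : ℝ)))⁻¹) * l ^ A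
                = N * (5 * l ^ A * (Real.exp (1 / (33 * (8 * κ) ^ 6) * l ^ (3 / 10 : ℝ)))⁻¹) := by
                  ring
              _ ≤ N * 1 := mul_le_mul_of_nonneg_left h5 hNr.le
              _ = N := mul_one _
  intro t u N N' ht1 ht2 hu0 hu1 hL hN1 hN2
  have hlpos : 0 < l ^ (A + 2) := by positivity
  rcases lt_trichotomy t 0 with ht | ht | ht
  · rw [← H_sum]
    rw [abs_of_neg ht] at ht1 ht2
    exact key (-t) u N N' (by linarith) ht1 ht2 hu0 hu1 hL hN1 hN2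
  · subst ht
    simp at ht1
    linarith
  · rw [abs_of_pos ht] at ht1 ht2
    exact key t u N N' ht ht1 ht2 hu0 hu1 hL hN1 hN2

end Pool.Agent.CH.V
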