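import Pool.Agent.Lib.MP_d610d0_nt.CH.V.Stm

set_option autoImplicit false

/-!
Piece un.
-/

namespace Pool.Agent.CH.V

open Finset Filter

private lemma un_col {ι G : Type} [DecidableEq G] (Ω : Finset ι) (Φ : ι → G) (H : Finset G)
    (hH : ∀ x ∈ Ω, Φ x ∈ H) :
    col Ω Φ = ∑ g ∈ H, (Ω.filter (fun x => Φ x = g)).card ^ 2 := by
  classical
  unfold col
  rw [Finset.card_eq_sum_card_fiberwise (f := fun p : ι × ι => Φ p.1) (t := H)]
  · refine Finset.sum_congr rfl fun g _ => ?_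
    rw [sq, ← Finset.card_product]
    congr 1
    ext ⟨x, y⟩
    simp only [Finset.mem_filter, Finset.mem_product]
    constructor
    · rintro ⟨⟨⟨hx, hy⟩, h⟩, rfl⟩
      exact ⟨⟨hx, rfl⟩, hy, h.symm⟩
    · rintro ⟨⟨hx, rfl⟩, hy, h⟩
      exact ⟨⟨⟨hx, hy⟩, h.symm⟩, rfl⟩
  · intro p hp
    simp only [Finset.coe_filter, Finset.mem_product, Set.mem_ofPred_eq] at hp
    exact hH _ hp.1.1

theorem p_un : S_un := by
  intro ι G τ _ _ T Ωt Ω Φ hcov
  classical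
  obtain ⟨H, hH⟩ : ∃ H : Finset G, H = Ω.image Φ ∪ T.biUnion (fun t => (Ωt t).image Φ) := ⟨_, rfl⟩
  have h0 : ∀ x ∈ Ω, Φ x ∈ H := by
    intro x hx
    rw [hH]
    exact Finset.mem_union_left _ (Finset.mem_image_of_mem _ hx)
  have h1 : ∀ t ∈ T, ∀ x ∈ Ωt t, Φ x ∈ H := by
    intro t ht x hx
    rw [hH]
    exact Finset.mem_union_right _
      (Finset.mem_biUnion.2 ⟨t, ht, Finset.mem_image_of_mem _ hx⟩)
  rw [un_col Ω Φ H h0]
  have h2 : ∑ t ∈ T, col (Ωt t) Φ =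
      ∑ t ∈ T, ∑ g ∈ H, ((Ωt t).filter (fun x => Φ x = g)).card ^ 2 :=
    Finset.sum_congr rfl fun t ht => un_col (Ωt t) Φ H (h1 t ht)
  rw [h2, Finset.sum_comm, Finset.mul_sum]
  refine Finset.sum_le_sum fun g _ => ?_
  have h3 : (Ω.filter (fun x => Φ x = g)).card ≤
      ∑ t ∈ T, ((Ωt t).filter (fun x => Φ x = g)).card := by
    refine le_trans (Finset.card_le_card ?_) Finset.card_biUnion_le
    intro x hx
    rw [Finset.mem_filter] at hx
    obtain ⟨t, ht, hxt⟩ := hcov x hx.1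
    exact Finset.mem_biUnion.2 ⟨t, ht, Finset.mem_filter.2 ⟨hxt, hx.2⟩⟩
  exact le_trans (Nat.pow_le_pow_left h3 2) sq_sum_le_card_mul_sum_sq

end Pool.Agent.CH.V
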